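import Pool.Agent.Lib.MP_ce3b04_lc.Up.Core

/-!
# COUNT: the number of states
-/

namespace Pool.Agent.Lib.MP_ce3b04_lc.Up

open Pool.Agent.Lib.PT Pool.Agent.Lib.MP_0b43f8_lc

namespace CountAux

/-- The total length of the codes. -/
def cl (l : List Tm) : ℕ := (l.map fun t => t.code.length).sum

theorem cl_nil : cl [] = 0 := rfl

theorem cl_cons (t : Tm) (l : List Tm) : cl (t :: l) = t.code.length + cl l := by
  simp [cl]

theorem cl_append (l l' : List Tm) : cl (l ++ l') = cl l + cl l' := by
  simp [cl]

theorem cl_ofFn {k : ℕ} (a : Fin k → Tm) :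
    cl (List.ofFn a) = ((List.ofFn fun j => (a j).code).flatten).length := by
  rw [cl, List.length_flatten, List.map_ofFn, List.map_ofFn]
  rfl

theorem cl_args (t : Tm) : 1 + cl (args t) ≤ t.code.length := by
  cases t with
  | var n => simp [args, cl_nil, Tm.code]
  | bul => simp [args, cl_nil, Tm.code]
  | app f k a =>
    simp only [args, cl_ofFn, Tm.code, List.length_append, List.length_cons]
    omega

theorem length_le_cl (l : List Tm) : l.length ≤ cl l := by
  induction l with
  | nil => simp [cl]
  | cons t l ih =>
    rw [cl_cons, List.length_cons]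
    have := cl_args t
    omega

theorem code_le_cl {t : Tm} {l : List Tm} (h : t ∈ l) : t.code.length ≤ cl l := by
  induction l with
  | nil => simp at h
  | cons s l ih =>
    rw [cl_cons]
    rcases List.mem_cons.1 h with rfl | h
    · omega
    · have := ih h
      omega

theorem cl_nxt (l : List Tm) : l.length + cl (nxt l) ≤ cl l := by
  induction l with
  | nil => simp [nxt, cl]
  | cons t l ih =>
    have h1 : nxt (t :: l) = args t ++ nxt l := by simp [nxt]
    rw [h1, cl_append, cl_cons, List.length_cons]
    have := cl_args t
    omega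

theorem subs_zero (l : List Tm) : subs 0 l = [] := by simp [subs]

theorem subs_succ (n : ℕ) (l : List Tm) : subs (n + 1) l = l ++ subs n (nxt l) := by
  simp only [subs, List.range_succ_eq_map, List.flatMap_cons, List.flatMap_map]
  rfl

theorem length_subs (n : ℕ) (l : List Tm) : (subs n l).length ≤ cl l := by
  induction n generalizing l with
  | zero => simp [subs_zero]
  | succ n ih =>
    rw [subs_succ, List.length_append]
    have h1 := ih (nxt l)
    have h2 := cl_nxt l
    omega

theorem code_subs {n : ℕ} {l : List Tm} {t : Tm} (h : t ∈ subs n l) : t.code.length ≤ cl l := by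
  induction n generalizing l with
  | zero => simp [subs_zero] at h
  | succ n ih =>
    rw [subs_succ, List.mem_append] at h
    rcases h with h | h
    · exact code_le_cl h
    · have h1 := ih h
      have h2 := cl_nxt l
      omega

theorem cl_lhss (R : Rules) : cl ((lhss R).flatMap args) ≤ R.code.length := by
  induction R with
  | nil => simp [lhss, cl, Rules.code]
  | cons r R ih =>
    have h1 : (lhss (r :: R)).flatMap args = args r.1 ++ (lhss R).flatMap args := by simp [lhss]
    have h2 : Rules.code (r :: R) = (r.1.code ++ r.2.code) ++ Rules.code R := by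
      simp [Rules.code]
    rw [h1, h2, cl_append, List.length_append, List.length_append]
    have := cl_args r.1
    omega

theorem cl_sides (R : Rules) : cl (R.flatMap fun r => [r.1, r.2]) ≤ R.code.length := by
  induction R with
  | nil => simp [cl, Rules.code]
  | cons r R ih =>
    have h1 : ((r :: R).flatMap fun r => [r.1, r.2]) =
        r.1 :: r.2 :: (R.flatMap fun r => [r.1, r.2]) := by simp
    have h2 : Rules.code (r :: R) = (r.1.code ++ r.2.code) ++ Rules.code R := by
      simp [Rules.code]
    rw [h1, h2, cl_cons, cl_cons, List.length_append, List.length_append]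
    omega

theorem length_pats (n : ℕ) (R : Rules) : (pats n R).length ≤ R.code.length :=
  (length_subs n _).trans (cl_lhss R)

theorem length_symsL (n : ℕ) (R : Rules) : (symsL n R).length ≤ R.code.length := by
  rw [symsL, List.length_map]
  exact (List.length_filter_le _ _).trans ((length_subs n _).trans (cl_sides R))

theorem arity_le {n : ℕ} {R : Rules} {s : ℕ × ℕ} (h : s ∈ symsL n R) : s.2 ≤ R.code.length := by
  rw [symsL, List.mem_map] at h
  obtain ⟨t, ht, rfl⟩ := h
  have h1 := code_subs (List.mem_filter.1 ht).1
  have h2 := cl_sides R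
  have h3 := cl_args t
  have h4 := length_le_cl (args t)
  simp only
  omega

/-- The elements of `subl N P` are sublists of `P`. -/
theorem sublist_of_subl {N : ℕ} {P G : List Tm} (h : G ∈ subl N P) : G.Sublist P := by
  rw [subl, List.foldl_reverse] at h
  induction P generalizing G with
  | nil =>
    simp only [List.foldr_nil, List.mem_singleton] at h
    rw [h]
  | cons p P ih =>
    rw [List.foldr_cons] at h
    have h1 := List.mem_of_mem_take h
    rw [List.mem_append, List.mem_map] at h1
    rcases h1 with h1 | ⟨G', h1, rfl⟩
    · exact (ih h1).cons p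
    · exact (ih h1).cons_cons p

/-- The set of the states that can be reached. -/
structure Inv (P : List Tm) (S : List (ℕ × ℕ)) (m : ℕ) (x : St) : Prop where
  sym : x.1 = none ∨ ∃ s ∈ S, x.1 = some s
  G : x.2.1.Sublist P
  tr : ∀ y ∈ x.2.2.1, y.1.Sublist P ∧ y.2.1.Sublist P ∧ y.2.2.Sublist P
  len : x.2.2.1.length ≤ m + 1

theorem inv_gen {n N : ℕ} {R : Rules} {x : St} (h : GenU (cxOf n N R) x) :
    Inv (pats n R) (symsL n R) R.code.length x := by
  induction h with
  | init x h =>
    simp only [initU, cxOf, List.mem_append, List.mem_map, List.mem_flatMap] at h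
    rcases h with ⟨G, hG, rfl⟩ | h | ⟨s, hs, G, hG, rfl⟩
    · refine ⟨Or.inl rfl, sublist_of_subl hG, ?_, by simp⟩
      intro y hy
      simp only [List.mem_singleton] at hy
      subst hy
      exact ⟨List.filter_sublist, List.filter_sublist, List.nil_sublist _⟩
    · cases hR : (lhss R).isEmpty with
      | true => rw [hR] at h; simp at h
      | false =>
        rw [hR] at h
        simp only [cond_false, List.mem_map, List.mem_filter] at h
        obtain ⟨G, ⟨hG, _⟩, rfl⟩ := h
        refine ⟨Or.inl rfl, sublist_of_subl hG, ?_, by simp⟩
        intro y hy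
        simp only [List.mem_singleton] at hy
        subst hy
        exact ⟨List.filter_sublist, List.Sublist.refl _, List.nil_sublist _⟩
    · exact ⟨Or.inr ⟨s, hs, rfl⟩, sublist_of_subl hG, by simp, by simp⟩
  | un x y hx hy ih =>
    rcases x with ⟨o, G, L, b⟩
    cases o with
    | none => simp [unU] at hy
    | some s =>
      simp only [unU, cxOf, Bool.cond_eq_ite] at hy
      split at hy
      · rename_i hc
        simp only [List.mem_singleton] at hy
        subst hy
        refine ⟨Or.inl rfl, ih.G, ?_, by simp⟩
        intro y hy
        simp only [List.mem_singleton] at hy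
        subst hy
        refine ⟨List.filter_sublist, ?_, List.nil_sublist _⟩
        simp only [qset]
        cases redexb (lhss R) s (L.map fun y => y.2.1) with
        | true => exact List.Sublist.refl _
        | false => exact List.filter_sublist
      · simp at hy
  | bin x y z hx hy hz ihx ihy =>
    rcases x with ⟨o, G, L, b⟩
    cases o with
    | none => simp [binU] at hz
    | some s =>
      simp only [binU, Bool.cond_eq_ite] at hz
      split at hz
      · rename_i hc
        simp only [List.mem_singleton] at hz
        subst hz
        rw [Bool.and_eq_true, decide_eq_true_eq] at hc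
        obtain ⟨s', hs', h1⟩ : ∃ s' ∈ symsL n R, some s = some s' := by
          rcases ihx.sym with h | h
          · simp at h
          · exact h
        obtain rfl := Option.some_injective _ h1
        refine ⟨Or.inr ⟨s, hs', rfl⟩, ihx.G, ?_, ?_⟩
        · intro w hw
          simp only [List.mem_append, List.mem_singleton] at hw
          rcases hw with hw | rfl
          · exact ihx.tr w hw
          · simp only
            rcases h2 : y.2.2.1 with - | ⟨v, L'⟩
            · exact ⟨List.nil_sublist _, List.nil_sublist _, ihy.G⟩
            · have h3 := ihy.tr v (by rw [h2]; simp)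
              exact ⟨h3.1, h3.2.1, ihy.G⟩
        · have h4 := arity_le hs'
          simp only [List.length_append, List.length_singleton]
          have h5 : L.length < s.2 := hc.2
          omega
      · simp at hz

/-- The lists of length at most `m` with entries in a list. -/
def lists {α : Type} (A : List α) : ℕ → List (List α)
  | 0 => [[]]
  | m + 1 => [] :: A.flatMap fun a => (lists A m).map (a :: ·)

theorem mem_lists {α : Type} {A : List α} {m : ℕ} {l : List α} (h : ∀ a ∈ l, a ∈ A)
    (hl : l.length ≤ m) : l ∈ lists A m := by
  induction m generalizing l with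
  | zero =>
    have : l = [] := List.length_eq_zero_iff.1 (by omega)
    simp [lists, this]
  | succ m ih =>
    cases l with
    | nil => simp [lists]
    | cons a l =>
      simp only [lists, List.mem_cons, List.mem_flatMap, List.mem_map]
      right
      exact ⟨a, h a (by simp), l, ih (fun b hb => h b (by simp [hb])) (by simpa using hl), rfl⟩

theorem length_lists {α : Type} (A : List α) (m : ℕ) :
    (lists A m).length ≤ (A.length + 1) ^ m := by
  induction m with
  | zero => simp [lists]
  | succ m ih =>
    have h1 : (A.flatMap fun a => (lists A m).map (a :: ·)).length =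
        A.length * (lists A m).length := by
      induction A with
      | nil => simp
      | cons b A _ => simp [List.length_flatMap]; ring
    simp only [lists, List.length_cons, h1]
    have h2 : 1 ≤ (A.length + 1) ^ m := Nat.one_le_pow _ _ (by omega)
    calc A.length * (lists A m).length + 1
        ≤ A.length * (A.length + 1) ^ m + (A.length + 1) ^ m :=
          Nat.add_le_add (Nat.mul_le_mul_left _ ih) h2
      _ = (A.length + 1) ^ (m + 1) := by ring

/-- All states. -/
def allSt (P : List Tm) (S : List (ℕ × ℕ)) (m : ℕ) : List St :=
  (none :: S.map some) ×ˢ (P.sublists ×ˢ (lists (P.sublists ×ˢ (P.sublists ×ˢ P.sublists)) (m + 1)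
    ×ˢ [true, false]))

theorem mem_allSt {P : List Tm} {S : List (ℕ × ℕ)} {m : ℕ} {x : St} (h : Inv P S m x) :
    x ∈ allSt P S m := by
  rcases x with ⟨o, G, L, b⟩
  simp only [allSt, List.mem_product]
  refine ⟨?_, List.mem_sublists.2 h.G, mem_lists ?_ h.len, by cases b <;> simp⟩
  · rcases h.sym with h | ⟨s, hs, h⟩
    · simp only at h
      simp [h]
    · simp only at h
      simp [h, hs]
  · rintro ⟨y1, y2, y3⟩ hy
    have h1 := h.tr _ hy
    simp only [List.mem_product, List.mem_sublists]
    exact h1

theorem length_allSt {P : List Tm} {S : List (ℕ × ℕ)} {m : ℕ} (hP : P.length ≤ m)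
    (hS : S.length ≤ m) : (allSt P S m).length ≤ 2 ^ (m + 3) ^ 3 := by
  have h1 : P.sublists.length ≤ 2 ^ m := by
    rw [List.length_sublists]
    exact Nat.pow_le_pow_right (by omega) hP
  have h2 : (P.sublists ×ˢ (P.sublists ×ˢ P.sublists)).length + 1 ≤ 2 ^ (3 * m + 1) := by
    rw [List.length_product, List.length_product]
    have h3 : P.sublists.length * (P.sublists.length * P.sublists.length) ≤
        2 ^ m * (2 ^ m * 2 ^ m) := Nat.mul_le_mul h1 (Nat.mul_le_mul h1 h1)
    have h4 : 2 ^ m * (2 ^ m * 2 ^ m) = 2 ^ (3 * m) := by
      rw [← pow_add, ← pow_add]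
      congr 1
      ring
    have h5 : 1 ≤ 2 ^ (3 * m) := Nat.one_le_two_pow
    rw [h4] at h3
    rw [pow_succ]
    omega
  have h3 : (lists (P.sublists ×ˢ (P.sublists ×ˢ P.sublists)) (m + 1)).length ≤
      2 ^ ((3 * m + 1) * (m + 1)) := by
    rw [pow_mul]
    exact (length_lists _ _).trans (Nat.pow_le_pow_left h2 _)
  have h4 : (none :: S.map some : List (Option (ℕ × ℕ))).length ≤ 2 ^ (m + 1) := by
    rw [List.length_cons, List.length_map]
    have : m + 1 < 2 ^ (m + 1) := Nat.lt_two_pow_self
    omega
  rw [allSt, List.length_product, List.length_product, List.length_product]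
  calc (none :: S.map some : List (Option (ℕ × ℕ))).length * (P.sublists.length *
        ((lists (P.sublists ×ˢ (P.sublists ×ˢ P.sublists)) (m + 1)).length *
          [true, false].length))
      ≤ 2 ^ (m + 1) * (2 ^ m * (2 ^ ((3 * m + 1) * (m + 1)) * 2 ^ 1)) :=
        Nat.mul_le_mul h4 (Nat.mul_le_mul h1 (Nat.mul_le_mul h3 (by simp)))
    _ = 2 ^ (m + 1 + (m + ((3 * m + 1) * (m + 1) + 1))) := by
        rw [← pow_add, ← pow_add, ← pow_add]
    _ ≤ 2 ^ (m + 3) ^ 3 := by
        refine Nat.pow_le_pow_right (by omega) ?_
        have h5 : (m + 3) ^ 3 = m + 1 + (m + ((3 * m + 1) * (m + 1) + 1)) +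
          (m ^ 3 + 6 * m ^ 2 + 21 * m + 24) := by ring
        omega

end CountAux

open CountAux in
/-- COUNT -/
theorem stCountU : StCountU := by
  rintro n N R rfl hN
  have h1 : 2 ^ (pats (R.code.length + 1) R).length ≤ N := by
    refine le_trans (Nat.pow_le_pow_right (by omega) ?_) hN
    have h2 := length_pats (R.code.length + 1) R
    have h3 : R.code.length ≤ (R.code.length + 1 + 2) ^ 3 := by
      calc R.code.length ≤ R.code.length + 1 + 2 := by omega
        _ = (R.code.length + 1 + 2) ^ 1 := (pow_one _).symm
        _ ≤ _ := Nat.pow_le_pow_right (by omega) (by omega)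
    omega
  exact ⟨h1, allSt (pats (R.code.length + 1) R) (symsL (R.code.length + 1) R) R.code.length,
    (length_allSt (length_pats _ R) (length_symsL _ R)).trans hN,
    fun x hx => mem_allSt (inv_gen hx)⟩

end Pool.Agent.Lib.MP_ce3b04_lc.Up
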