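import Pool.Agent.Lib.MP_ce3b04_lc.Up.Core

/-!
# Strong sequentiality is decidable in exponential time: the class NP

The class NP is closed under polynomial time reductions and is contained in EXPTIME.
-/

open Function Turing

namespace Pool.Agent.Lib.MP_ce3b04_lc.Up

open Pool.Agent.Lib.PT Pool.Agent.Lib.MP_0b43f8_lc Pool.Agent.Lib.CookLevin

noncomputable section

namespace NP

/-- Letters of a finite alphabet are numbers. -/
@[reducible] def encOf (Γ : Type) [Fintype Γ] : Enc Γ := ⟨fun a => tr (Fintype.equivFin Γ a).1⟩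

theorem encOf_inj (Γ : Type) [Fintype Γ] : @EncInj Γ (encOf Γ) := by
  let _ : Enc Γ := encOf Γ
  refine ⟨fun a b h => ?_⟩
  have h1 : tr (Fintype.equivFin Γ a).1 = tr (Fintype.equivFin Γ b).1 := h
  exact (Fintype.equivFin Γ).injective (Fin.ext (EncInj.inj h1))

/-- Polynomials. -/
theorem ptime_poly {α : Type} [Enc α] {n : α → ℕ} (hn : PTime n) (p : Polynomial ℕ) :
    PTime fun a => p.eval (n a) := by
  induction p using Polynomial.induction_on' with
  | add p q hp hq => exact (hp.add hq).of_eq fun a => by rw [Polynomial.eval_add]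
  | monomial k c =>
    have h : PTime fun a => n a ^ k := by
      induction k with
      | zero => exact (PTime.const 1).of_eq fun a => by simp
      | succ k ih => exact (ih.mul hn).of_eq fun a => by rw [pow_succ]
    exact ((PTime.const c).mul h).of_eq fun a => by rw [Polynomial.eval_monomial]

section Pairs

variable {Δ : Type} [Enc Δ]

/-- The first components of a sequence. -/
def lefts (l : List (Δ ⊕ Bool)) : List Δ := l.flatMap fun s => s.elim (fun a => [a]) fun _ => []

/-- The second components of a sequence. -/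
def rights (l : List (Δ ⊕ Bool)) : List Bool := l.flatMap fun s => s.elim (fun _ => []) fun b => [b]

omit [Enc Δ] in
theorem lefts_encPair (p : List Δ × List Bool) : lefts (encPair p) = p.1 := by
  obtain ⟨x, w⟩ := p
  simp [lefts, encPair, List.flatMap_append, List.flatMap_map]

omit [Enc Δ] in
theorem rights_encPair (p : List Δ × List Bool) : rights (encPair p) = p.2 := by
  obtain ⟨x, w⟩ := p
  simp [rights, encPair, List.flatMap_append, List.flatMap_map]

theorem ptime_lefts : PTime (lefts : List (Δ ⊕ Bool) → List Δ) := by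
  refine PTime.flatMap (l := fun l : List (Δ ⊕ Bool) => l)
    (f := fun _ s => s.elim (fun a => [a]) fun _ => []) PTime.id ?_
  refine PTime.sumCases (o := fun p : List (Δ ⊕ Bool) × (Δ ⊕ Bool) => p.2)
    (f := fun q => [q.2]) (g := fun _ => []) ?_ ?_ ?_ ?_ ?_
  · fun_prop
  · fun_prop
  · fun_prop
  · intro a b h; rw [h]; rfl
  · intro a b h; rw [h]; rfl

theorem ptime_rights : PTime (rights : List (Δ ⊕ Bool) → List Bool) := by
  refine PTime.flatMap (l := fun l : List (Δ ⊕ Bool) => l)
    (f := fun _ s => s.elim (fun _ => []) fun b => [b]) PTime.id ?_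
  refine PTime.sumCases (o := fun p : List (Δ ⊕ Bool) × (Δ ⊕ Bool) => p.2)
    (f := fun _ => []) (g := fun q => [q.2]) ?_ ?_ ?_ ?_ ?_
  · fun_prop
  · fun_prop
  · fun_prop
  · intro a b h; rw [h]; rfl
  · intro a b h; rw [h]; rfl

theorem ptime_encPair : PTime (encPair : List Δ × List Bool → List (Δ ⊕ Bool)) := by
  unfold encPair
  refine PTime.append (PTime.map (l := fun p : List Δ × List Bool => p.1)
    (f := fun _ a => Sum.inl a) (by fun_prop) (by fun_prop))
    (PTime.map (l := fun p : List Δ × List Bool => p.2) (f := fun _ a => Sum.inr a) (by fun_prop)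
      (by fun_prop))

end Pairs

/-- The length of the value of a polynomial time function. -/
theorem exists_length_le {Γ Δ : Type} [Fintype Γ] [Enc Γ] [Enc Δ] {F : List Γ → List Δ}
    (hF : PTime F) : ∃ q : Polynomial ℕ, ∀ x, (F x).length ≤ q.eval x.length := by
  obtain ⟨q, hq⟩ := hF.sz_le
  obtain ⟨M, hM⟩ := exists_sz_le Γ
  refine ⟨q.comp (Polynomial.X * Polynomial.C (M + 1) + Polynomial.C 1), fun x => ?_⟩
  refine (length_le_sz _).trans ((hq x).trans ?_)
  rw [Polynomial.eval_comp]
  refine PT.eval_mono q ?_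
  simp only [Polynomial.eval_add, Polynomial.eval_mul, Polynomial.eval_X, Polynomial.eval_C]
  exact sz_le_of_forall fun g _ => hM g

theorem stNPred (h : StTMPT) : StNPred := by
  intro Γ Δ _ _ L L' f hf hL hL'
  obtain ⟨p, V, hV, hVL⟩ := hL'
  let _ : Enc Γ := encOf Γ
  have : EncInj Γ := encOf_inj Γ
  let _ : Enc Δ := encOf Δ
  have : EncInj Δ := encOf_inj Δ
  obtain ⟨Ff, hFf, hFf'⟩ := h (List Γ) (List Δ) Γ Δ id id f hf
  obtain ⟨F, hF, hF'⟩ := h (List Δ × List Bool) Bool (Δ ⊕ Bool) Bool encPair
    Computability.encodeBool V hV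
  have hff : ∀ x, Ff x = f x := hFf'
  obtain ⟨q, hq⟩ := exists_length_le hFf
  refine ⟨p.comp q, fun a => decide (a.2.length ≤ p.eval (f a.1).length) && V (f a.1, a.2),
    ?_, fun x => ?_⟩
  · have hl : PTime fun l : List (Γ ⊕ Bool) => Ff (lefts l) := hFf.comp ptime_lefts
    have hr : PTime fun l : List (Γ ⊕ Bool) => rights l := ptime_rights
    have h1 : PTime fun l : List (Γ ⊕ Bool) =>
        decide ((rights l).length ≤ p.eval (Ff (lefts l)).length) :=
      PTime.le hr.length (ptime_poly hl.length p)
    have h2 : PTime fun l : List (Γ ⊕ Bool) => F (encPair (Ff (lefts l), rights l)) :=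
      hF.comp (ptime_encPair.comp (hl.pair hr))
    refine ptime_tm' (fun _ _ e => EncInj.inj e) (F := fun l : List (Γ ⊕ Bool) =>
      bif decide ((rights l).length ≤ p.eval (Ff (lefts l)).length) then
        F (encPair (Ff (lefts l), rights l)) else [false])
      (PTime.cond h1 h2 (PTime.const _)) fun a => ?_
    rw [lefts_encPair, rights_encPair, hF', hff]
    cases decide (a.2.length ≤ p.eval (f a.1).length) <;> rfl
  · rw [hL, hVL]
    constructor
    · rintro ⟨w, h1, h2⟩
      refine ⟨w, h1.trans ?_, ?_⟩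
      · rw [Polynomial.eval_comp, ← hff]
        exact PT.eval_mono p (hq x)
      · rw [Bool.and_eq_true, decide_eq_true_eq]
        exact ⟨h1, h2⟩
    · rintro ⟨w, -, h2⟩
      rw [Bool.and_eq_true, decide_eq_true_eq] at h2
      exact ⟨w, h2.1, h2.2⟩

/-! ### All certificates -/

/-- The next list of words. -/
def cnext (N : ℕ) (acc : List (List Bool)) : List (List Bool) :=
  ([] :: acc.flatMap fun w => [true :: w, false :: w]).take N

/-- The words of length at most `m`, if `N` is large. -/
def certs (N m : ℕ) : List (List Bool) := (cnext N)^[m] [[]]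

theorem certs_succ (N m : ℕ) : certs N (m + 1) = cnext N (certs N m) := by
  unfold certs
  rw [iterate_succ_apply']

theorem length_step (l : List (List Bool)) :
    (l.flatMap fun w => [true :: w, false :: w]).length = 2 * l.length := by
  induction l with
  | nil => rfl
  | cons x l ih => rw [List.flatMap_cons, List.length_append, ih]; simp; omega

theorem mem_certs (N : ℕ) : ∀ m, 2 ^ (m + 1) ≤ N →
    (certs N m).length + 1 ≤ 2 ^ (m + 1) ∧ ∀ w : List Bool, w.length ≤ m → w ∈ certs N m := by
  intro m
  induction m with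
  | zero =>
    intro _
    refine ⟨by simp [certs], fun w hw => ?_⟩
    have : w = [] := List.eq_nil_of_length_eq_zero (by omega)
    subst this
    simp [certs]
  | succ m ih =>
    intro hN
    have e : 2 ^ (m + 1 + 1) = 2 * 2 ^ (m + 1) := by rw [pow_succ]; ring
    obtain ⟨h1, h2⟩ := ih (by omega)
    have h3 : cnext N (certs N m) =
        [] :: (certs N m).flatMap fun w => [true :: w, false :: w] := by
      unfold cnext
      rw [List.take_of_length_le]
      rw [List.length_cons, length_step]
      omega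
    rw [certs_succ, h3]
    refine ⟨by rw [List.length_cons, length_step]; omega, fun w hw => ?_⟩
    cases w with
    | nil => exact List.mem_cons_self
    | cons b w =>
      refine List.mem_cons_of_mem _ (List.mem_flatMap.2 ⟨w, h2 w ?_, ?_⟩)
      · rw [List.length_cons] at hw
        omega
      · cases b <;> simp

theorem certs_bound (N : ℕ) : ∀ m, (certs N m).length ≤ N + 1 ∧
    ∀ w ∈ certs N m, w.length ≤ m := by
  intro m
  induction m with
  | zero =>
    refine ⟨by simp [certs], fun w hw => ?_⟩
    simp only [certs, iterate_zero, id_eq, List.mem_singleton] at hw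
    simp [hw]
  | succ m ih =>
    rw [certs_succ]
    refine ⟨(List.length_take_le _ _).trans (by omega), fun w hw => ?_⟩
    have h1 := List.mem_of_mem_take hw
    rcases List.mem_cons.1 h1 with rfl | h1
    · simp
    · obtain ⟨v, hv, hw⟩ := List.mem_flatMap.1 h1
      have := ih.2 v hv
      simp only [List.mem_cons, List.not_mem_nil, or_false] at hw
      rcases hw with rfl | rfl <;> simp only [List.length_cons] <;> omega

theorem sz_bools (l : List Bool) : sz l ≤ l.length * 4 + 1 :=
  sz_le_of_forall (B := 3) fun x _ => sz_bool x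

theorem sz_certs (N m : ℕ) : sz (certs N m) ≤ (N + 1) * (m * 4 + 2) + 1 := by
  obtain ⟨h1, h2⟩ := certs_bound N m
  refine (sz_le_of_forall (B := m * 4 + 1) fun w hw => ?_).trans ?_
  · exact (sz_bools w).trans (by have := h2 w hw; omega)
  · exact Nat.add_le_add_right (Nat.mul_le_mul_right (m * 4 + 1 + 1) h1) 1

theorem ptime_certs {α : Type} [Enc α] {N m : α → ℕ} (hN : PTime N) (hm : PTime m) :
    PTime fun a => certs (N a) (m a) := by
  have hN' : PB N := hN.sz_le.mono fun a => by rw [sz_nat]; omega
  have hm' : PB m := hm.sz_le.mono fun a => by rw [sz_nat]; omega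
  have h1 : PTime fun p : α × List (List Bool) => N p.1 := hN.comp (by fun_prop)
  have h2 : PTime fun p : α × List (List Bool) =>
      p.2.flatMap fun w => [true :: w, false :: w] :=
    PTime.flatMap (l := fun p : α × List (List Bool) => p.2)
      (f := fun _ w => [true :: w, false :: w]) (by fun_prop) (by fun_prop)
  refine PTime.iterate (n := m) (s := fun _ => [[]]) (f := fun a acc => cnext (N a) acc) hm
    (PTime.const _) ?_ (B := fun a => (N a + 1) * (m a * 4 + 2) + 1) ?_ ?_
  · unfold cnext
    fun_prop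
  · exact ((hN'.add (PB.const 1)).mul ((hm'.mul (PB.const 4)).add (PB.const 2))).add (PB.const 1)
  · intro a i hi
    refine (sz_certs (N a) i).trans ?_
    have : i * 4 + 2 ≤ m a * 4 + 2 := by omega
    have := Nat.mul_le_mul_left (N a + 1) this
    omega

theorem poly_le (p : Polynomial ℕ) : ∃ d : ℕ, ∀ x : ℕ, 2 ≤ x → p.eval x ≤ x ^ d := by
  induction p using Polynomial.induction_on' with
  | add p q hp hq =>
    obtain ⟨d, hd⟩ := hp
    obtain ⟨e, he⟩ := hq
    refine ⟨max d e + 1, fun x hx => ?_⟩
    rw [Polynomial.eval_add]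
    have h1 := (hd x hx).trans (Nat.pow_le_pow_right (by omega) (le_max_left d e))
    have h2 := (he x hx).trans (Nat.pow_le_pow_right (by omega) (le_max_right d e))
    calc p.eval x + q.eval x ≤ x ^ max d e * 2 := by omega
      _ ≤ x ^ (max d e + 1) := by rw [pow_succ]; exact Nat.mul_le_mul_left _ hx
  | monomial n a =>
    refine ⟨a + n, fun x hx => ?_⟩
    rw [Polynomial.eval_monomial, pow_add]
    refine Nat.mul_le_mul_right _ ?_
    exact (Nat.lt_two_pow_self).le.trans (Nat.pow_le_pow_left hx a)

/-- The number of certificates. -/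
def expo {Γ : Type} (p : Polynomial ℕ) (x : List Γ) : ℕ := p.eval x.length + 1

/-- The test of all certificates. -/
def alg {Γ : Type} (F : List (Γ ⊕ Bool) → List Bool) (p : Polynomial ℕ) (x : List Γ) (N : ℕ) :
    Bool :=
  (certs N (p.eval x.length)).any fun w =>
    decide (w.length ≤ p.eval x.length) && decide (F (encPair (x, w)) = [true])

theorem ptime_alg {Γ : Type} [Enc Γ] {F : List (Γ ⊕ Bool) → List Bool} (hF : PTime F)
    (p : Polynomial ℕ) : PTime fun q : List Γ × ℕ => alg F p q.1 q.2 := by
  unfold alg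
  have hm : PTime fun q : List Γ × ℕ => p.eval q.1.length := ptime_poly (by fun_prop) p
  refine PTime.any (ptime_certs (by fun_prop) hm) ?_
  have h1 : PTime fun q : (List Γ × ℕ) × List Bool => p.eval q.1.1.length :=
    ptime_poly (by fun_prop) p
  have h2 : PTime fun q : (List Γ × ℕ) × List Bool => encPair (q.1.1, q.2) :=
    ptime_encPair.comp (by fun_prop)
  have h3 : PTime fun q : (List Γ × ℕ) × List Bool => F (encPair (q.1.1, q.2)) := hF.comp h2
  fun_prop

theorem alg_iff {Γ : Type} {F : List (Γ ⊕ Bool) → List Bool} {p : Polynomial ℕ}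
    {V : List Γ × List Bool → Bool} (hF : ∀ a, F (encPair a) = Computability.encodeBool (V a))
    {x : List Γ} {N : ℕ} (hN : 2 ^ expo p x ≤ N) :
    alg F p x N = true ↔ ∃ w : List Bool, w.length ≤ p.eval x.length ∧ V (x, w) = true := by
  unfold alg
  rw [List.any_eq_true]
  constructor
  · rintro ⟨w, -, h⟩
    rw [Bool.and_eq_true, decide_eq_true_eq, decide_eq_true_eq, hF] at h
    refine ⟨w, h.1, ?_⟩
    have h2 : [V (x, w)] = [true] := h.2
    exact (List.cons.inj h2).1
  · rintro ⟨w, h1, h2⟩
    refine ⟨w, (mem_certs N _ hN).2 w h1, ?_⟩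
    rw [Bool.and_eq_true, decide_eq_true_eq, decide_eq_true_eq, hF, h2]
    exact ⟨h1, rfl⟩

/-- The bound of the time. -/
def gE {Γ : Type} [Enc Γ] (p : Polynomial ℕ) (x : List Γ) : ℕ :=
  2 * expo p x + (2 * 2 + (2 * 2 ^ expo p x + sz x)) + 6

theorem tb_alg {Γ : Type} [Enc Γ] {F : List (Γ ⊕ Bool) → List Bool} (hF : PTime F)
    (p : Polynomial ℕ) : TB (gE p) fun x : List Γ => [alg F p x (2 ^ expo p x)] := by
  have hE : PTime fun x : List Γ => expo p x := by
    unfold expo
    exact (ptime_poly (by fun_prop) p).add (PTime.const 1)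
  have h1 : TB (gE p) fun x : List Γ => (2 ^ expo p x, x) :=
    TB.pow hE (PTime.const 2) PTime.id (fun x => by unfold gE; omega) (fun _ => by omega)
      (fun x => by unfold gE; omega)
  have h2 : PTime fun q : ℕ × List Γ => [alg F p q.2 q.1] :=
    PTime.cons ((ptime_alg hF p).comp (g := fun q : ℕ × List Γ => (q.2, q.1)) (by fun_prop))
      (PTime.const [])
  exact TB.comp h2 h1 fun x => by unfold gE; omega

theorem stNPEXP (h : StTMPT) : StNPEXP := by
  intro Γ _ L hL
  obtain ⟨p, V, hV, hVL⟩ := hL
  let _ : Enc Γ := encOf Γ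
  have : EncInj Γ := encOf_inj Γ
  obtain ⟨F, hF, hF'⟩ := h (List Γ × List Bool) Bool (Γ ⊕ Bool) Bool encPair
    Computability.encodeBool V hV
  have hinj : Function.Injective (tr : Bool → T) := fun _ _ e => EncInj.inj e
  rcases isEmpty_or_nonempty Γ with hΓ | ⟨⟨γ⟩⟩
  · -- only the empty word
    obtain ⟨M₁, p₁, h₁⟩ := exists_map (A := Γ) (B := Bool) (fun _ => true)
    have hc : PTime fun _ : List Bool => [alg F p ([] : List Γ) (2 ^ expo p ([] : List Γ))] :=
      PTime.const _
    obtain ⟨M₂, p₂, h₂⟩ := tb_tm hinj (g := fun l : List Bool => sz l) (fun _ => le_rfl)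
      (TB.of_ptime hc fun _ => le_rfl)
    obtain ⟨M, hM⟩ := exists_comp M₁ M₂
    have key : ∀ x : List Γ, x = [] := fun x => by
      cases x with
      | nil => rfl
      | cons a _ => exact hΓ.elim a
    have h3 := hM [] _ _ _ _ (h₁ []) (h₂ _)
    simp only [List.map_nil, List.length_nil] at h3
    refine ⟨fun x => alg F p x (2 ^ expo p x),
      ⟨M, fun _ => p₁.eval 0 + 2 * (0 + 1) + p₂.eval (sz ([] : List Bool)), fun x => ?_⟩,
      Polynomial.C (p₁.eval 0 + 2 * (0 + 1) + p₂.eval (sz ([] : List Bool))),
      fun x => ?_, fun n => ?_⟩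
    · rw [key x]
      exact h3.some
    · rw [hVL, alg_iff hF' le_rfl]
    · rw [Polynomial.eval_C]
      exact (Nat.lt_two_pow_self).le
  · have : Inhabited Γ := ⟨γ⟩
    obtain ⟨M, q, hM⟩ := tb_tm hinj (fun x => by unfold gE; omega) (tb_alg hF p)
    obtain ⟨B, hB⟩ := exists_sz_le Γ
    obtain ⟨d, hd⟩ := poly_le q
    -- the bound as a function of the length
    let A : Polynomial ℕ := Polynomial.C 2 * (p + Polynomial.C 1) + Polynomial.C 11 +
      Polynomial.X * Polynomial.C (B + 1)
    have hG : ∀ x : List Γ, gE p x ≤ A.eval x.length + 2 ^ (p.eval x.length + 2) := by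
      intro x
      have h1 : sz x ≤ x.length * (B + 1) + 1 := sz_le_of_forall fun g _ => hB g
      have h2 : A.eval x.length = 2 * (p.eval x.length + 1) + 11 + x.length * (B + 1) := by
        simp only [A, Polynomial.eval_add, Polynomial.eval_mul, Polynomial.eval_X,
          Polynomial.eval_C]
      have h3 : 2 ^ (p.eval x.length + 2) = 2 * 2 ^ (p.eval x.length + 1) := by
        rw [pow_succ]; ring
      rw [h2, h3]
      unfold gE expo
      omega
    refine ⟨fun x => alg F p x (2 ^ expo p x),
      ⟨M, fun n => q.eval (A.eval n + 2 ^ (p.eval n + 2)), fun x => ?_⟩,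
      (A + p + Polynomial.C 3) * Polynomial.C d, fun x => ?_, fun n => ?_⟩
    · exact (Outputs.mono (hM x) (PT.eval_mono q (hG x))).some
    · rw [hVL, alg_iff hF' le_rfl]
    · simp only
      have h4 : 2 ^ 2 ≤ 2 ^ (p.eval n + 2) := Nat.pow_le_pow_right (by omega) (by omega)
      refine (hd _ (by omega)).trans ?_
      rw [Polynomial.eval_mul, Polynomial.eval_C, pow_mul]
      refine Nat.pow_le_pow_left ?_ d
      simp only [Polynomial.eval_add, Polynomial.eval_C]
      have h5 : A.eval n ≤ 2 ^ A.eval n := (Nat.lt_two_pow_self).le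
      have h6 : 2 ^ A.eval n ≤ 2 ^ (A.eval n + p.eval n + 2) :=
        Nat.pow_le_pow_right (by omega) (by omega)
      have h7 : 2 ^ (p.eval n + 2) ≤ 2 ^ (A.eval n + p.eval n + 2) :=
        Nat.pow_le_pow_right (by omega) (by omega)
      have h8 : 2 ^ (A.eval n + p.eval n + 3) = 2 * 2 ^ (A.eval n + p.eval n + 2) := by
        rw [pow_succ]; ring
      omega

end NP

theorem stNPred (h : StTMPT) : StNPred := NP.stNPred h

theorem stNPEXP (h : StTMPT) : StNPEXP := NP.stNPEXP h

end

end Pool.Agent.Lib.MP_ce3b04_lc.Up
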