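import Pool.Agent.Lib.MP_ce3b04_lc.Up.Core

/-!
# The test of orthogonality

`stOrth : StOrth` (the Boolean test decides orthogonality of systems of bounded height) and
`stHt : StHt`.
-/

open Relation

namespace Pool.Agent.Lib.MP_ce3b04_lc.Up

open Pool.Agent.Lib.PT Pool.Agent.Lib.MP_0b43f8_lc

noncomputable section

/-! ### Levels -/

theorem nxt_append (l l' : List Tm) : nxt (l ++ l') = nxt l ++ nxt l' := by
  simp [nxt]

theorem nxt_it_append (d : ℕ) (l l' : List Tm) : nxt^[d] (l ++ l') = nxt^[d] l ++ nxt^[d] l' := by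
  induction d generalizing l l' with
  | zero => rfl
  | succ d ih => rw [Function.iterate_succ_apply, nxt_append, ih]; rfl

theorem nxt_it_nil (d : ℕ) : nxt^[d] [] = [] := by
  induction d with
  | zero => rfl
  | succ d ih => rw [Function.iterate_succ_apply]; exact ih

theorem nxt_it_flatMap (d : ℕ) (l : List Tm) : nxt^[d] l = l.flatMap fun t => nxt^[d] [t] := by
  induction l with
  | nil => simp [nxt_it_nil]
  | cons t l ih =>
    rw [← List.singleton_append, nxt_it_append, ih, List.flatMap_append]
    simp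

theorem nxt_singleton (t : Tm) : nxt [t] = args t := by simp [nxt]

theorem mem_nxt_succ {d : ℕ} {t u : Tm} :
    u ∈ nxt^[d + 1] [t] ↔ ∃ a ∈ args t, u ∈ nxt^[d] [a] := by
  rw [Function.iterate_succ_apply, nxt_singleton, nxt_it_flatMap, List.mem_flatMap]

theorem mem_args_app {f k : ℕ} {a : Fin k → Tm} {u : Tm} :
    u ∈ args (.app f k a) ↔ ∃ i, a i = u := by
  simp only [args, List.mem_ofFn]

theorem ht_lt_of_args {t a : Tm} (h : a ∈ args t) : ht a < ht t := by
  cases t with
  | var n => simp [args] at h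
  | bul => simp [args] at h
  | app f k b =>
    obtain ⟨i, rfl⟩ := mem_args_app.1 h
    simp only [ht]
    exact Nat.lt_succ_of_le (Finset.le_sup (f := fun i => ht (b i)) (Finset.mem_univ i))

theorem le_ht_of_mem {d : ℕ} {t u : Tm} (h : u ∈ nxt^[d] [t]) : d + ht u ≤ ht t := by
  induction d generalizing t with
  | zero =>
    have : u = t := by simpa using h
    rw [this]; omega
  | succ d ih =>
    obtain ⟨a, ha, h1⟩ := mem_nxt_succ.1 h
    have := ih h1
    have := ht_lt_of_args ha
    omega

/-- `u` is a subterm of `t`, at some depth. -/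
def SubT (u t : Tm) : Prop := ∃ d, u ∈ nxt^[d] [t]

theorem SubT.refl (t : Tm) : SubT t t := ⟨0, by simp⟩

theorem SubT.arg {u a t : Tm} (h : SubT u a) (ha : a ∈ args t) : SubT u t := by
  obtain ⟨d, h⟩ := h
  exact ⟨d + 1, mem_nxt_succ.2 ⟨a, ha, h⟩⟩

theorem subT_iff {u t : Tm} : SubT u t ↔ u = t ∨ ∃ a ∈ args t, SubT u a := by
  constructor
  · rintro ⟨d, h⟩
    cases d with
    | zero => exact Or.inl (by simpa using h)
    | succ d =>
      obtain ⟨a, ha, h⟩ := mem_nxt_succ.1 h
      exact Or.inr ⟨a, ha, d, h⟩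
  · rintro (rfl | ⟨a, ha, h⟩)
    · exact SubT.refl _
    · exact h.arg ha

theorem mem_subs {n : ℕ} {l : List Tm} {u : Tm} :
    u ∈ subs n l ↔ ∃ d < n, ∃ t ∈ l, u ∈ nxt^[d] [t] := by
  simp only [subs, List.mem_flatMap, List.mem_range]
  constructor
  · rintro ⟨d, hd, h⟩
    rw [nxt_it_flatMap, List.mem_flatMap] at h
    exact ⟨d, hd, h⟩
  · rintro ⟨d, hd, h⟩
    refine ⟨d, hd, ?_⟩
    rw [nxt_it_flatMap, List.mem_flatMap]
    exact h

theorem mem_subs_iff {n : ℕ} {l : List Tm} (hl : ∀ t ∈ l, ht t < n) {u : Tm} :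
    u ∈ subs n l ↔ ∃ t ∈ l, SubT u t := by
  rw [mem_subs]
  constructor
  · rintro ⟨d, _, t, ht, h⟩
    exact ⟨t, ht, d, h⟩
  · rintro ⟨t, ht, d, h⟩
    have h1 := le_ht_of_mem h
    have h2 := hl t ht
    exact ⟨d, by omega, t, ht, h⟩

theorem subT_iff_fill {u t : Tm} : SubT u t ↔ ∃ C : Cx, t = C.fill u := by
  constructor
  · rintro ⟨d, h⟩
    induction d generalizing t with
    | zero => exact ⟨.hole, by simpa [Cx.fill, eq_comm] using h⟩
    | succ d ih =>
      obtain ⟨a, ha, h⟩ := mem_nxt_succ.1 h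
      obtain ⟨C, hC⟩ := ih h
      cases t with
      | var n => simp [args] at ha
      | bul => simp [args] at ha
      | app f k b =>
        obtain ⟨i, rfl⟩ := mem_args_app.1 ha
        refine ⟨.arg f k b i C, ?_⟩
        simp only [Cx.fill]
        rw [← hC, Function.update_eq_self]
  · rintro ⟨C, rfl⟩
    induction C with
    | hole => exact SubT.refl _
    | arg f k a i C ih =>
      refine SubT.arg ih ?_
      simp only [Cx.fill]
      exact mem_args_app.2 ⟨i, by rw [Function.update_self]⟩

/-- Proper subterms are the subterms of the arguments. -/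
theorem proper_iff {u t : Tm} :
    (∃ a ∈ args t, SubT u a) ↔ ∃ C : Cx, C ≠ .hole ∧ t = C.fill u := by
  constructor
  · rintro ⟨a, ha, h⟩
    obtain ⟨C, rfl⟩ := subT_iff_fill.1 h
    cases t with
    | var n => simp [args] at ha
    | bul => simp [args] at ha
    | app f k b =>
      obtain ⟨i, hi⟩ := mem_args_app.1 ha
      refine ⟨.arg f k b i C, by simp, ?_⟩
      simp only [Cx.fill]
      rw [← hi, Function.update_eq_self]
  · rintro ⟨C, hC, rfl⟩
    cases C with
    | hole => exact absurd rfl hC
    | arg f k a i C =>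
      refine ⟨C.fill u, ?_, subT_iff_fill.2 ⟨C, rfl⟩⟩
      simp only [Cx.fill]
      exact mem_args_app.2 ⟨i, by rw [Function.update_self]⟩

/-! ### Terms without `•` -/

theorem bulFree_arg {t a : Tm} (h : t.BulFree) (ha : a ∈ args t) : a.BulFree := by
  cases t with
  | var n => simp [args] at ha
  | bul => simp [args] at ha
  | app f k b =>
    obtain ⟨i, rfl⟩ := mem_args_app.1 ha
    exact h i

theorem bulFree_sub {t u : Tm} (h : t.BulFree) (hu : SubT u t) : u.BulFree := by
  obtain ⟨d, hu⟩ := hu
  induction d generalizing t with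
  | zero =>
    have : u = t := by simpa using hu
    rwa [this]
  | succ d ih =>
    obtain ⟨a, ha, h1⟩ := mem_nxt_succ.1 hu
    exact ih (bulFree_arg h ha) h1

theorem va_iff {t : Tm} : (isVar t || isApp t) = true ↔ t ≠ .bul := by
  cases t <;> simp [isVar, isApp]

theorem bulFree_iff {t : Tm} : t.BulFree ↔ ∀ u, SubT u t → (isVar u || isApp u) = true := by
  constructor
  · intro h u hu
    have h1 := bulFree_sub h hu
    cases u with
    | var n => rfl
    | bul => exact h1.elim
    | app f k a => rfl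
  · intro h
    induction t with
    | var n => trivial
    | bul => exact absurd (h _ (SubT.refl _)) (by simp [isVar, isApp])
    | app f k a ih =>
      intro i
      refine ih i fun u hu => h u (hu.arg (mem_args_app.2 ⟨i, rfl⟩))

/-! ### Variables -/

/-- The multiset of the variables found up to depth `n`. -/
def vM (n : ℕ) (l : List Tm) : Multiset ℕ := (((subs n l).filter isVar).map name : List ℕ)

theorem subs_succ (n : ℕ) (l : List Tm) : subs (n + 1) l = l ++ subs n (nxt l) := by
  rw [subs, List.range_succ_eq_map, List.flatMap_cons, List.flatMap_map]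
  rfl

theorem subs_perm_append (n : ℕ) (l l' : List Tm) :
    List.Perm (subs n (l ++ l')) (subs n l ++ subs n l') := by
  induction n generalizing l l' with
  | zero => simp [subs]
  | succ n ih =>
    rw [subs_succ, subs_succ, subs_succ, nxt_append]
    refine ((ih (nxt l) (nxt l')).append_left (l ++ l')).trans ?_
    rw [List.append_assoc, List.append_assoc]
    refine List.Perm.append_left l ?_
    rw [← List.append_assoc, ← List.append_assoc]
    exact List.Perm.append_right _ List.perm_append_comm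

theorem vM_append (n : ℕ) (l l' : List Tm) : vM n (l ++ l') = vM n l + vM n l' := by
  have h := ((subs_perm_append n l l').filter isVar).map name
  rw [List.filter_append, List.map_append] at h
  simpa [vM] using Multiset.coe_eq_coe.2 h

theorem vM_nil (n : ℕ) : vM n [] = 0 := by
  have : subs n [] = [] := by
    simp [subs, nxt_it_nil]
  simp [vM, this]

theorem vM_list (n : ℕ) (l : List Tm) : vM n l = (l.map fun t => vM n [t]).sum := by
  induction l with
  | nil => simp [vM_nil]
  | cons t l ih =>
    rw [← List.singleton_append, vM_append, ih]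
    simp

theorem vM_succ (n : ℕ) (t : Tm) :
    vM (n + 1) [t] = (if isVar t = true then {name t} else 0) + vM n (args t) := by
  simp only [vM]
  rw [subs_succ, nxt_singleton, List.filter_append, List.map_append, ← Multiset.coe_add]
  congr 1
  by_cases h : isVar t = true
  · simp [h]
  · simp [h]

theorem vM_eq (t : Tm) : ∀ n, ht t < n → vM n [t] = t.vars := by
  induction t with
  | var m =>
    intro n hn
    obtain ⟨n, rfl⟩ := Nat.exists_eq_succ_of_ne_zero (by omega : n ≠ 0)
    rw [vM_succ]
    simp [isVar, name, args, vM_nil, Tm.vars]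
  | bul =>
    intro n hn
    obtain ⟨n, rfl⟩ := Nat.exists_eq_succ_of_ne_zero (by omega : n ≠ 0)
    rw [vM_succ]
    simp [isVar, args, vM_nil, Tm.vars]
  | app f k a ih =>
    intro n hn
    obtain ⟨n, rfl⟩ := Nat.exists_eq_succ_of_ne_zero (by omega : n ≠ 0)
    rw [vM_succ, vM_list]
    have h1 : ∀ i, vM n [a i] = (a i).vars := by
      intro i
      refine ih i n ?_
      have := ht_lt_of_args (mem_args_app.2 ⟨i, rfl⟩ : a i ∈ args (.app f k a))
      omega
    simp only [isVar, Bool.false_eq_true, if_false, zero_add, args, List.map_ofFn, Tm.vars]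
    rw [List.sum_ofFn]
    exact Finset.sum_congr rfl fun i _ => h1 i

theorem varsL_coe {n : ℕ} {t : Tm} (h : ht t < n) : ((varsL n t : List ℕ) : Multiset ℕ) = t.vars :=
  vM_eq t n h

theorem mem_varsL {n : ℕ} {t : Tm} (h : ht t < n) {v : ℕ} : v ∈ varsL n t ↔ v ∈ t.vars := by
  rw [← varsL_coe h]; rfl

/-! ### Substitutions -/

theorem mem_vars_app {f k : ℕ} {a : Fin k → Tm} {v : ℕ} :
    v ∈ (Tm.app f k a).vars ↔ ∃ i, v ∈ (a i).vars := by
  simp [Tm.vars, Multiset.mem_sum]

theorem subst_congr {t : Tm} {σ τ : ℕ → Tm} (h : ∀ v ∈ t.vars, σ v = τ v) :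
    t.subst σ = t.subst τ := by
  induction t with
  | var n => exact h n (by simp [Tm.vars])
  | bul => rfl
  | app f k a ih =>
    simp only [Tm.subst]
    congr 1
    funext i
    exact ih i fun v hv => h v (mem_vars_app.2 ⟨i, hv⟩)

theorem subst_var (t : Tm) : t.subst .var = t := by
  induction t with
  | var n => rfl
  | bul => rfl
  | app f k a ih =>
    simp only [Tm.subst]
    congr 1
    funext i
    exact ih i

theorem vars_arg_le {f k : ℕ} {a : Fin k → Tm} (i : Fin k) :
    (a i).vars ≤ (Tm.app f k a).vars := by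
  simp only [Tm.vars]
  exact Finset.single_le_sum (f := fun i => (a i).vars) (fun _ _ => Multiset.zero_le _)
    (Finset.mem_univ i)

theorem nodup_arg {f k : ℕ} {a : Fin k → Tm} (h : (Tm.app f k a).vars.Nodup) (i : Fin k) :
    (a i).vars.Nodup := Multiset.nodup_of_le (vars_arg_le i) h

theorem vars_disj {f k : ℕ} {a : Fin k → Tm} (h : (Tm.app f k a).vars.Nodup) {i j : Fin k} {v : ℕ}
    (hi : v ∈ (a i).vars) (hj : v ∈ (a j).vars) : i = j := by
  by_contra hij
  have h1 : (a i).vars + (a j).vars ≤ (Tm.app f k a).vars := by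
    simp only [Tm.vars]
    rw [← Finset.sum_pair (f := fun i => (a i).vars) hij]
    exact Finset.sum_le_sum_of_subset (Finset.subset_univ _)
  have h2 := Multiset.nodup_of_le h1 h
  rw [Multiset.nodup_add] at h2
  exact Multiset.disjoint_left.1 h2.2.2 hi hj

theorem nodup_sub {t u : Tm} (h : t.vars.Nodup) (hu : SubT u t) : u.vars.Nodup := by
  obtain ⟨d, hu⟩ := hu
  induction d generalizing t with
  | zero =>
    have : u = t := by simpa using hu
    rwa [this]
  | succ d ih =>
    obtain ⟨a, ha, h1⟩ := mem_nxt_succ.1 hu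
    refine ih ?_ h1
    cases t with
    | var n => simp [args] at ha
    | bul => simp [args] at ha
    | app f k b =>
      obtain ⟨i, rfl⟩ := mem_args_app.1 ha
      exact nodup_arg h i

/-- Substitutions for the arguments of a linear term can be combined. -/
theorem combine {f k : ℕ} {a : Fin k → Tm} (h : (Tm.app f k a).vars.Nodup)
    (σ : Fin k → ℕ → Tm) : ∃ τ : ℕ → Tm, ∀ i, (a i).subst τ = (a i).subst (σ i) := by
  classical
  refine ⟨fun v => if hv : ∃ i, v ∈ (a i).vars then σ hv.choose v else .bul, fun i => ?_⟩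
  refine subst_congr fun v hv => ?_
  have h1 : ∃ i, v ∈ (a i).vars := ⟨i, hv⟩
  rw [dif_pos h1]
  rw [vars_disj h h1.choose_spec hv]

/-! ### Unification of linear terms -/

theorem nxt2_append (l l' : List (Tm × Tm)) : nxt2 (l ++ l') = nxt2 l ++ nxt2 l' := by
  simp [nxt2]

theorem nxt2_it_append (d : ℕ) (l l' : List (Tm × Tm)) :
    nxt2^[d] (l ++ l') = nxt2^[d] l ++ nxt2^[d] l' := by
  induction d generalizing l l' with
  | zero => rfl
  | succ d ih => rw [Function.iterate_succ_apply, nxt2_append, ih]; rfl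

theorem nxt2_it_nil (d : ℕ) : nxt2^[d] [] = [] := by
  induction d with
  | zero => rfl
  | succ d ih => rw [Function.iterate_succ_apply]; exact ih

theorem nxt2_it_flatMap (d : ℕ) (l : List (Tm × Tm)) :
    nxt2^[d] l = l.flatMap fun t => nxt2^[d] [t] := by
  induction l with
  | nil => simp [nxt2_it_nil]
  | cons t l ih =>
    rw [← List.singleton_append, nxt2_it_append, ih, List.flatMap_append]
    simp

theorem mem_nxt2_succ {d : ℕ} {p q : Tm × Tm} :
    q ∈ nxt2^[d + 1] [p] ↔ ∃ r ∈ (args p.1).zip (args p.2), q ∈ nxt2^[d] [r] := by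
  rw [Function.iterate_succ_apply, nxt2_it_flatMap, List.mem_flatMap]
  simp [nxt2]

theorem compat_iff {n : ℕ} {u l : Tm} :
    compat n u l = true ↔ ∀ d < n, ∀ q ∈ nxt2^[d] [(u, l)], okHead q = true := by
  simp [compat]

theorem compat_succ {n : ℕ} {u l : Tm} :
    compat (n + 1) u l = true ↔
      okHead (u, l) = true ∧ ∀ r ∈ (args u).zip (args l), compat n r.1 r.2 = true := by
  rw [compat_iff]
  constructor
  · intro h
    refine ⟨h 0 (by omega) _ (by simp), fun r hr => ?_⟩
    rw [compat_iff]
    intro d hd q hq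
    exact h (d + 1) (by omega) q (mem_nxt2_succ.2 ⟨r, hr, hq⟩)
  · rintro ⟨h1, h2⟩ d hd q hq
    cases d with
    | zero =>
      have : q = (u, l) := by simpa using hq
      rwa [this]
    | succ d =>
      obtain ⟨r, hr, hq⟩ := mem_nxt2_succ.1 hq
      exact compat_iff.1 (h2 r hr) d (by omega) q hq

theorem mem_zip_ofFn {k : ℕ} {a b : Fin k → Tm} {r : Tm × Tm} :
    r ∈ (List.ofFn a).zip (List.ofFn b) ↔ ∃ i, r = (a i, b i) := by
  constructor
  · intro h
    obtain ⟨j, hj, h1⟩ := List.mem_iff_getElem.1 h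
    have hk : j < k := by simpa using hj
    refine ⟨⟨j, hk⟩, ?_⟩
    rw [← h1]
    simp [List.getElem_zip]
  · rintro ⟨i, rfl⟩
    refine List.mem_iff_getElem.2 ⟨i, by simp, ?_⟩
    simp [List.getElem_zip]

theorem hasSym_iff {s : ℕ × ℕ} {t : Tm} :
    hasSym s t = true ↔ ∃ a : Fin s.2 → Tm, t = .app s.1 s.2 a := by
  cases t with
  | var n => simp [hasSym, isApp]
  | bul => simp [hasSym, isApp]
  | app f k a =>
    obtain ⟨g, m⟩ := s
    simp only [hasSym, isApp, name, args, List.length_ofFn, Bool.true_and, Bool.and_eq_true,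
      decide_eq_true_eq]
    constructor
    · rintro ⟨rfl, rfl⟩
      exact ⟨a, rfl⟩
    · rintro ⟨b, h⟩
      injection h with h1 h2 h3
      exact ⟨h1, h2⟩

/-- Unifiable terms pass the test. -/
theorem compat_of_unif {n : ℕ} {u l : Tm} (hu : u.BulFree) (hl : l.BulFree) {σ τ : ℕ → Tm}
    (h : u.subst σ = l.subst τ) : compat n u l = true := by
  induction n generalizing u l with
  | zero => simp [compat]
  | succ n ih =>
    rw [compat_succ]
    cases u with
    | var m => exact ⟨by simp [okHead, isVar], by simp [args]⟩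
    | bul => exact hu.elim
    | app f k a =>
      cases l with
      | var m => exact ⟨by simp [okHead, isVar], by simp [args]⟩
      | bul => exact hl.elim
      | app g m b =>
        simp only [Tm.subst, Tm.app.injEq] at h
        obtain ⟨rfl, rfl, h3⟩ := h
        have h3 := congrFun (eq_of_heq h3)
        refine ⟨?_, ?_⟩
        · simp [okHead, isVar, hasSym, isApp, name, args]
        · intro r hr
          obtain ⟨i, rfl⟩ := mem_zip_ofFn.1 hr
          exact ih (hu i) (hl i) (h3 i)

/-- Linear terms that pass the test are unifiable. -/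
theorem unif_of_compat (u : Tm) : ∀ (n : ℕ) (l : Tm), ht u < n → u.vars.Nodup → l.vars.Nodup →
    compat n u l = true → ∃ σ τ : ℕ → Tm, u.subst σ = l.subst τ := by
  induction u with
  | var m =>
    intro n l _ _ _ _
    exact ⟨fun _ => l, .var, (subst_var l).symm⟩
  | bul =>
    intro n l hn _ _ h
    obtain ⟨n, rfl⟩ := Nat.exists_eq_succ_of_ne_zero (by omega : n ≠ 0)
    rw [compat_succ] at h
    cases l with
    | var m => exact ⟨.var, fun _ => .bul, rfl⟩
    | bul => exact ⟨.var, .var, rfl⟩
    | app g m b => simp [okHead, isVar, isApp] at h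
  | app f k a ih =>
    intro n l hn hu hl h
    obtain ⟨n, rfl⟩ := Nat.exists_eq_succ_of_ne_zero (by omega : n ≠ 0)
    rw [compat_succ] at h
    obtain ⟨h1, h2⟩ := h
    cases l with
    | var m => exact ⟨.var, fun _ => .app f k a, by simp only [subst_var]; rfl⟩
    | bul => simp [okHead, isVar, hasSym, isApp] at h1
    | app g m b =>
      have h3 : g = f ∧ m = k := by
        simpa [okHead, isVar, hasSym, isApp, name, args] using h1
      obtain ⟨rfl, rfl⟩ := h3
      have h4 : ∀ i, ∃ σ τ : ℕ → Tm, (a i).subst σ = (b i).subst τ := by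
        intro i
        refine ih i n (b i) ?_ (nodup_arg hu i) (nodup_arg hl i) ?_
        · have := ht_lt_of_args (mem_args_app.2 ⟨i, rfl⟩ : a i ∈ args (.app g m a))
          omega
        · exact h2 (a i, b i) (mem_zip_ofFn.2 ⟨i, rfl⟩)
      choose σ τ h5 using h4
      obtain ⟨σ', h6⟩ := combine hu σ
      obtain ⟨τ', h7⟩ := combine hl τ
      refine ⟨σ', τ', ?_⟩
      simp only [Tm.subst]
      congr 1
      funext i
      rw [h6, h7, h5]

/-! ### The test -/

theorem isTRSb_iff {n : ℕ} {R : Rules} (hR : HtLT n R) : isTRSb n R = true ↔ R.IsTRS := by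
  simp only [isTRSb, Rules.IsTRS, List.all_eq_true, Bool.and_eq_true, Bool.not_eq_true',
    decide_eq_true_eq]
  refine forall₂_congr fun r hr => ?_
  have h1 : ∀ t ∈ [r.1, r.2], ht t < n := by
    intro t ht
    rcases List.mem_pair.1 ht with rfl | rfl
    · exact (hR r hr).1
    · exact (hR r hr).2
  have e1 : (∀ x ∈ subs n [r.1, r.2], (isVar x || isApp x) = true) ↔
      r.1.BulFree ∧ r.2.BulFree := by
    rw [bulFree_iff, bulFree_iff]
    constructor
    · intro h
      exact ⟨fun u hu => h u ((mem_subs_iff h1).2 ⟨r.1, by simp, hu⟩),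
        fun u hu => h u ((mem_subs_iff h1).2 ⟨r.2, by simp, hu⟩)⟩
    · rintro ⟨h2, h3⟩ u hu
      obtain ⟨t, ht, hu⟩ := (mem_subs_iff h1).1 hu
      rcases List.mem_pair.1 ht with rfl | rfl
      · exact h2 u hu
      · exact h3 u hu
  have e2 : isVar r.1 = false ↔ ∀ m, r.1 ≠ .var m := by
    cases r.1 <;> simp [isVar]
  have e3 : (∀ x ∈ varsL n r.2, x ∈ varsL n r.1) ↔ ∀ m ∈ r.2.vars, m ∈ r.1.vars := by
    refine forall_congr' fun m => ?_
    rw [mem_varsL (hR r hr).1, mem_varsL (hR r hr).2]
  rw [e1, e2, e3, and_assoc]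

theorem linb_iff {n : ℕ} {R : Rules} (hR : HtLT n R) : linb n R = true ↔ R.LeftLinear := by
  simp only [linb, Rules.LeftLinear, List.all_eq_true, decide_eq_true_eq]
  refine forall₂_congr fun r hr => ?_
  rw [List.dedup_eq_self, ← varsL_coe (hR r hr).1, Multiset.coe_nodup]

theorem noOvb_iff {n : ℕ} {R : Rules} (hR : HtLT n R) (h1 : R.IsTRS) (h2 : R.LeftLinear) :
    noOvb n R = true ↔ R.NonOverlapping := by
  simp only [noOvb, Rules.NonOverlapping, List.all_eq_true, Bool.and_eq_true, Bool.or_eq_true,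
    Bool.not_eq_true', decide_eq_true_eq]
  have key : ∀ r₁ ∈ R, ∀ r₂ ∈ R, ∀ u, SubT u r₁.1 →
      (compat n u r₂.1 = false ↔ ∀ σ τ : ℕ → Tm, u.subst σ ≠ r₂.1.subst τ) := by
    intro r₁ hr₁ r₂ hr₂ u hu
    obtain ⟨d, hd⟩ := hu
    have hh := le_ht_of_mem hd
    have hh2 := (hR r₁ hr₁).1
    constructor
    · intro h σ τ h3
      have := compat_of_unif (n := n) (bulFree_sub (h1 r₁ hr₁).1 ⟨d, hd⟩) (h1 r₂ hr₂).1 h3
      rw [h] at this
      cases this
    · intro h
      by_contra h3
      obtain ⟨σ, τ, h4⟩ := unif_of_compat u n r₂.1 (by omega) (nodup_sub (h2 r₁ hr₁) ⟨d, hd⟩)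
        (h2 r₂ hr₂) (by simpa using h3)
      exact h σ τ h4
  refine forall₂_congr fun r₁ hr₁ => forall₂_congr fun r₂ hr₂ => ?_
  have ha : ∀ t ∈ args r₁.1, ht t < n := fun t ht =>
    lt_trans (ht_lt_of_args ht) (hR r₁ hr₁).1
  constructor
  · rintro ⟨h3, h4⟩ C u hC hu h5
    by_cases hh : C = .hole
    · subst hh
      have e : r₁.1 = u := hC
      subst e
      rcases h4 with h4 | h4
      · rcases h5 with h5 | h5
        · exact absurd rfl h5
        · exact absurd h4 h5
      · exact (key r₁ hr₁ r₂ hr₂ _ (SubT.refl _)).1 h4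
    · have h6 := proper_iff.2 ⟨C, hh, hC⟩
      obtain ⟨a, ha', h7⟩ := h6
      rcases h3 u ((mem_subs_iff ha).2 ⟨a, ha', h7⟩) with h8 | h8
      · exfalso
        cases u with
        | var m => exact hu m rfl
        | bul => simp [isVar] at h8
        | app f k b => simp [isVar] at h8
      · exact (key r₁ hr₁ r₂ hr₂ u (h7.arg ha')).1 h8
  · intro h
    constructor
    · intro u hu
      obtain ⟨a, ha', h7⟩ := (mem_subs_iff ha).1 hu
      obtain ⟨C, hC, hC'⟩ := proper_iff.1 ⟨a, ha', h7⟩
      by_cases hv : isVar u = true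
      · exact Or.inl hv
      · refine Or.inr ((key r₁ hr₁ r₂ hr₂ u (h7.arg ha')).2 ?_)
        refine h C u hC' (fun m hm => hv (by rw [hm]; rfl)) (Or.inl hC)
    · by_cases he : r₁ = r₂
      · exact Or.inl he
      · refine Or.inr ((key r₁ hr₁ r₂ hr₂ _ (SubT.refl _)).2 ?_)
        exact h .hole r₁.1 rfl (fun m hm => (h1 r₁ hr₁).2.2.1 m hm) (Or.inr he)

/-- **ORTH** -/
theorem stOrth : StOrth := by
  intro n R hR
  simp only [orthb, Rules.Orthogonal, Bool.and_eq_true]
  rw [isTRSb_iff hR, linb_iff hR]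
  constructor
  · rintro ⟨h1, h2, h3⟩
    exact ⟨h1, h2, (noOvb_iff hR h1 h2).1 h3⟩
  · rintro ⟨h1, h2, h3⟩
    exact ⟨h1, h2, (noOvb_iff hR h1 h2).2 h3⟩

/-! ### The height -/

theorem ht_le_code (t : Tm) : ht t ≤ t.code.length := by
  induction t with
  | var n => simp [ht]
  | bul => simp [ht]
  | app f k a ih =>
    simp only [ht, Tm.code, List.length_append, List.length_cons, List.length_flatten,
      List.length_nil]
    have h1 : (Finset.univ.sup fun i => ht (a i)) ≤
        ((List.ofFn fun j => (a j).code).map List.length).sum := by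
      refine Finset.sup_le fun i _ => (ih i).trans ?_
      exact List.single_le_sum (fun _ _ => Nat.zero_le _) _
        (List.mem_map.2 ⟨(a i).code, List.mem_ofFn.2 ⟨i, rfl⟩, rfl⟩)
    omega

/-- The height of the rules is bounded by the length of the code. -/
theorem stHt : StHt := by
  intro R r hr
  have h1 : (r.1.code ++ r.2.code).length ≤ R.code.length := by
    simp only [Rules.code, List.length_flatMap]
    exact List.single_le_sum (fun _ _ => Nat.zero_le _) _
      (List.mem_map.2 ⟨r, hr, rfl⟩)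
  rw [List.length_append] at h1
  have h2 := ht_le_code r.1
  have h3 := ht_le_code r.2
  constructor <;> omega

end

end Pool.Agent.Lib.MP_ce3b04_lc.Up
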