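import Pool.Agent.Lib.MP_ce3b04_lc.Up.PTP

/-!
# Polynomial time: the test of orthogonality
-/

open Relation Function

namespace Pool.Agent.Lib.MP_ce3b04_lc.Up

open Pool.Agent.Lib.PT Pool.Agent.Lib.MP_0b43f8_lc

noncomputable section

variable {α β γ : Type} [Enc α] [Enc β] [Enc γ]

theorem sz_nxt2 (l : List (Tm × Tm)) : sz (nxt2 l) ≤ sz l := by
  induction l with
  | nil => exact le_rfl
  | cons p l ih =>
    obtain ⟨t, u⟩ := p
    have h1 := sz_append ((args t).zip (args u)) (nxt2 l)
    have h2 := sz_zip (args t) (args u)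
    have h3 := sz_args t
    have h4 := sz_args u
    have h5 : nxt2 ((t, u) :: l) = (args t).zip (args u) ++ nxt2 l := by simp [nxt2]
    rw [h5, sz_cons, sz_mk]
    omega

theorem sz_nxt2_it (d : ℕ) (l : List (Tm × Tm)) : sz (nxt2^[d] l) ≤ sz l := by
  induction d generalizing l with
  | zero => exact le_rfl
  | succ d ih => rw [iterate_succ_apply]; exact (ih _).trans (sz_nxt2 l)

@[fun_prop] theorem pt_nxt2 {f : α → List (Tm × Tm)} (hf : PTime f) :
    PTime fun a => nxt2 (f a) := by
  unfold nxt2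
  exact PTime.flatMap (f := fun _ p => (args p.1).zip (args p.2)) hf (by fun_prop)

@[fun_prop] theorem pt_nxt2_it {n : α → ℕ} {f : α → List (Tm × Tm)} (hn : PTime n)
    (hf : PTime f) : PTime fun a => nxt2^[n a] (f a) :=
  PTime.iterate (f := fun _ l => nxt2 l) hn hf (by fun_prop) hf.sz_le
    fun a i _ => sz_nxt2_it i (f a)

@[fun_prop] theorem pt_okHead {f : α → Tm × Tm} (hf : PTime f) :
    PTime fun a => okHead (f a) := by
  unfold okHead
  fun_prop

@[fun_prop] theorem pt_compat {n : α → ℕ} {f g : α → Tm} (hn : PTime n) (hf : PTime f)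
    (hg : PTime g) : PTime fun a => compat (n a) (f a) (g a) := by
  unfold compat
  refine PTime.all (f := fun a d => (nxt2^[d] [(f a, g a)]).all okHead) hn.range ?_
  refine PTime.all (l := fun p : α × ℕ => nxt2^[p.2] [(f p.1, g p.1)])
    (f := fun _ q => okHead q) ?_ (by fun_prop)
  exact pt_nxt2_it PTime.snd
    (((hf.comp PTime.fst).pair (hg.comp PTime.fst)).cons (PTime.const []))

@[fun_prop] theorem pt_isTRSb {n : α → ℕ} {R : α → Rules} (hn : PTime n) (hR : PTime R) :
    PTime fun a => isTRSb (n a) (R a) := by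
  suffices key : PTime fun a => (R a).all fun r : Tm × Tm =>
      ((subs (n a) [r.1, r.2]).all fun u => isVar u || isApp u) &&
      (!(isVar r.1) && (varsL (n a) r.2).all fun v => decide (v ∈ varsL (n a) r.1)) by
    exact key
  refine PTime.all (f := fun a (r : Tm × Tm) =>
    ((subs (n a) [r.1, r.2]).all fun u => isVar u || isApp u) &&
    (!(isVar r.1) && (varsL (n a) r.2).all fun v => decide (v ∈ varsL (n a) r.1))) hR ?_
  have hn' : PTime fun p : α × Tm × Tm => n p.1 := hn.comp PTime.fst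
  have h1 : PTime fun p : α × Tm × Tm =>
      (subs (n p.1) [p.2.1, p.2.2]).all fun u => isVar u || isApp u :=
    PTime.all (l := fun p : α × Tm × Tm => subs (n p.1) [p.2.1, p.2.2])
      (f := fun _ u => isVar u || isApp u) (pt_subs hn' (by fun_prop)) (by fun_prop)
  have h2 : PTime fun p : α × Tm × Tm =>
      (varsL (n p.1) p.2.2).all fun v => decide (v ∈ varsL (n p.1) p.2.1) := by
    refine PTime.all (l := fun p : α × Tm × Tm => varsL (n p.1) p.2.2)
      (f := fun p v => decide (v ∈ varsL (n p.1) p.2.1)) (pt_varsL hn' (by fun_prop)) ?_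
    have hn'' : PTime fun p : (α × Tm × Tm) × ℕ => n p.1.1 :=
      hn.comp (PTime.fst.comp PTime.fst)
    exact PTime.mem (l := fun p : (α × Tm × Tm) × ℕ => varsL (n p.1.1) p.1.2.1)
      (x := fun p => p.2) (pt_varsL hn'' (by fun_prop)) (by fun_prop)
  exact h1.and ((pt_isVar (by fun_prop)).not.and h2)

@[fun_prop] theorem pt_linb {n : α → ℕ} {R : α → Rules} (hn : PTime n) (hR : PTime R) :
    PTime fun a => linb (n a) (R a) := by
  suffices key : PTime fun a => (R a).all fun r : Tm × Tm =>
      decide ((varsL (n a) r.1).dedup = varsL (n a) r.1) by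
    exact key
  refine PTime.all (f := fun a (r : Tm × Tm) =>
    decide ((varsL (n a) r.1).dedup = varsL (n a) r.1)) hR ?_
  have hn' : PTime fun p : α × Tm × Tm => n p.1 := hn.comp PTime.fst
  have h1 : PTime fun p : α × Tm × Tm => varsL (n p.1) p.2.1 := pt_varsL hn' (by fun_prop)
  exact PTime.eq (PTime.dedup h1) h1

@[fun_prop] theorem pt_noOvb {n : α → ℕ} {R : α → Rules} (hn : PTime n) (hR : PTime R) :
    PTime fun a => noOvb (n a) (R a) := by
  suffices key : PTime fun a => (R a).all fun r₁ : Tm × Tm => (R a).all fun r₂ : Tm × Tm =>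
      ((subs (n a) (args r₁.1)).all fun u => isVar u || !(compat (n a) u r₂.1)) &&
      (decide (r₁ = r₂) || !(compat (n a) r₁.1 r₂.1)) by
    exact key
  refine PTime.all (f := fun a (r₁ : Tm × Tm) => (R a).all fun r₂ : Tm × Tm =>
    ((subs (n a) (args r₁.1)).all fun u => isVar u || !(compat (n a) u r₂.1)) &&
      (decide (r₁ = r₂) || !(compat (n a) r₁.1 r₂.1))) hR ?_
  refine PTime.all (l := fun p : α × Tm × Tm => R p.1) (f := fun p (r₂ : Tm × Tm) =>
    ((subs (n p.1) (args p.2.1)).all fun u => isVar u || !(compat (n p.1) u r₂.1)) &&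
      (decide (p.2 = r₂) || !(compat (n p.1) p.2.1 r₂.1))) (hR.comp PTime.fst) ?_
  have hn' : PTime fun p : (α × Tm × Tm) × Tm × Tm => n p.1.1 :=
    hn.comp (PTime.fst.comp PTime.fst)
  have hn'' : PTime fun p : ((α × Tm × Tm) × Tm × Tm) × Tm => n p.1.1.1 :=
    hn.comp (PTime.fst.comp (PTime.fst.comp PTime.fst))
  have h1 : PTime fun p : (α × Tm × Tm) × Tm × Tm =>
      (subs (n p.1.1) (args p.1.2.1)).all fun u => isVar u || !(compat (n p.1.1) u p.2.1) :=
    PTime.all (l := fun p : (α × Tm × Tm) × Tm × Tm => subs (n p.1.1) (args p.1.2.1))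
      (f := fun p u => isVar u || !(compat (n p.1.1) u p.2.1)) (pt_subs hn' (by fun_prop))
      ((pt_isVar (by fun_prop)).or (pt_compat hn'' (by fun_prop) (by fun_prop)).not)
  have h2 : PTime fun p : (α × Tm × Tm) × Tm × Tm => decide (p.1.2 = p.2) := by fun_prop
  have h3 : PTime fun p : (α × Tm × Tm) × Tm × Tm => compat (n p.1.1) p.1.2.1 p.2.1 :=
    pt_compat hn' (by fun_prop) (by fun_prop)
  exact h1.and (h2.or h3.not)

/-- **PT1** -/
theorem stPTorth : StPTorth := by
  unfold StPTorth orthb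
  fun_prop

end

end Pool.Agent.Lib.MP_ce3b04_lc.Up
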