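import Pool.Agent.Lib.MP_ce3b04_lc.Up.Core

/-!
# Polynomial time: the primitives on terms
-/

open Relation Function

namespace Pool.Agent.Lib.MP_ce3b04_lc.Up

open Pool.Agent.Lib.PT Pool.Agent.Lib.MP_0b43f8_lc

noncomputable section

variable {α β γ : Type} [Enc α] [Enc β] [Enc γ]

/-! ### The trees -/

theorem tr_map_trTm (l : List Tm) : tr (l.map trTm) = tr l := by
  induction l with
  | nil => rfl
  | cons t l ih => rw [List.map_cons, tr_cons, tr_cons, ih]; rfl

theorem tr_var (n : ℕ) : tr (Tm.var n) = .cons .nil (tr n) := rfl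

theorem tr_bul : tr Tm.bul = .nil := rfl

theorem tr_app (f k : ℕ) (a : Fin k → Tm) :
    tr (Tm.app f k a) = .cons (.cons .nil .nil) (.cons (tr f) (tr (args (.app f k a)))) := by
  rw [← tr_map_trTm]
  show T.cons (.cons .nil .nil) (.cons (tr f) (tr (List.ofFn fun i => trTm (a i)))) = _
  congr 3
  simp only [args, List.map_ofFn]
  rfl

theorem trTm_injective (t : Tm) : ∀ t', trTm t = trTm t' → t = t' := by
  induction t with
  | var n =>
    intro t' h
    cases t' with
    | var m =>
      simp only [trTm, T.cons.injEq, true_and] at h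
      rw [EncInj.inj h]
    | bul => simp [trTm] at h
    | app f k a => simp [trTm] at h
  | bul =>
    intro t' h
    cases t' with
    | var m => simp [trTm] at h
    | bul => rfl
    | app f k a => simp [trTm] at h
  | app f k a ih =>
    intro t' h
    cases t' with
    | var m => simp [trTm] at h
    | bul => simp [trTm] at h
    | app g m b =>
      simp only [trTm, T.cons.injEq, true_and] at h
      obtain ⟨h1, h2⟩ := h
      have h1 : f = g := EncInj.inj h1
      have h2 : (List.ofFn fun i => trTm (a i)) = List.ofFn fun i => trTm (b i) := EncInj.inj h2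
      subst h1
      have h3 : k = m := by
        have := congrArg List.length h2
        simpa using this
      subst h3
      have h4 := List.ofFn_injective h2
      congr 1
      funext i
      exact ih i _ (congrFun h4 i)

instance : EncInj Tm := ⟨fun t t' h => trTm_injective t t' h⟩

instance : EncInj Tok := ⟨fun t t' h => by
  have h : tokN t = tokN t' := EncInj.inj h
  cases t <;> cases t' <;> first | rfl | simp [tokN] at h⟩

/-! ### Zip -/

namespace ZipAux

/-- One step: the rest of the second list and the list of the pairs in reverse order. -/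
def step (s : List γ × List (β × γ)) (x : β) : List γ × List (β × γ) :=
  match s.1 with
  | [] => s
  | y :: t => (t, (x, y) :: s.2)

omit [Enc β] [Enc γ] in
theorem foldl_step (l : List β) (t : List γ) (acc : List (β × γ)) :
    l.foldl step (t, acc) = (t.drop l.length, (l.zip t).reverse ++ acc) := by
  induction l generalizing t acc with
  | nil => simp
  | cons x l ih =>
    cases t with
    | nil =>
      rw [List.foldl_cons]
      have h : step (([] : List γ), acc) x = ([], acc) := rfl
      rw [h, ih]
      simp
    | cons y t =>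
      rw [List.foldl_cons]
      have h : step (y :: t, acc) x = (t, (x, y) :: acc) := rfl
      rw [h, ih]
      simp

end ZipAux

theorem sz_zip (l : List β) (t : List γ) : sz (l.zip t) ≤ sz l + sz t := by
  induction l generalizing t with
  | nil =>
    rw [List.zip_nil_left, sz_nil, sz_nil]
    omega
  | cons x l ih =>
    cases t with
    | nil =>
      rw [List.zip_nil_right, sz_nil, sz_nil]
      omega
    | cons y t =>
      have h := ih t
      rw [List.zip_cons_cons, sz_cons, sz_cons, sz_cons, sz_mk]
      omega

theorem sz_drop (n : ℕ) (t : List γ) : sz (t.drop n) ≤ sz t := by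
  have h1 := sz_append (t.take n) (t.drop n)
  rw [List.take_append_drop] at h1
  have h2 := sz_pos (t.take n)
  omega

theorem sz_prefix {l l₁ l₂ : List β} (h : l = l₁ ++ l₂) : sz l₁ ≤ sz l := by
  have h5 := sz_append l₁ l₂
  have h6 := sz_pos l₂
  rw [h]
  omega

@[fun_prop] theorem pt_zip {f : α → List β} {g : α → List γ} (hf : PTime f) (hg : PTime g) :
    PTime fun a => (f a).zip (g a) := by
  have h1 : PTime fun p : α × (List γ × List (β × γ)) × β => ZipAux.step p.2.1 p.2.2 := by
    refine PTime.listCases (l := fun p : α × (List γ × List (β × γ)) × β => p.2.1.1)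
      (f := fun p => p.2.1) (g := fun q => (q.2.2, (q.1.2.2, q.2.1) :: q.1.2.1.2))
      (by fun_prop) (by fun_prop) (by fun_prop) (fun p h => ?_) (fun p y t h => ?_)
    · unfold ZipAux.step
      rw [h]
    · unfold ZipAux.step
      rw [h]
  have hB : PB fun a => sz (g a) + (sz (f a) + sz (g a)) + 1 :=
    (hg.sz_le.add (hf.sz_le.add hg.sz_le)).add (PB.const 1)
  have h2 := PTime.foldl (l := f) (s := fun a => (g a, ([] : List (β × γ))))
    (f := fun _ s x => ZipAux.step s x) hf (by fun_prop) h1 hB (fun a l₁ l₂ e => by
      rw [ZipAux.foldl_step, List.append_nil, sz_mk, sz_reverse]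
      have a1 := sz_drop l₁.length (g a)
      have a2 := sz_zip l₁ (g a)
      have a3 : sz l₁ ≤ sz (f a) := sz_prefix e
      omega)
  refine (h2.snd'.reverse).of_eq fun a => ?_
  rw [ZipAux.foldl_step]
  simp

/-! ### Terms -/

@[fun_prop] theorem pt_isVar {f : α → Tm} (hf : PTime f) : PTime fun a => isVar (f a) := by
  have h : PTime fun x : T => x.isCons && !x.hd.isCons :=
    (PTime.isCons).and ((PTime.isCons).comp PTime.hd).not
  refine (PTime.cast (f' := isVar) h tr (fun _ => rfl) fun t => ?_).comp hf
  cases t <;> rfl

@[fun_prop] theorem pt_isApp {f : α → Tm} (hf : PTime f) : PTime fun a => isApp (f a) := by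
  have h : PTime fun x : T => x.hd.isCons := (PTime.isCons).comp PTime.hd
  refine (PTime.cast (f' := isApp) h tr (fun _ => rfl) fun t => ?_).comp hf
  cases t <;> rfl

@[fun_prop] theorem pt_name {f : α → Tm} (hf : PTime f) : PTime fun a => name (f a) := by
  have h : PTime fun x : T => bif x.hd.isCons then x.tl.hd else x.tl :=
    PTime.cond ((PTime.isCons).comp PTime.hd) (PTime.hd.comp PTime.tl) PTime.tl
  refine (PTime.cast (f' := name) h tr (fun _ => rfl) fun t => ?_).comp hf
  cases t <;> rfl

@[fun_prop] theorem pt_args {f : α → Tm} (hf : PTime f) : PTime fun a => args (f a) := by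
  have h : PTime fun x : T => bif x.hd.isCons then x.tl.tl else T.nil :=
    PTime.cond ((PTime.isCons).comp PTime.hd) (PTime.tl.comp PTime.tl) (PTime.const T.nil)
  refine (PTime.cast (f' := args) h tr (fun _ => rfl) fun t => ?_).comp hf
  cases t with
  | var n => rfl
  | bul => rfl
  | app f k a => rw [tr_app]; rfl

theorem args_mk (f : ℕ) (l : List Tm) : args (mk f l) = l := by
  simp [args, mk]

@[fun_prop] theorem pt_mk {f : α → ℕ} {g : α → List Tm} (hf : PTime f) (hg : PTime g) :
    PTime fun a => mk (f a) (g a) := by
  have h : PTime fun p : ℕ × List Tm => ((T.cons .nil .nil : T), p) := by fun_prop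
  have h1 : PTime fun p : ℕ × List Tm => mk p.1 p.2 := by
    refine PTime.cast h (fun p => p) (fun _ => rfl) fun p => ?_
    have e : tr (mk p.1 p.2) = T.cons (.cons .nil .nil) (.cons (tr p.1) (tr p.2)) := by
      conv_lhs => rw [mk, tr_app]
      have := args_mk p.1 p.2
      rw [mk] at this
      rw [this]
    rw [e]
    rfl
  exact h1.comp (hf.pair hg)

@[fun_prop] theorem pt_var {f : α → ℕ} (hf : PTime f) : PTime fun a => Tm.var (f a) := by
  have h : PTime fun n : ℕ => ((T.nil : T), n) := by fun_prop
  have h1 : PTime fun n : ℕ => Tm.var n :=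
    PTime.cast h (fun p => p) (fun _ => rfl) fun p => rfl
  exact h1.comp hf

@[fun_prop] theorem pt_hasSym {s : α → ℕ × ℕ} {f : α → Tm} (hs : PTime s) (hf : PTime f) :
    PTime fun a => hasSym (s a) (f a) := by
  unfold hasSym
  fun_prop

theorem sz_args (t : Tm) : sz (args t) ≤ sz t := by
  cases t with
  | var n => exact sz_pos (Tm.var n)
  | bul => exact sz_pos Tm.bul
  | app f k a =>
    show sz (args (.app f k a)) ≤ (tr (Tm.app f k a)).size
    rw [tr_app]
    simp only [T.size, sz]
    omega

theorem sz_nxt (l : List Tm) : sz (nxt l) ≤ sz l := by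
  induction l with
  | nil => exact le_rfl
  | cons t l ih =>
    have h1 := sz_append (args t) (nxt l)
    have h2 := sz_args t
    have h3 : nxt (t :: l) = args t ++ nxt l := by simp [nxt]
    rw [h3, sz_cons]
    omega

theorem sz_nxt_it (d : ℕ) (l : List Tm) : sz (nxt^[d] l) ≤ sz l := by
  induction d generalizing l with
  | zero => exact le_rfl
  | succ d ih => rw [iterate_succ_apply]; exact (ih _).trans (sz_nxt l)

@[fun_prop] theorem pt_nxt {f : α → List Tm} (hf : PTime f) : PTime fun a => nxt (f a) := by
  unfold nxt
  exact PTime.flatMap (f := fun _ t => args t) hf (by fun_prop)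

@[fun_prop] theorem pt_nxt_it {n : α → ℕ} {f : α → List Tm} (hn : PTime n) (hf : PTime f) :
    PTime fun a => nxt^[n a] (f a) :=
  PTime.iterate (f := fun _ l => nxt l) hn hf (by fun_prop) hf.sz_le
    fun a i _ => sz_nxt_it i (f a)

@[fun_prop] theorem pt_subs {n : α → ℕ} {f : α → List Tm} (hn : PTime n) (hf : PTime f) :
    PTime fun a => subs (n a) (f a) := by
  unfold subs
  refine PTime.flatMap (f := fun a d => nxt^[d] (f a)) hn.range ?_
  exact pt_nxt_it PTime.snd (hf.comp PTime.fst)

@[fun_prop] theorem pt_varsL {n : α → ℕ} {f : α → Tm} (hn : PTime n) (hf : PTime f) :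
    PTime fun a => varsL (n a) (f a) := by
  unfold varsL
  refine PTime.map (f := fun _ t => name t) (PTime.filter (f := fun _ t => isVar t) ?_ ?_) ?_
  · fun_prop
  · fun_prop
  · fun_prop

end

end Pool.Agent.Lib.MP_ce3b04_lc.Up
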