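import Pool.Agent.Lib.MP_ce3b04_lc.Up.PTB
import Pool.Agent.Lib.MP_ce3b04_lc.Up.PTP

/-!
# Strong sequentiality is tested in polynomial time (with the bound)
-/

namespace Pool.Agent.Lib.MP_ce3b04_lc.Up

open Pool.Agent.Lib.PT

theorem stPTss : StPTss :=
  stPTss_of
    { inj := inferInstance
      pVar := by fun_prop
      pApp := by fun_prop
      pName := by fun_prop
      pArgs := by fun_prop
      pSubs := by fun_prop }

end Pool.Agent.Lib.MP_ce3b04_lc.Up
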