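import Pool.Agent.Lib.MP_ce3b04_lc.Up.Core

/-!
# The reader runs in polynomial time
-/

namespace Pool.Agent.Lib.MP_ce3b04_lc.Up

open Pool.Agent.Lib.PT

namespace PTparse

theorem encInj_tok : EncInj Tok := ⟨fun a b h => by
  have h2 : tokN a = tokN b := EncInj.inj (α := ℕ) h
  cases a <;> cases b <;> first | rfl | (simp [tokN] at h2)⟩

theorem finite_tok : Finite Tok := inferInstance

theorem ofFn_trTm (l : List Tm) : (List.ofFn fun i => trTm (l.get i)) = l.map trTm := by
  apply List.ext_getElem
  · simp
  · intro i h1 h2
    simp

theorem tr_map_trTm (l : List Tm) : tr (l.map trTm) = tr l := by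
  induction l with
  | nil => rfl
  | cons x l ih =>
    rw [List.map_cons, tr_cons, tr_cons, ih]
    rfl

theorem tr_mkTm (f : ℕ) (l : List Tm) :
    tr (mk f l) = tr (((T.cons .nil .nil : T), (f, l)) : T × ℕ × List Tm) := by
  have e : tr (mk f l) = T.cons (T.cons .nil .nil)
      (T.cons (tr f) (tr (List.ofFn fun i => trTm (l.get i)))) := rfl
  rw [e, ofFn_trTm, tr_map_trTm]
  rfl

theorem sz_mkTm (f : ℕ) (l : List Tm) : sz (mk f l) = sz f + sz l + 5 := by
  have e : sz (mk f l) = sz (((T.cons .nil .nil : T), (f, l)) : T × ℕ × List Tm) := by
    unfold sz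
    rw [tr_mkTm]
  rw [e, sz_mk, sz_mk]
  have : sz (T.cons .nil .nil : T) = 3 := rfl
  omega

theorem ptime_mk {α : Type} [Enc α] {f : α → ℕ} {l : α → List Tm} (hf : PTime f) (hl : PTime l) :
    PTime fun a => mk (f a) (l a) :=
  PTime.cast (f := fun a => (((T.cons .nil .nil : T), (f a, l a)) : T × ℕ × List Tm))
    ((PTime.const _).pair (hf.pair hl)) (fun a => a) (fun _ => rfl) (fun a => tr_mkTm _ _)

theorem tr_varTm (n : ℕ) : tr (Tm.var n) = tr (((T.nil : T), n) : T × ℕ) := rfl

theorem sz_varTm (n : ℕ) : sz (Tm.var n) = sz n + 2 := by
  have e : sz (Tm.var n) = sz (((T.nil : T), n) : T × ℕ) := rfl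
  rw [e, sz_mk]
  have : sz (T.nil : T) = 1 := rfl
  omega

theorem ptime_var {α : Type} [Enc α] {f : α → ℕ} (hf : PTime f) :
    PTime fun a => Tm.var (f a) :=
  PTime.cast (f := fun a => (((T.nil : T), f a) : T × ℕ))
    ((PTime.const _).pair hf) (fun a => a) (fun _ => rfl) (fun a => rfl)

theorem ptime_pushT {α : Type} [Enc α] {x : α → Tm} {st : α → List (List Tm)} (hx : PTime x)
    (hst : PTime st) : PTime fun a => pushT (x a) (st a) := by
  unfold pushT
  fun_prop

theorem ptime_pstep1 (t : Tok) : PTime fun s : PS => pstep s t := by
  have h1 : PTime fun s : PS => s.1 := by fun_prop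
  have h2 : PTime fun s : PS => s.2.1 := by fun_prop
  have h3 : PTime fun s : PS => s.2.2.1 := by fun_prop
  have h4 : PTime fun s : PS => s.2.2.2 := by fun_prop
  have hf : PTime fun _ : PS => false := PTime.const false
  have ht : PTime fun _ : PS => true := PTime.const true
  have hz : PTime fun _ : PS => (0 : ℕ) := PTime.const 0
  have hp : PTime fun _ : PS => pfail := PTime.const pfail
  have hb : PTime fun _ : PS => Tm.bul := PTime.const Tm.bul
  have hn : PTime fun _ : PS => ([] : List Tm) := PTime.const []
  cases t with
  | v =>
    have h5 := ptime_pushT (ptime_var h3) h4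
    exact PTime.cond h2 (h1.pair (hf.pair (hz.pair h5))) hp
  | b =>
    have h5 := ptime_pushT hb h4
    exact PTime.cond h2 hp (h1.pair (hf.pair (hz.pair h5)))
  | f =>
    have h5 := ptime_pushT (ptime_mk h3 (h4.headD hn)) h4.tail
    exact PTime.cond (h2.and h4.tail.isEmpty.not) (h1.pair (hf.pair (hz.pair h5))) hp
  | i =>
    have h5 : PTime fun s : PS => s.2.2.1 + 1 := by fun_prop
    exact PTime.cond h2 (h1.pair (ht.pair (h5.pair h4))) hp
  | e => exact PTime.cond h2 hp (h1.pair (ht.pair (hz.pair h4)))
  | c => exact PTime.cond h2 hp (h1.pair (hf.pair (hz.pair (hn.cons h4))))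

theorem ptime_pstep : PTime fun p : List Tok × PS × Tok => pstep p.2.1 p.2.2 := by
  have := encInj_tok
  have := finite_tok
  exact PTime.finCases (g := fun p : List Tok × PS × Tok => p.2.2)
    (h := fun (p : List Tok × PS × Tok) t => pstep p.2.1 t) (by fun_prop)
    (fun t => (ptime_pstep1 t).comp (g := fun p : List Tok × PS × Tok => p.2.1) (by fun_prop))

/-- The size of the data of the reader. -/
def mu (s : PS) : ℕ := sz s.2.2.1 + sz s.2.2.2

theorem sz_le_mu (s : PS) : sz s ≤ mu s + 9 := by
  obtain ⟨a, b, n, st⟩ := s
  have h1 := sz_bool a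
  have h2 := sz_bool b
  unfold mu
  rw [sz_mk, sz_mk, sz_mk]
  simp only
  omega

theorem sz_pushT (x : Tm) (st : List (List Tm)) : sz (pushT x st) ≤ sz x + sz st + 3 := by
  unfold pushT
  cases st with
  | nil =>
    simp only [List.headD_nil, List.tail_nil, sz_cons, sz_nil]
    omega
  | cons y st =>
    simp only [List.headD_cons, List.tail_cons, sz_cons]
    omega

theorem mu_pstep (s : PS) (t : Tok) : mu (pstep s t) ≤ mu s + 10 := by
  obtain ⟨a, b, n, st⟩ := s
  have hf : mu pfail = 2 := rfl
  have hst := sz_pos st
  have h0 : sz (0 : ℕ) = 1 := rfl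
  have hn := sz_nat n
  cases t with
  | v =>
    cases b with
    | false => simp only [pstep, cond_false]; omega
    | true =>
      simp only [pstep, cond_true, mu]
      have h1 := sz_pushT (.var n) st
      rw [sz_varTm] at h1
      omega
  | b =>
    cases b with
    | true => simp only [pstep, cond_true]; omega
    | false =>
      simp only [pstep, cond_false, mu]
      have h1 := sz_pushT .bul st
      have h2 : sz Tm.bul = 1 := rfl
      omega
  | f =>
    cases b with
    | false => simp only [pstep, Bool.false_and, cond_false]; omega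
    | true =>
      cases st with
      | nil =>
        simp only [pstep, List.tail_nil, List.isEmpty_nil, Bool.not_true, Bool.and_false,
          cond_false]
        omega
      | cons x st =>
        cases st with
        | nil =>
          simp only [pstep, List.tail_cons, List.isEmpty_nil, Bool.not_true, Bool.and_false,
            cond_false]
          omega
        | cons y st =>
          simp only [pstep, List.tail_cons, List.isEmpty_cons, Bool.not_false, Bool.and_true,
            cond_true, List.headD_cons, mu]
          have h1 := sz_pushT (mk n x) (y :: st)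
          rw [sz_mkTm] at h1
          simp only [sz_cons] at h1 ⊢
          omega
  | i =>
    cases b with
    | false => simp only [pstep, cond_false]; omega
    | true =>
      simp only [pstep, cond_true, mu]
      have := sz_nat (n + 1)
      omega
  | e =>
    cases b with
    | true => simp only [pstep, cond_true]; omega
    | false =>
      simp only [pstep, cond_false, mu]
      omega
  | c =>
    cases b with
    | true => simp only [pstep, cond_true]; omega
    | false =>
      simp only [pstep, cond_false, mu, sz_cons, sz_nil]
      omega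

theorem mu_foldl (l : List Tok) (s : PS) : mu (l.foldl pstep s) ≤ mu s + 10 * l.length := by
  induction l generalizing s with
  | nil => simp
  | cons t l ih =>
    rw [List.foldl_cons, List.length_cons]
    have h1 := ih (pstep s t)
    have h2 := mu_pstep s t
    omega

theorem ptime_parse : PTime parse := by
  have hB : PB fun w : List Tok => 10 * sz w + 20 :=
    ((PB.const 10).mul PB.sz).add (PB.const 20)
  refine PTime.foldl (l := fun w : List Tok => w.reverse) (s := fun _ => (true, false, 0, [[]]))
    (f := fun _ s t => pstep s t) (by fun_prop) (PTime.const _) ptime_pstep hB ?_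
  intro w l₁ l₂ e
  show sz (l₁.foldl pstep (true, false, 0, [[]])) ≤ 10 * sz w + 20
  have h1 := mu_foldl l₁ (true, false, 0, [[]])
  have h2 : mu ((true, false, 0, [[]]) : PS) = 4 := rfl
  have h3 := sz_le_mu (l₁.foldl pstep (true, false, 0, [[]]))
  have h4 : l₁.length ≤ w.length := by
    have := congrArg List.length e
    rw [List.length_reverse, List.length_append] at this
    omega
  have h5 := length_le_sz w
  omega

theorem ptime_pairs : PTime pairs := by
  unfold pairs
  refine PTime.map (l := fun L : List Tm => (List.range L.length).filter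
    fun i => decide (2 * i + 1 < L.length))
    (f := fun L i => (L.getD (2 * i) .bul, L.getD (2 * i + 1) .bul)) ?_ (by fun_prop)
  exact PTime.filter (l := fun L : List Tm => List.range L.length)
    (f := fun L i => decide (2 * i + 1 < L.length)) (by fun_prop) (by fun_prop)

end PTparse

open PTparse

/-- The reader runs in polynomial time. -/
theorem stPTparse : StPTparse := by
  have hp := ptime_parse
  constructor
  · have h1 : PTime fun w => (parse w).1 := by fun_prop
    have h2 : PTime fun w => !(parse w).2.1 := by fun_prop
    have h3 : PTime fun w => decide ((parse w).2.2.2.length = 1) := by fun_prop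
    have h4 : PTime fun w => decide (((parse w).2.2.2.headD []).length % 2 = 0) := by fun_prop
    exact h1.and (h2.and (h3.and h4))
  · have h1 : PTime fun w => (parse w).2.2.2.headD [] := by fun_prop
    exact ptime_pairs.comp h1

end Pool.Agent.Lib.MP_ce3b04_lc.Up
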