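import Pool.Agent.Lib.MP_ce3b04_lc.Up.Core

/-!
# Reading the code of a list of rules, from right to left
-/

namespace Pool.Agent.Lib.MP_ce3b04_lc.Up

open Pool.Agent.Lib.PT Pool.Agent.Lib.MP_0b43f8_lc

/-- The list of the sides of the rules. -/
def flat (R : Rules) : List Tm := R.flatMap fun r => [r.1, r.2]

/-- The codes of a list of terms. -/
def codes (l : List Tm) : List Tok := l.flatMap Tm.code

/-- The word which has been read. -/
def stk : List (List Tm) → List Tok
  | [] => []
  | [l] => codes l
  | l :: l' :: st => codes l ++ .c :: stk (l' :: st)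

theorem code_rules_flat (R : Rules) : R.code = codes (flat R) := by
  unfold Rules.code codes flat
  rw [List.flatMap_assoc]
  congr 1
  funext r
  simp

theorem mk_ofFn (f k : ℕ) (a : Fin k → Tm) : mk f (List.ofFn a) = .app f k a := by
  have key : ∀ (l : List Tm) (hl : l.length = k), (∀ i : Fin k, l.get (i.cast hl.symm) = a i) →
      Tm.app f l.length l.get = Tm.app f k a := by
    intro l hl hget
    subst hl
    congr 1
    funext i
    exact hget i
  exact key _ List.length_ofFn (by intro i; simp)

theorem code_mk (f : ℕ) (l : List Tm) :
    (mk f l).code = .f :: codeNat f ++ (codes l ++ [.c]) := by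
  have h : (List.ofFn fun j => (l.get j).code) = l.map Tm.code := by
    have h1 : (fun j => (l.get j).code) = Tm.code ∘ l.get := rfl
    rw [h1, ← List.map_ofFn, List.ofFn_get]
  unfold mk
  simp only [Tm.code]
  rw [h, codes, List.flatMap_def]

theorem stk_push {st : List (List Tm)} (h : st ≠ []) (x : Tm) :
    stk (pushT x st) = x.code ++ stk st := by
  match st, h with
  | [l], _ => simp [pushT, stk, codes]
  | l :: l' :: st, _ => simp [pushT, stk, codes]

theorem stk_cons {st : List (List Tm)} (h : st ≠ []) (l : List Tm) :
    stk (l :: st) = codes l ++ .c :: stk st := by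
  match st, h with
  | l' :: st, _ => rfl

/-- The invariant. -/
def Inv (s : PS) (w : List Tok) : Prop :=
  s.1 = true → s.2.2.2 ≠ [] ∧
    w = (bif s.2.1 then codeNat s.2.2.1 ++ stk s.2.2.2 else stk s.2.2.2)

theorem pushT_ne (x : Tm) (st : List (List Tm)) : pushT x st ≠ [] := by
  simp [pushT]

theorem inv_step (s : PS) (w : List Tok) (h : Inv s w) (a : Tok) : Inv (pstep s a) (a :: w) := by
  obtain ⟨ok, num, n, st⟩ := s
  unfold Inv at h ⊢
  cases num
  · -- no number is being read
    simp only [cond_false] at h
    cases a
    · simp [pstep, pfail]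
    · intro h1
      simp only [pstep, cond_false] at h1 ⊢
      obtain ⟨h2, h3⟩ := h h1
      refine ⟨pushT_ne _ _, ?_⟩
      rw [stk_push h2, h3]
      simp [Tm.code]
    · simp [pstep, pfail]
    · simp [pstep, pfail]
    · intro h1
      simp only [pstep, cond_false] at h1 ⊢
      obtain ⟨h2, h3⟩ := h h1
      refine ⟨h2, ?_⟩
      rw [h3]
      simp [codeNat]
    · intro h1
      simp only [pstep, cond_false] at h1 ⊢
      obtain ⟨h2, h3⟩ := h h1
      refine ⟨by simp, ?_⟩
      rw [stk_cons h2, h3]
      simp [codes]
  · simp only [cond_true] at h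
    cases a
    · intro h1
      simp only [pstep, cond_true, cond_false] at h1 ⊢
      obtain ⟨h2, h3⟩ := h h1
      refine ⟨pushT_ne _ _, ?_⟩
      rw [stk_push h2, h3]
      simp [Tm.code]
    · simp [pstep, pfail]
    · intro h1
      match st with
      | [] => simp [pstep, pfail] at h1
      | [l] => simp [pstep, pfail] at h1
      | l :: l' :: st =>
        simp only [pstep, List.tail_cons, List.isEmpty_cons, Bool.not_false, Bool.and_self,
          cond_true, cond_false, List.headD_cons] at h1 ⊢
        obtain ⟨h2, h3⟩ := h h1
        refine ⟨pushT_ne _ _, ?_⟩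
        rw [stk_push (by simp), h3, code_mk]
        simp [stk]
    · intro h1
      simp only [pstep, cond_true] at h1 ⊢
      obtain ⟨h2, h3⟩ := h h1
      refine ⟨h2, ?_⟩
      rw [h3]
      simp [codeNat, List.replicate_succ]
    · simp [pstep, pfail]
    · simp [pstep, pfail]

theorem inv_foldl (l : List Tok) : ∀ (s : PS) (w : List Tok), Inv s w →
    Inv (l.foldl pstep s) (l.reverse ++ w) := by
  induction l with
  | nil => intro s w h; simpa using h
  | cons a l ih =>
    intro s w h
    have := ih (pstep s a) (a :: w) (inv_step s w h a)
    simpa using this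

theorem inv_parse (w : List Tok) : Inv (parse w) w := by
  have h0 : Inv ((true, false, 0, [[]]) : PS) [] := by
    unfold Inv
    simp [stk, codes]
  have := inv_foldl w.reverse _ _ h0
  simpa [parse] using this

/-! ### Reading the code of a term -/

theorem foldl_i (n : ℕ) (ok : Bool) (k : ℕ) (st : List (List Tm)) :
    (List.replicate n Tok.i).foldl pstep (ok, true, k, st) = (ok, true, k + n, st) := by
  induction n generalizing k with
  | zero => rfl
  | succ n ih =>
    rw [List.replicate_succ, List.foldl_cons]
    have h : pstep (ok, true, k, st) Tok.i = (ok, true, k + 1, st) := rfl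
    rw [h, ih]
    congr 3
    omega

theorem foldl_codeNat (n : ℕ) (ok : Bool) (k : ℕ) (st : List (List Tm)) :
    (codeNat n).reverse.foldl pstep (ok, false, k, st) = (ok, true, n, st) := by
  unfold codeNat
  rw [List.reverse_append, List.foldl_append, List.reverse_replicate]
  have h : (List.reverse [Tok.e]).foldl pstep (ok, false, k, st) = (ok, true, 0, st) := rfl
  rw [h, foldl_i, Nat.zero_add]

theorem foldl_codes (l : List Tm)
    (H : ∀ t ∈ l, ∀ (ok : Bool) (k : ℕ) (st : List (List Tm)), st ≠ [] →
      t.code.reverse.foldl pstep (ok, false, k, st) = (ok, false, 0, pushT t st))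
    (ok : Bool) (m : List Tm) (st : List (List Tm)) :
    (codes l).reverse.foldl pstep (ok, false, 0, m :: st) = (ok, false, 0, (l ++ m) :: st) := by
  induction l generalizing m with
  | nil => rfl
  | cons t l ih =>
    have h1 : codes (t :: l) = t.code ++ codes l := rfl
    rw [h1, List.reverse_append, List.foldl_append,
      ih (fun u hu => H u (List.mem_cons_of_mem _ hu)), H t List.mem_cons_self _ _ _ (by simp)]
    simp [pushT]

theorem foldl_code (t : Tm) : ∀ (ok : Bool) (k : ℕ) (st : List (List Tm)), st ≠ [] →
    t.code.reverse.foldl pstep (ok, false, k, st) = (ok, false, 0, pushT t st) := by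
  induction t with
  | var n =>
    intro ok k st _
    simp only [Tm.code, List.reverse_cons, List.foldl_append]
    rw [foldl_codeNat]
    rfl
  | bul => intro ok k st _; rfl
  | app f k a ih =>
    intro ok n st hst
    have e : Tm.app f k a = mk f (List.ofFn a) := (mk_ofFn f k a).symm
    rw [e, code_mk]
    have h1 : (Tok.f :: codeNat f ++ (codes (List.ofFn a) ++ [Tok.c])).reverse
        = [Tok.c] ++ ((codes (List.ofFn a)).reverse ++ ((codeNat f).reverse ++ [Tok.f])) := by
      simp
    rw [h1, List.foldl_append, List.foldl_append, List.foldl_append]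
    have h2 : ([Tok.c] : List Tok).foldl pstep (ok, false, n, st) = (ok, false, 0, [] :: st) := rfl
    rw [h2, foldl_codes _ ?_, foldl_codeNat, List.append_nil]
    · obtain ⟨l', st', rfl⟩ := List.exists_cons_of_ne_nil hst
      rfl
    · intro t ht ok k st hst
      rw [List.mem_ofFn] at ht
      obtain ⟨i, rfl⟩ := ht
      exact ih i ok k st hst

theorem parse_codes (l : List Tm) : parse (codes l) = (true, false, 0, [l]) := by
  unfold parse
  rw [foldl_codes l (fun t _ => foldl_code t), List.append_nil]

/-! ### Pairs -/

theorem length_flat (R : Rules) : (flat R).length = 2 * R.length := by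
  induction R with
  | nil => rfl
  | cons r R ih =>
    have h : flat (r :: R) = r.1 :: r.2 :: flat R := rfl
    rw [h, List.length_cons, List.length_cons, ih, List.length_cons]
    ring

theorem getD_flat (R : Rules) (i : ℕ) (h : i < R.length) :
    ((flat R).getD (2 * i) .bul, (flat R).getD (2 * i + 1) .bul) = R[i] := by
  induction R generalizing i with
  | nil => simp at h
  | cons r R ih =>
    have h1 : flat (r :: R) = r.1 :: r.2 :: flat R := rfl
    rw [h1]
    cases i with
    | zero => simp
    | succ i =>
      have h2 : 2 * (i + 1) = 2 * i + 1 + 1 := by ring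
      rw [h2, List.getD_cons_succ, List.getD_cons_succ, List.getD_cons_succ, List.getD_cons_succ,
        ih i (by simpa using h)]
      rfl

theorem filter_range (n : ℕ) :
    ((List.range (2 * n)).filter fun i => decide (2 * i + 1 < 2 * n)) = List.range n := by
  have h : 2 * n = n + n := by ring
  rw [h, List.range_add, List.filter_append]
  have h1 : ((List.range n).filter fun i => decide (2 * i + 1 < n + n)) = List.range n := by
    rw [List.filter_eq_self]
    intro i hi
    rw [List.mem_range] at hi
    simp only [decide_eq_true_eq]
    omega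
  have h2 : ((List.map (fun x => n + x) (List.range n)).filter
      fun i => decide (2 * i + 1 < n + n)) = [] := by
    rw [List.filter_eq_nil_iff]
    intro i hi
    rw [List.mem_map] at hi
    obtain ⟨j, _, rfl⟩ := hi
    simp only [decide_eq_true_eq]
    omega
  rw [h1, h2, List.append_nil]

theorem pairs_flat (R : Rules) : pairs (flat R) = R := by
  unfold pairs
  rw [length_flat, filter_range]
  apply List.ext_getElem
  · simp
  · intro i h1 h2
    rw [List.getElem_map, List.getElem_range]
    exact getD_flat R i h2

theorem exists_flat (n : ℕ) : ∀ L : List Tm, L.length = 2 * n → ∃ R : Rules, flat R = L := by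
  induction n with
  | zero =>
    intro L h
    have hL : L = [] := List.length_eq_zero_iff.1 (by simpa using h)
    exact ⟨[], by rw [hL]; rfl⟩
  | succ n ih =>
    intro L h
    match L, h with
    | [], h => simp at h
    | [x], h => simp at h; omega
    | x :: y :: L, h =>
      obtain ⟨R, hR⟩ := ih L (by simp at h; omega)
      exact ⟨(x, y) :: R, by rw [← hR]; rfl⟩

theorem stParse : StParse := by
  constructor
  · intro w hw
    unfold wellb at hw
    simp only [Bool.and_eq_true, Bool.not_eq_true', decide_eq_true_eq] at hw
    obtain ⟨h1, h2, h3, h4⟩ := hw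
    obtain ⟨_, h5⟩ := inv_parse w h1
    rw [h2, cond_false] at h5
    unfold rulesOf
    obtain ⟨l, hl⟩ := List.length_eq_one_iff.1 h3
    rw [hl] at h4 h5 ⊢
    simp only [List.headD_cons] at h4 ⊢
    obtain ⟨R, hR⟩ := exists_flat (l.length / 2) l (by omega)
    rw [← hR, pairs_flat, code_rules_flat, h5, hR]
    rfl
  · intro R
    have h : parse R.code = (true, false, 0, [flat R]) := by
      rw [code_rules_flat, parse_codes]
    constructor
    · unfold wellb
      rw [h]
      simp [length_flat]
    · unfold rulesOf
      rw [h]
      exact pairs_flat R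

end Pool.Agent.Lib.MP_ce3b04_lc.Up
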