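import Pool.Agent.Lib.MP_ce3b04_lc.Up.Core
import Pool.Agent.Lib.MP_0b43f8_lc.Clos
import Pool.Agent.Lib.MP_0b43f8_lc.TM

/-!
# Strong sequentiality is decidable in exponential time: the algorithm is correct and fast
-/

namespace Pool.Agent.Lib.MP_ce3b04_lc.Up

open Pool.Agent.Lib.PT Pool.Agent.Lib.MP_0b43f8_lc Turing

noncomputable section

/-! ### Correctness -/

theorem ssb_iff (hS : StSem) (hC : StCountU) {n N : ℕ} {R : Rules} (hR : R.Orthogonal)
    (hH : HtLT n R) (hn : n = R.code.length + 1) (hN : 2 ^ (n + 2) ^ 3 ≤ N) :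
    ssb n N R = true ↔ R.StronglySequential := by
  obtain ⟨h1, L, h2, h3⟩ := hC n N R hn hN
  have h4 := hS n N R hR hH h1
  have h5 := stClos St (initU (cxOf n N R)) (unU (cxOf n N R)) (binU (cxOf n N R)) N L h3 h2
  unfold ssb
  rw [Bool.not_eq_true', Bool.eq_false_iff, ne_eq, List.any_eq_true]
  constructor
  · intro h
    by_contra h6
    obtain ⟨x, h7, h8⟩ := h4.2 h6
    exact h ⟨x, (h5 x).2 h7, h8⟩
  · rintro h ⟨x, h7, h8⟩
    exact h4.1 ⟨x, (h5 x).1 h7, h8⟩ h

theorem stSolveU (hP : StParse) (hO : StOrth) (hH : StHt) (hS : StSem) (hC : StCountU) :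
    StSolveU := by
  have key : ∀ (R : Rules) (N : ℕ), 2 ^ (R.code.length + 3) ^ 3 ≤ N →
      ((orthb (R.code.length + 1) R && ssb (R.code.length + 1) N R) = true ↔
        R.Orthogonal ∧ R.StronglySequential) := by
    intro R N hN
    rw [Bool.and_eq_true, hO _ R (hH R)]
    constructor
    · rintro ⟨h1, h2⟩
      exact ⟨h1, (ssb_iff hS hC h1 (hH R) rfl hN).1 h2⟩
    · rintro ⟨h1, h2⟩
      exact ⟨h1, (ssb_iff hS hC h1 (hH R) rfl hN).2 h2⟩
  intro w N hN
  unfold solveU
  rw [Bool.and_eq_true]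
  constructor
  · rintro ⟨h1, h2⟩
    have h3 := hP.1 w h1
    rw [← h3] at hN
    have h4 := (key (rulesOf w) N hN).1
    rw [h3] at h4
    obtain ⟨h5, h6⟩ := h4 h2
    exact ⟨rulesOf w, h5, h6, h3.symm⟩
  · rintro ⟨R, h1, h2, rfl⟩
    obtain ⟨h3, h4⟩ := hP.2 R
    rw [h4]
    exact ⟨h3, (key R N hN).2 ⟨h1, h2⟩⟩

/-! ### The running time -/

theorem stPTsolve (h1 : StPTorth) (h2 : StPTparse) (h3 : StPTss) : StPTsolve := by
  obtain ⟨h4, h5⟩ := h2
  have h6 : PTime fun p : List Tok × ℕ => wellb p.1 :=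
    h4.comp (g := fun p : List Tok × ℕ => p.1) (by fun_prop)
  have h7 : PTime fun p : List Tok × ℕ => rulesOf p.1 :=
    h5.comp (g := fun p : List Tok × ℕ => p.1) (by fun_prop)
  have h8 : PTime fun p : List Tok × ℕ => p.1.length + 1 := by fun_prop
  have h9 : PTime fun p : List Tok × ℕ => orthb (p.1.length + 1) (rulesOf p.1) :=
    PTime.comp (f := fun p : ℕ × Rules => orthb p.1 p.2)
      (g := fun p : List Tok × ℕ => (p.1.length + 1, rulesOf p.1)) h1 (h8.pair h7)
  have h10 : PTime fun p : List Tok × ℕ => ssb (p.1.length + 1) p.2 (rulesOf p.1) :=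
    PTime.comp (f := fun p : (ℕ × ℕ) × Rules => ssb p.1.1 p.1.2 p.2)
      (g := fun p : List Tok × ℕ => ((p.1.length + 1, p.2), rulesOf p.1)) h3
      ((h8.pair (by fun_prop)).pair h7)
  unfold StPTsolve solveU
  exact h6.and (h9.and h10)

theorem tr_tok (a : Tok) : tr a = tr (tokN a) := rfl

theorem sz_tok (a : Tok) : sz a ≤ 11 := by
  have h : sz a = sz (tokN a) := rfl
  rw [h, sz_nat]
  cases a <;> simp [tokN]

theorem sz_word (w : List Tok) : sz w ≤ w.length * 12 + 1 :=
  sz_le_of_forall (B := 11) fun x _ => sz_tok x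

/-- The exponent of the bound. -/
def expoU (w : List Tok) : ℕ := (w.length + 3) ^ 3

/-- The algorithm. -/
def algW (w : List Tok) : Bool := solveU w (2 ^ expoU w)

/-- The bound for the running time. -/
def gW (w : List Tok) : ℕ := 2 * expoU w + (2 * 2 + (2 * 2 ^ expoU w + sz w)) + 6

theorem ptime_expoU : PTime expoU := by
  have h : PTime fun w : List Tok => w.length + 3 := by fun_prop
  refine ((h.mul h).mul h).of_eq fun w => ?_
  unfold expoU
  ring

theorem tb_algW (h : StPTsolve) : TB gW fun w => [algW w] := by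
  have hsz : ∀ w, sz w ≤ gW w := fun w => by unfold gW; omega
  have h1 : TB gW fun w => (2 ^ expoU w, w) :=
    TB.pow (e := expoU) (b := fun _ => 2) (s := fun w : List Tok => w) ptime_expoU
      (PTime.const 2) (by fun_prop) hsz (fun w => by omega) (fun w => by unfold gW; omega)
  have h2 : PTime fun q : ℕ × List Tok => [solveU q.2 q.1] := by
    have h3 : PTime fun q : ℕ × List Tok => solveU q.2 q.1 :=
      PTime.comp (f := fun p : List Tok × ℕ => solveU p.1 p.2)
        (g := fun q : ℕ × List Tok => (q.2, q.1)) h (by fun_prop)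
    exact PTime.cons h3 (PTime.const [])
  exact TB.comp h2 h1 hsz

/-- The bound in terms of the length. -/
def bW (n : ℕ) : ℕ := 2 * (n + 3) ^ 3 + (2 * 2 + (2 * 2 ^ (n + 3) ^ 3 + (n * 12 + 1))) + 6

theorem gW_le (w : List Tok) : gW w ≤ bW w.length := by
  have := sz_word w
  unfold gW bW expoU
  omega

theorem bW_le (n : ℕ) : bW n ≤ 2 ^ ((n + 3) ^ 3 + 4) := by
  unfold bW
  have h0 : n + 3 ≤ (n + 3) ^ 3 := Nat.le_self_pow (by omega) _
  have h27 : 27 ≤ (n + 3) ^ 3 := by
    calc 27 = 3 ^ 3 := by norm_num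
      _ ≤ (n + 3) ^ 3 := Nat.pow_le_pow_left (by omega) 3
  set E := (n + 3) ^ 3 with hE
  have h1 : E < 2 ^ E := Nat.lt_two_pow_self
  have h2 : 2 ^ (E + 4) = 2 ^ E * 16 := by rw [pow_add]; norm_num
  rw [h2]
  omega

theorem stInEXP (hs : StSolveU) (hp : StPTsolve) : StInEXP := by
  classical
  obtain ⟨M, p, hM⟩ := tb_tm tr_bool_injective (f := fun w => [algW w]) (g := gW)
    (fun w => by unfold gW; omega) (tb_algW hp)
  obtain ⟨d, hd⟩ := poly_le_pow p
  have h1 : ∀ w : List Tok, Outputs M w [algW w] (p.eval (bW w.length)) := fun w =>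
    (hM w).mono (eval_mono p (gW_le w))
  refine ⟨algW, ⟨⟨M.tm, M.inputAlphabet, M.outputAlphabet⟩, fun n => p.eval (bW n),
    fun w => (h1 w).some⟩, ((Polynomial.X + 3) ^ 3 + 4) * Polynomial.C d, fun w => ?_,
    fun n => ?_⟩
  · exact hs w _ le_rfl
  · have h2 : 2 ≤ bW n := by unfold bW; omega
    refine (hd _ h2).trans ?_
    refine (Nat.pow_le_pow_left (bW_le n) d).trans ?_
    rw [← pow_mul]
    refine Nat.pow_le_pow_right (by omega) (le_of_eq ?_)
    simp

end

end Pool.Agent.Lib.MP_ce3b04_lc.Up
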