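import Pool.Agent.Lib.MP_ce3b04_lc.Up.Core
import Pool.Agent.Lib.MP_ce3b04_lc.Sim

/-!
# Functions computable by Turing machines in polynomial time are polynomial time functions
-/

open Turing Turing.TM2 Function

namespace Pool.Agent.Lib.MP_ce3b04_lc.Up

open Pool.Agent.Lib.PT

/-! ### Encodings of finite types -/

/-- The encoding of a finite type. -/
@[instance_reducible]
noncomputable def encFin (α : Type) [Finite α] : Enc α :=
  ⟨fun a => tr ((Finite.equivFin α a : Fin (Nat.card α)) : ℕ)⟩

theorem encInj_encFin (α : Type) [Finite α] : @EncInj α (encFin α) :=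
  @EncInj.mk α (encFin α) fun a b h => by
    have h1 : ((Finite.equivFin α a : Fin (Nat.card α)) : ℕ) = (Finite.equivFin α b : ℕ) :=
      EncInj.inj (α := ℕ) h
    exact (Finite.equivFin α).injective (Fin.ext h1)

/-! ### Polynomials -/

theorem ptime_powConst {α : Type} [Enc α] {f : α → ℕ} (hf : PTime f) (n : ℕ) :
    PTime fun a => f a ^ n := by
  induction n with
  | zero => simpa using PTime.const 1
  | succ n ih => simpa only [pow_succ] using ih.mul hf

theorem ptime_eval {α : Type} [Enc α] {f : α → ℕ} (hf : PTime f) (p : Polynomial ℕ) :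
    PTime fun a => p.eval (f a) := by
  induction p using Polynomial.induction_on' with
  | add p q hp hq => simpa only [Polynomial.eval_add] using hp.add hq
  | monomial n c =>
    simpa only [Polynomial.eval_monomial] using (PTime.const c).mul (ptime_powConst hf n)

/-! ### Machines with several stacks -/

section step

variable (M : SM) [Fintype M.K] [Enc M.Q] [EncInj M.Q] [Enc M.G] [EncInj M.G]

theorem ptime_step : PTime M.step := by
  have h1 : ∀ k, PTime fun c : M.Q × (M.K → List M.G) => c.2 k := fun k =>
    PTime.app (f := fun c : M.Q × (M.K → List M.G) => c.2) (by fun_prop) k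
  have h2 : PTime fun c : M.Q × (M.K → List M.G) => fun k => (c.2 k).head? :=
    PTime.pi fun k => (h1 k).headOpt
  have h3 : PTime fun c : M.Q × (M.K → List M.G) => (c.1, fun k => (c.2 k).head?) :=
    PTime.pair (by fun_prop) h2
  have h4 : PTime fun c : M.Q × (M.K → List M.G) => M.δ c.1 (fun k => (c.2 k).head?) :=
    PTime.ofFinite h3 fun b : M.Q × (M.K → Option M.G) => M.δ b.1 b.2
  refine h4.pair (PTime.pi fun k => ?_)
  refine PTime.finCases (g := fun c : M.Q × (M.K → List M.G) => (c.1, fun k => (c.2 k).head?))
    (h := fun c b => (M.act b.1 b.2 k).run (c.2 k)) h3 fun b => ?_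
  rcases M.act b.1 b.2 k with _ | _ | g
  · exact h1 k
  · exact (h1 k).tail
  · exact (PTime.const g).cons (h1 k)

omit [Fintype M.K] [Enc M.Q] [EncInj M.Q] [Enc M.G] [EncInj M.G] in
theorem conf_eq_iterate (w : List M.G) (t : ℕ) : M.conf w t = M.step^[t] (M.conf w 0) := by
  induction t with
  | zero => rfl
  | succ t ih => rw [iterate_succ_apply', ← ih]; rfl

omit [Fintype M.K] [Enc M.Q] [EncInj M.Q] [Enc M.G] [EncInj M.G] in
theorem length_conf (w : List M.G) (t : ℕ) (k : M.K) :
    ((M.conf w t).2 k).length ≤ w.length + t := by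
  induction t with
  | zero =>
    by_cases hk : k = M.k₀
    · rw [show (M.conf w 0).2 k = w from if_pos hk]
      exact Nat.le_add_right _ _
    · rw [show (M.conf w 0).2 k = [] from if_neg hk]
      exact Nat.zero_le _
  | succ t ih =>
    show ((M.act (M.conf w t).1 (fun k => ((M.conf w t).2 k).head?) k).run
      ((M.conf w t).2 k)).length ≤ _
    rcases M.act (M.conf w t).1 (fun k => ((M.conf w t).2 k).head?) k with _ | _ | g
    · exact ih.trans (by omega)
    · simp only [Act.run, List.length_tail]
      omega
    · simp only [Act.run, List.length_cons]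
      omega

/-- The configurations of a machine with several stacks are computable in polynomial time. -/
theorem ptime_conf {α : Type} [Enc α] {w : α → List M.G} {n : α → ℕ} (hw : PTime w)
    (hn : PTime n) : PTime fun a => M.conf (w a) (n a) := by
  obtain ⟨MG, hMG⟩ := exists_sz_le M.G
  obtain ⟨MQ, hMQ⟩ := exists_sz_le M.Q
  have hs : PTime fun a => M.conf (w a) 0 := by
    refine (PTime.const M.q₀).pair (PTime.pi fun k => ?_)
    by_cases hk : k = M.k₀
    · simpa only [if_pos hk] using hw
    · simpa only [if_neg hk] using PTime.const []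
  have hlen : PTime fun a => (w a).length + n a := (hw.length).add hn
  have hlen' : PB fun a => (w a).length + n a :=
    hlen.sz_le.mono fun a => by rw [sz_nat]; omega
  refine (PTime.iterate (n := n) (s := fun a => M.conf (w a) 0) (f := fun _ c => M.step c)
    hn hs ((ptime_step M).comp PTime.snd)
    (B := fun a => MQ + ((elts M.K).length * ((((w a).length + n a) * (MG + 1) + 1) + 1) + 1)
      + 1) ?_ ?_).of_eq fun a => (conf_eq_iterate M (w a) (n a)).symm
  · exact ((PB.const MQ).add (((PB.const _).mul (((hlen'.mul (PB.const _)).add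
      (PB.const 1)).add (PB.const 1))).add (PB.const 1))).add (PB.const 1)
  · intro a i hi
    rw [← conf_eq_iterate]
    have h1 : sz (M.conf (w a) i) = sz (M.conf (w a) i).1 + sz (M.conf (w a) i).2 + 1 := rfl
    have h2 : sz (M.conf (w a) i).2 = sz ((elts M.K).map (M.conf (w a) i).2) := rfl
    rw [h1, h2]
    have h3 := sz_le_of_forall (l := (elts M.K).map (M.conf (w a) i).2)
      (B := ((w a).length + n a) * (MG + 1) + 1) ?_
    · rw [List.length_map] at h3
      have := hMQ (M.conf (w a) i).1
      omega
    · intro x hx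
      obtain ⟨k, -, rfl⟩ := List.mem_map.1 hx
      have h4 := sz_le_of_forall (l := (M.conf (w a) i).2 k) (B := MG) fun x _ => hMG x
      have h5 := length_conf M (w a) i k
      have h6 : ((M.conf (w a) i).2 k).length * (MG + 1) ≤ ((w a).length + n a) * (MG + 1) :=
        Nat.mul_le_mul_right _ (by omega)
      omega

end step

/-! ### Turing machines -/

/-- The output stack of a Turing machine. -/
theorem output_list (tm : FinTM2) (b : ℕ) (hb : ∀ l, height (tm.m l) ≤ b)
    (l : List (tm.Γ tm.k₀)) (l' : List (tm.Γ tm.k₁)) (n : ℕ)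
    (h : TM2OutputsInTime tm l (some l') n) (T : ℕ) (hT : b * n ≤ T) :
    ((mstep tm.m)^[T] (tm.m tm.main, tm.initialState,
      fun k => if h : k = tm.k₀ then h ▸ l else [])).2.2 tm.k₁ = l' := by
  have h1 := h.evals_in_steps
  obtain ⟨n', h2, h3⟩ := mstep_iterate tm.m b hb h.steps (initList tm l) (haltList tm l') h1
  have h4 : toMC tm.m (initList tm l) = (tm.m tm.main, tm.initialState,
      fun k => if h : k = tm.k₀ then h ▸ l else []) := by
    simp only [toMC, initList, Prod.mk.injEq, true_and]
    funext k
    by_cases hk : k = tm.k₀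
    · subst hk
      simp
    · simp [hk]
  have h5 : n' ≤ T := h2.trans ((Nat.mul_le_mul_left b h.steps_le_m).trans hT)
  obtain ⟨d, rfl⟩ := Nat.exists_eq_add_of_le h5
  rw [Nat.add_comm, Function.iterate_add_apply, ← h4, h3]
  simp only [toMC, haltList]
  rw [mstep_halt]
  simp

/-- Reading a stack. -/
theorem RelS.filterMap {K : Type} [DecidableEq K] {Γ : K → Type} {P : Set (Σ k, Γ k)} {k : K}
    {S' : List P} {S : List (Γ k)} (h : RelS k S' S) :
    S'.flatMap (fun x => (unS k (some x)).toList) = S := by
  induction S generalizing S' with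
  | nil =>
    cases S' with
    | nil => rfl
    | cons x S' => simp [RelS] at h
  | cons a S ih =>
    cases S' with
    | nil => simp [RelS] at h
    | cons x S' =>
      have h1 : RelS k S' S := by
        simp only [RelS, List.map_cons, List.cons.injEq] at h
        exact h.2
      have h2 := h.head
      rw [List.flatMap_cons, ih h1]
      simp only [List.head?_cons] at h2
      rw [h2]
      rfl

theorem flatMap_map {α β γ : Type} (s : α → Option β) (g : β → γ) (l : List α) :
    l.flatMap (fun x => ((s x).map g).toList) = (l.flatMap fun x => (s x).toList).map g := by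
  induction l with
  | nil => rfl
  | cons x l ih =>
    rw [List.flatMap_cons, List.flatMap_cons, ih, List.map_append]
    congr 1
    cases s x <;> rfl

/-- TMPT -/
theorem stTMPT : StTMPT := by
  classical
  intro A B Γ Δ _ _ _ _ _ _ ea eb f ⟨C⟩
  have _ := C.tm.kFin
  have _ := C.tm.ΛFin
  have _ := C.tm.σFin
  have _ := C.tm.Γk₀Fin
  by_cases hΔ : IsEmpty Δ
  · refine ⟨fun _ => [], PTime.const _, fun a => ?_⟩
    cases h : eb (f a) with
    | nil => rfl
    | cons x l => exact (hΔ.false x).elim
  obtain ⟨d⟩ := not_isEmpty_iff.1 hΔ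
  obtain ⟨b, hb⟩ : ∃ b, ∀ l, height (C.tm.m l) ≤ b :=
    ⟨Finset.univ.sup fun l => height (C.tm.m l), fun l =>
      Finset.le_sup (f := fun l => height (C.tm.m l)) (Finset.mem_univ l)⟩
  let x₁ : Σ k, C.tm.Γ k := ⟨C.tm.k₁, C.outputAlphabet.symm d⟩
  let M : SM := smOf C.tm.m C.tm.main C.tm.initialState C.tm.k₀ x₁
  let _ : Fintype M.K := Fintype.ofFinite _
  let _ : Enc M.Q := encFin _
  have _ : EncInj M.Q := encInj_encFin _
  let _ : Enc M.G := encFin _
  have _ : EncInj M.G := encInj_encFin _
  let u : M.G → List Δ := fun x => ((unS (P := syset C.tm.m C.tm.k₀ x₁) C.tm.k₁ (some x)).map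
    C.outputAlphabet).toList
  let v : Γ → M.G := fun g => ⟨⟨C.tm.k₀, C.inputAlphabet.symm g⟩, Or.inl ⟨_, rfl⟩⟩
  refine ⟨fun w => ((M.conf (w.map v) (b * C.time.eval w.length)).2 C.tm.k₁).flatMap u, ?_, ?_⟩
  · have hv : PTime fun w : List Γ => w.map v :=
      PTime.map (f := fun _ x => v x) PTime.id ((PTime.finite v).comp PTime.snd)
    have hn : PTime fun w : List Γ => b * C.time.eval w.length :=
      (PTime.const b).mul (ptime_eval PTime.id.length _)
    refine PTime.flatMap (f := fun _ x => u x) ?_ ((PTime.finite u).comp PTime.snd)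
    exact PTime.app (f := fun w : List Γ => (M.conf (w.map v) (b * C.time.eval w.length)).2)
      ((ptime_conf M hv hn).snd') C.tm.k₁
  · intro a
    have h1 := output_list C.tm b hb _ _ _ (C.outputsFun a) _ le_rfl
    have h2 := (rel_conf C.tm.m C.tm.main C.tm.initialState C.tm.k₀ x₁
      ((ea a).map C.inputAlphabet.invFun) (b * C.time.eval (ea a).length)).2.2 C.tm.k₁
    rw [h1] at h2
    have h3 := RelS.filterMap h2
    have h4 : ∀ l : List Γ, inOf C.tm.m C.tm.main C.tm.initialState C.tm.k₀ x₁
        (l.map C.inputAlphabet.invFun) = l.map v := by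
      intro l
      induction l with
      | nil => rfl
      | cons x l ih => exact congrArg (List.cons (v x)) ih
    rw [h4] at h3
    refine (flatMap_map _ _ _).trans ((congrArg (List.map C.outputAlphabet) h3).trans ?_)
    rw [List.map_map]
    exact (List.map_congr_left fun x _ => C.outputAlphabet.apply_symm_apply x).trans
      (List.map_id _)

end Pool.Agent.Lib.MP_ce3b04_lc.Up
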