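import Pool.Agent.Lib.MP_ce3b04_lc.Up.Core

/-!
# The algorithm for terms without variables, statements of the modules
-/

namespace Pool.Agent.Lib.MP_ce3b04_lc.Up

open Pool.Agent.Lib.PT Pool.Agent.Lib.MP_0b43f8_lc

noncomputable section

/-- Redexes, and terms none of whose arguments is known. -/
def initG (c : Cx4) : List St :=
  (bif c.1.isEmpty then [] else ((subl c.2.2.2 c.2.1).filter fun G => G.any isVar).map fun G =>
    (none, G, [(c.2.1.filter isVar, c.2.1, [])], true)) ++
  c.2.2.1.flatMap fun s => (subl c.2.2.2 c.2.1).map fun G => (some s, G, [], false)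

/-- The states that are reached. -/
abbrev GenG (c : Cx4) : St → Prop := Gen (initG c) (unU c) (binU c)

/-- The states of normal forms. -/
def goodU (x : St) : Bool := !(x.1.isSome) && (x.2.1.isEmpty && !(x.2.2.2))

/-- The test of strong sequentiality for terms without variables. -/
def ssbG (n N : ℕ) (R : Rules) : Bool :=
  !((closG (initG (cxOf n N R)) (unU (cxOf n N R)) (binU (cxOf n N R)) N).any badU &&
    (closG (initG (cxOf n N R)) (unU (cxOf n N R)) (binU (cxOf n N R)) N).any goodU)

/-- SEMG -/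
def StSemG : Prop := ∀ (n N : ℕ) (R : Rules), R.Orthogonal → HtLT n R →
  2 ^ (pats n R).length ≤ N →
  (((∃ x, GenG (cxOf n N R) x ∧ badU x = true) ∧ ∃ x, GenG (cxOf n N R) x ∧ goodU x = true) ↔
    ¬ R.StronglySequentialG)

/-- **The algorithm**, for a word and a bound. -/
def solveG (w : List Tok) (N : ℕ) : Bool :=
  wellb w && (orthb (w.length + 1) (rulesOf w) && ssbG (w.length + 1) N (rulesOf w))

/-- The language SS-ORTH for terms without variables. -/
def SSOrthG : Set (List Tok) := {w | ∃ R : Rules, R.Orthogonal ∧ R.StronglySequentialG ∧ w = R.code}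

/-- SOLVEG -/
def StSolveG : Prop := ∀ w N, 2 ^ (w.length + 3) ^ 3 ≤ N → (solveG w N = true ↔ w ∈ SSOrthG)

/-- PTG1 -/
def StPTssG : Prop := PTime fun p : (ℕ × ℕ) × Rules => ssbG p.1.1 p.1.2 p.2

/-- PTG2 -/
def StPTsolveG : Prop := PTime fun p : List Tok × ℕ => solveG p.1 p.2

/-- EXPG -/
def StInEXPG : Prop := InEXP SSOrthG

end

end Pool.Agent.Lib.MP_ce3b04_lc.Up
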