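import Pool.Agent.Lib.MP_ce3b04_lc.Raw
import Pool.Agent.Lib.MP_0b43f8_lc.Core
import Pool.Agent.Lib.PTime.Fin
import Pool.Agent.Lib.PTime.Time
import Pool.Agent.Lib.CookLevin.NP

/-!
# Strong sequentiality is decidable in exponential time: the algorithm, statements of the modules

The algorithm works on terms and lists of terms.  `pats` are the proper subterms of the left-hand
sides (the patterns).  A term `t` is described by the patterns of which it is an instance (`mset`),
by the patterns whose instances can be reached from it by arbitrary reduction (`qset`) and by a set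
`G` of patterns such that every redex of `t` can be erased, if it is known that the context of `t`
erases `t` as soon as an instance of a pattern in `G` is reached.
-/

open Relation

namespace Pool.Agent.Lib.MP_ce3b04_lc.Up

open Pool.Agent.Lib.PT Pool.Agent.Lib.MP_0b43f8_lc

noncomputable section

/-! ### Terms as trees -/

/-- The tree of a term. -/
def trTm : Tm → T
  | .var n => .cons .nil (tr n)
  | .bul => .nil
  | .app f _ a => .cons (.cons .nil .nil) (.cons (tr f) (tr (List.ofFn fun i => trTm (a i))))

instance : Enc Tm := ⟨trTm⟩

instance : DecidableEq Tm := Classical.decEq _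

/-- The number of a letter. -/
def tokN : Tok → ℕ
  | .v => 0
  | .b => 1
  | .f => 2
  | .i => 3
  | .e => 4
  | .c => 5

instance : Enc Tok := ⟨fun a => tr (tokN a)⟩

/-- Is it a variable? -/
def isVar : Tm → Bool
  | .var _ => true
  | _ => false

/-- Is it an application? -/
def isApp : Tm → Bool
  | .app _ _ _ => true
  | _ => false

/-- The number of a variable, the name of a function symbol. -/
def name : Tm → ℕ
  | .var n => n
  | .bul => 0
  | .app f _ _ => f

/-- The list of the arguments. -/
def args : Tm → List Tm
  | .app _ _ a => List.ofFn a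
  | _ => []

/-- The application of `f` to a list of arguments. -/
def mk (f : ℕ) (l : List Tm) : Tm := .app f l.length l.get

/-- The root of `t` is the function symbol `s`. -/
def hasSym (s : ℕ × ℕ) (t : Tm) : Bool :=
  isApp t && (decide (name t = s.1) && decide ((args t).length = s.2))

/-- The height of a term. -/
def ht : Tm → ℕ
  | .var _ => 0
  | .bul => 0
  | .app _ _ a => (Finset.univ.sup fun i => ht (a i)) + 1

/-- All rules have height less than `n`. -/
def HtLT (n : ℕ) (R : Rules) : Prop := ∀ r ∈ R, ht r.1 < n ∧ ht r.2 < n

/-- The next level. -/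
def nxt (l : List Tm) : List Tm := l.flatMap args

/-- The subterms of the terms of a list (depth less than `n`), with multiplicity. -/
def subs (n : ℕ) (l : List Tm) : List Tm := (List.range n).flatMap fun d => nxt^[d] l

/-! ### Orthogonality -/

/-- The variables of a term, with multiplicity. -/
def varsL (n : ℕ) (t : Tm) : List ℕ := ((subs n [t]).filter isVar).map name

/-- The next level of pairs. -/
def nxt2 (l : List (Tm × Tm)) : List (Tm × Tm) := l.flatMap fun p => (args p.1).zip (args p.2)

/-- No clash at the root. -/
def okHead (p : Tm × Tm) : Bool :=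
  isVar p.1 || (isVar p.2 || (isApp p.1 && hasSym (name p.1, (args p.1).length) p.2))

/-- Unifiability of linear terms without common variables. -/
def compat (n : ℕ) (u l : Tm) : Bool := (List.range n).all fun d => (nxt2^[d] [(u, l)]).all okHead

/-- The first test. -/
def isTRSb (n : ℕ) (R : Rules) : Bool :=
  R.all fun r => ((subs n [r.1, r.2]).all fun u => isVar u || isApp u) &&
    (!(isVar r.1) && (varsL n r.2).all fun v => decide (v ∈ varsL n r.1))

/-- The test of left-linearity. -/
def linb (n : ℕ) (R : Rules) : Bool := R.all fun r => decide ((varsL n r.1).dedup = varsL n r.1)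

/-- The test of overlaps. -/
def noOvb (n : ℕ) (R : Rules) : Bool :=
  R.all fun r₁ => R.all fun r₂ =>
    ((subs n (args r₁.1)).all fun u => isVar u || !(compat n u r₂.1)) &&
      (decide (r₁ = r₂) || !(compat n r₁.1 r₂.1))

/-- The test of orthogonality. -/
def orthb (n : ℕ) (R : Rules) : Bool := isTRSb n R && (linb n R && noOvb n R)

/-- ORTH -/
def StOrth : Prop := ∀ (n : ℕ) (R : Rules), HtLT n R → (orthb n R = true ↔ R.Orthogonal)

/-! ### Reading the rules, from right to left -/

/-- The state of the reader: no error so far, a number is being read, the number, the stack of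
unfinished lists of terms. -/
abbrev PS : Type := Bool × Bool × ℕ × List (List Tm)

/-- Add a term to the list on the top. -/
def pushT (x : Tm) (st : List (List Tm)) : List (List Tm) := (x :: st.headD []) :: st.tail

/-- The error. -/
def pfail : PS := (false, false, 0, [])

/-- One step of the reader. -/
def pstep (s : PS) : Tok → PS
  | .c => bif s.2.1 then pfail else (s.1, false, 0, [] :: s.2.2.2)
  | .b => bif s.2.1 then pfail else (s.1, false, 0, pushT .bul s.2.2.2)
  | .e => bif s.2.1 then pfail else (s.1, true, 0, s.2.2.2)
  | .i => bif s.2.1 then (s.1, true, s.2.2.1 + 1, s.2.2.2) else pfail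
  | .v => bif s.2.1 then (s.1, false, 0, pushT (.var s.2.2.1) s.2.2.2) else pfail
  | .f => bif s.2.1 && !(s.2.2.2.tail.isEmpty) then
      (s.1, false, 0, pushT (mk s.2.2.1 (s.2.2.2.headD [])) s.2.2.2.tail) else pfail

/-- The state after the word. -/
def parse (w : List Tok) : PS := w.reverse.foldl pstep (true, false, 0, [[]])

/-- The rules with the given sides. -/
def pairs (L : List Tm) : Rules :=
  ((List.range L.length).filter fun i => decide (2 * i + 1 < L.length)).map
    fun i => (L.getD (2 * i) .bul, L.getD (2 * i + 1) .bul)

/-- Is the word the code of a list of rules? -/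
def wellb (w : List Tok) : Bool :=
  (parse w).1 && (!(parse w).2.1 && (decide ((parse w).2.2.2.length = 1) &&
    decide (((parse w).2.2.2.headD []).length % 2 = 0)))

/-- The rules coded by the word. -/
def rulesOf (w : List Tok) : Rules := pairs ((parse w).2.2.2.headD [])

/-- PARSE -/
def StParse : Prop := (∀ w, wellb w = true → (rulesOf w).code = w) ∧
  ∀ R : Rules, wellb R.code = true ∧ rulesOf R.code = R

/-! ### The states -/

/-- The left-hand sides. -/
def lhss (R : Rules) : List Tm := R.map Prod.fst

/-- The patterns: the proper subterms of the left-hand sides. -/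
def pats (n : ℕ) (R : Rules) : List Tm := subs n ((lhss R).flatMap args)

/-- The function symbols. -/
def symsL (n : ℕ) (R : Rules) : List (ℕ × ℕ) :=
  ((subs n (R.flatMap fun r => [r.1, r.2])).filter isApp).map fun t => (name t, (args t).length)

/-- The sublists of a list, as far as there are at most `N` of them. -/
def subl (N : ℕ) (P : List Tm) : List (List Tm) :=
  P.reverse.foldl (fun acc p => (acc ++ acc.map (p :: ·)).take N) [[]]

/-- The data of an argument: the patterns of which it is an instance, the patterns whose instances
are reachable, the patterns that suffice for the erasure. -/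
abbrev Tr3 : Type := List Tm × List Tm × List Tm

/-- States. `(none, G, [(m, q, _)], h)`: a term `t` with the sets `m`, `q` all whose redexes are
erased if `G` is given; `h` implies that it contains a redex. `(some s, G, L, h)`: the data of the
first arguments of a term with root `s`. -/
abbrev St : Type := Option (ℕ × ℕ) × List Tm × List Tr3 × Bool

/-- The terms `l_j`, with `j ≠ i`, belong to the sets `X_j`. -/
def argsIn (l : List Tm) (X : List (List Tm)) (i : ℕ) : Bool :=
  (List.range l.length).all fun j => decide (j = i) || decide (l.getD j .bul ∈ X.getD j [])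

/-- The patterns of a term with root `s`, given the sets of the arguments. -/
def mset (P : List Tm) (s : ℕ × ℕ) (X : List (List Tm)) : List Tm :=
  P.filter fun p => isVar p || (hasSym s p && argsIn (args p) X s.2)

/-- Does a left-hand side match? -/
def redexb (LA : List Tm) (s : ℕ × ℕ) (X : List (List Tm)) : Bool :=
  LA.any fun l => hasSym s l && argsIn (args l) X s.2

/-- The reachable patterns of a term with root `s`. -/
def qset (LA P : List Tm) (s : ℕ × ℕ) (X : List (List Tm)) : List Tm :=
  bif redexb LA s X then P else mset P s X

/-- The patterns that suffice for the erasure of the `i`-th argument. -/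
def gset (LA P : List Tm) (s : ℕ × ℕ) (G : List Tm) (X : List (List Tm)) (i : ℕ) : List Tm :=
  bif G.any isVar then P else P.filter fun p => (LA ++ G).any fun r =>
    hasSym s r && (decide ((args r).getD i .bul = p) && argsIn (args r) X i)

/-- The context: left-hand sides, patterns, function symbols, bound. -/
abbrev Cx4 : Type := List Tm × List Tm × List (ℕ × ℕ) × ℕ

/-- The context of a list of rules. -/
def cxOf (n N : ℕ) (R : Rules) : Cx4 := (lhss R, pats n R, symsL n R, N)

/-- Variables, redexes, and terms none of whose arguments is known. -/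
def initU (c : Cx4) : List St :=
  ((subl c.2.2.2 c.2.1).map fun G =>
    (none, G, [(c.2.1.filter isVar, c.2.1.filter isVar, [])], false)) ++
  ((bif c.1.isEmpty then [] else ((subl c.2.2.2 c.2.1).filter fun G => G.any isVar).map fun G =>
    (none, G, [(c.2.1.filter isVar, c.2.1, [])], true)) ++
  c.2.2.1.flatMap fun s => (subl c.2.2.2 c.2.1).map fun G => (some s, G, [], false))

/-- All arguments are known, and the term is not a redex. -/
def unU (c : Cx4) (x : St) : List St :=
  match x.1 with
  | none => []
  | some s => bif decide (x.2.2.1.length = s.2) &&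
      (!(redexb c.1 s (x.2.2.1.map fun y => y.1)) && (List.range s.2).all fun i =>
        decide ((x.2.2.1.getD i ([], [], [])).2.2 =
          gset c.1 c.2.1 s x.2.1 (x.2.2.1.map fun y => y.2.1) i)) then
      [(none, x.2.1, [(mset c.2.1 s (x.2.2.1.map fun y => y.1),
        qset c.1 c.2.1 s (x.2.2.1.map fun y => y.2.1), [])], x.2.2.2)] else []

/-- The next argument. -/
def binU (_c : Cx4) (x y : St) : List St :=
  match x.1 with
  | none => []
  | some s => bif !(y.1.isSome) && decide (x.2.2.1.length < s.2) then
      [(some s, x.2.1, x.2.2.1 ++ [((y.2.2.1.headD ([], [], [])).1,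
        (y.2.2.1.headD ([], [], [])).2.1, y.2.1)], x.2.2.2 || y.2.2.2)] else []

/-- The states that are reached. -/
abbrev GenU (c : Cx4) : St → Prop := Gen (initU c) (unU c) (binU c)

/-- The final states. -/
def badU (x : St) : Bool := !(x.1.isSome) && (x.2.1.isEmpty && x.2.2.2)

instance : DecidableEq St := Classical.decEq _

/-- The test of strong sequentiality. -/
def ssb (n N : ℕ) (R : Rules) : Bool :=
  !((closG (initU (cxOf n N R)) (unU (cxOf n N R)) (binU (cxOf n N R)) N).any badU)

/-- SEM -/
def StSem : Prop := ∀ (n N : ℕ) (R : Rules), R.Orthogonal → HtLT n R →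
  2 ^ (pats n R).length ≤ N →
  ((∃ x, GenU (cxOf n N R) x ∧ badU x = true) ↔ ¬ R.StronglySequential)

/-- COUNT: the number of states. -/
def StCountU : Prop := ∀ (n N : ℕ) (R : Rules), n = R.code.length + 1 → 2 ^ (n + 2) ^ 3 ≤ N →
  2 ^ (pats n R).length ≤ N ∧
  ∃ L : List St, L.length ≤ N ∧ ∀ x, GenU (cxOf n N R) x → x ∈ L

/-- The height of the rules is bounded by the length of the code. -/
def StHt : Prop := ∀ R : Rules, HtLT (R.code.length + 1) R

/-! ### The algorithm -/

/-- **The algorithm**, for a word and a bound. -/
def solveU (w : List Tok) (N : ℕ) : Bool :=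
  wellb w && (orthb (w.length + 1) (rulesOf w) && ssb (w.length + 1) N (rulesOf w))

/-- The language SS-ORTH: the codes of the strongly sequential orthogonal rewriting systems. -/
def SSOrth : Set (List Tok) := {w | ∃ R : Rules, R.Orthogonal ∧ R.StronglySequential ∧ w = R.code}

/-- SOLVE -/
def StSolveU : Prop := ∀ w N, 2 ^ (w.length + 3) ^ 3 ≤ N → (solveU w N = true ↔ w ∈ SSOrth)

/-- PT -/
def StPTsolve : Prop := PTime fun p : List Tok × ℕ => solveU p.1 p.2

/-- PT1 -/
def StPTorth : Prop := PTime fun p : ℕ × Rules => orthb p.1 p.2

/-- PT2 -/
def StPTparse : Prop := PTime wellb ∧ PTime rulesOf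

/-- PT3 -/
def StPTss : Prop := PTime fun p : (ℕ × ℕ) × Rules => ssb p.1.1 p.1.2 p.2

/-- EXP -/
def StInEXP : Prop := InEXP SSOrth

/-! ### Turing machines -/

/-- Functions computable by Turing machines in polynomial time are polynomial time functions. -/
def StTMPT : Prop := ∀ (A B Γ Δ : Type) [Enc Γ] [Enc Δ] [EncInj Γ] [EncInj Δ] [Fintype Γ]
  [Fintype Δ] (ea : A → List Γ) (eb : B → List Δ) (f : A → B),
  Nonempty (Turing.TM2ComputableInPolyTime ea eb f) →
  ∃ F : List Γ → List Δ, PTime F ∧ ∀ a, F (ea a) = eb (f a)

/-- The class NP is closed under reductions computable in polynomial time. -/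
def StNPred : Prop := ∀ (Γ Δ : Type) [Fintype Γ] [Fintype Δ] (L : Set (List Γ)) (L' : Set (List Δ))
  (f : List Γ → List Δ), Nonempty (Turing.TM2ComputableInPolyTime (id : List Γ → List Γ)
    (id : List Δ → List Δ) f) → (∀ x, x ∈ L ↔ f x ∈ L') → CookLevin.InNP L' → CookLevin.InNP L

/-- NP is contained in EXPTIME. -/
def StNPEXP : Prop := ∀ (Γ : Type) [Fintype Γ] (L : Set (List Γ)), CookLevin.InNP L → InEXP L

end

end Pool.Agent.Lib.MP_ce3b04_lc.Up
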