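import Pool.Agent.Lib.MP_ce3b04_lc.Up.CoreG
import Pool.Agent.Lib.MP_ce3b04_lc.Up.PTS
import Pool.Agent.Lib.MP_ce3b04_lc.Up.PTA
import Pool.Agent.Lib.MP_ce3b04_lc.Up.PTparse

/-!
# Terms without variables: the test runs in polynomial time (with the bound)
-/

namespace Pool.Agent.Lib.MP_ce3b04_lc.Up

open Pool.Agent.Lib.PT Pool.Agent.Lib.MP_0b43f8_lc

namespace PTG

open PTBaux

theorem prims : Prims :=
  { inj := inferInstance
    pVar := by fun_prop
    pApp := by fun_prop
    pName := by fun_prop
    pArgs := by fun_prop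
    pSubs := by fun_prop }

theorem pt_initG (h : Prims) : PTime initG := by
  unfold initG
  have hP : PTime fun c : Cx4 => c.2.1 := by fun_prop
  have hS : PTime fun c : Cx4 => subl c.2.2.2 c.2.1 := pt_subl (by fun_prop) hP
  have hV : PTime fun c : Cx4 => c.2.1.filter isVar :=
    PTime.filter (f := fun _ t => isVar t) hP (h.pVar.comp PTime.snd)
  refine PTime.append ?_ ?_
  · refine PTime.cond (by fun_prop) (PTime.const []) ?_
    have h1 : PTime fun c : Cx4 => (subl c.2.2.2 c.2.1).filter fun G => G.any isVar := by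
      refine PTime.filter (f := fun _ G => G.any isVar) hS ?_
      exact PTime.any (f := fun _ t => isVar t) PTime.snd (h.pVar.comp PTime.snd)
    refine PTime.map h1 ?_
    have e : PTime fun z : Cx4 × List Tm => z.1.2.1.filter isVar := hV.comp PTime.fst
    fun_prop
  · refine PTime.flatMap (f := fun (c : Cx4) s => (subl c.2.2.2 c.2.1).map fun G =>
      ((some s, G, [], false) : St)) (by fun_prop) ?_
    refine PTime.map (l := fun z : Cx4 × (ℕ × ℕ) => subl z.1.2.2.2 z.1.2.1)
      (f := fun (z : Cx4 × (ℕ × ℕ)) G => ((some z.2, G, [], false) : St))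
      (hS.comp PTime.fst) (by fun_prop)

/-- The list of one round. -/
noncomputable def rndG (x : Cx4 × List St) : List St :=
  x.2 ++ (initG x.1 ++ (x.2.flatMap (unU x.1) ++ x.2.flatMap fun s => x.2.flatMap (binU x.1 s)))

theorem pt_rndG (h : Prims) : PTime rndG := by
  have e1 : PTime fun x : Cx4 × List St => initG x.1 := (pt_initG h).comp PTime.fst
  have e2 : PTime fun x : Cx4 × List St => x.2.flatMap (unU x.1) := by
    refine PTime.flatMap (f := fun (x : Cx4 × List St) s => unU x.1 s) (by fun_prop) ?_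
    exact (pt_unU h).comp (g := fun y : (Cx4 × List St) × St => (y.1.1, y.2)) (by fun_prop)
  have e3 : PTime fun x : Cx4 × List St =>
      x.2.flatMap fun s => x.2.flatMap (binU x.1 s) := by
    refine PTime.flatMap (f := fun (x : Cx4 × List St) s => x.2.flatMap (binU x.1 s))
      (by fun_prop) ?_
    refine PTime.flatMap (l := fun y : (Cx4 × List St) × St => y.1.2)
      (f := fun (y : (Cx4 × List St) × St) t => binU y.1.1 y.2 t) (by fun_prop) ?_
    exact pt_binU.comp (g := fun z : ((Cx4 × List St) × St) × St =>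
      (z.1.1.1, z.1.2, z.2)) (by fun_prop)
  exact PTime.append (by fun_prop) (PTime.append e1 (PTime.append e2 e3))

/-- One step. -/
noncomputable def stpG (c : Cx4) : List St → List St :=
  stepG (initG c) (unU c) (binU c) c.2.2.2

theorem stpG_eq (c : Cx4) (S : List St) : stpG c S =
    bif decide ((rndG (c, S)).dedup.length ≤ c.2.2.2) then (rndG (c, S)).dedup else S := rfl

theorem pt_stpG (h : Prims) : PTime fun x : Cx4 × List St => stpG x.1 x.2 := by
  have := h.inj
  have e := PTime.dedup (pt_rndG h)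
  have e1 : PTime fun x : Cx4 × List St => decide ((rndG x).dedup.length ≤ x.1.2.2.2) := by
    have e2 := e.length
    fun_prop
  exact PTime.cond e1 e (by fun_prop)

theorem isU_rndG (c : Cx4) (S : List St) (h : ∀ s ∈ S, IsU c s) :
    ∀ s ∈ rndG (c, S), IsU c s := by
  intro s hs
  unfold rndG at hs
  rw [List.mem_append, List.mem_append, List.mem_append] at hs
  rcases hs with hs | hs | hs | hs
  · exact h s hs
  · exact isU_init (List.mem_append_right _ hs)
  · rw [List.mem_flatMap] at hs
    obtain ⟨t, ht, hs⟩ := hs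
    exact isU_un (h t ht) hs
  · rw [List.mem_flatMap] at hs
    obtain ⟨t, ht, hs⟩ := hs
    rw [List.mem_flatMap] at hs
    obtain ⟨t', ht', hs⟩ := hs
    exact isU_bin (h t ht) (h t' ht') hs

theorem stpG_inv (c : Cx4) (i : ℕ) : ((stpG c)^[i] []).length ≤ c.2.2.2 ∧
    ∀ s ∈ (stpG c)^[i] [], IsU c s := by
  induction i with
  | zero => exact ⟨Nat.zero_le _, fun s hs => absurd hs List.not_mem_nil⟩
  | succ i ih =>
    rw [Function.iterate_succ_apply', stpG_eq]
    set S := (stpG c)^[i] [] with hS
    by_cases h : (rndG (c, S)).dedup.length ≤ c.2.2.2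
    · rw [decide_eq_true h, cond_true]
      refine ⟨h, fun s hs => ?_⟩
      rw [List.mem_dedup] at hs
      exact isU_rndG c S ih.2 s hs
    · rw [decide_eq_false h, cond_false]
      exact ih

/-- The closure. -/
noncomputable def cloG (c : Cx4) : List St := closG (initG c) (unU c) (binU c) c.2.2.2

theorem pt_cloG (h : Prims) : PTime cloG := by
  have hN : PTime fun c : Cx4 => c.2.2.2 := by fun_prop
  have hB : PB fun c : Cx4 => c.2.2.2 * (bnd c + 1) + 1 :=
    ((pb_val hN).mul (pb_bnd.add (PB.const 1))).add (PB.const 1)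
  refine PTime.iterate (n := fun c : Cx4 => c.2.2.2) (s := fun _ => ([] : List St))
    (f := fun c S => stpG c S) hN (PTime.const _) (pt_stpG h) hB ?_
  intro c i _
  obtain ⟨h5, h6⟩ := stpG_inv c i
  refine (sz_le_of_forall (B := bnd c) fun s hs => sz_isU (h6 s hs)).trans ?_
  exact Nat.add_le_add_right (Nat.mul_le_mul_right _ h5) 1

end PTG

open PTG PTBaux in
/-- The test of strong sequentiality for terms without variables. -/
theorem stPTssG : StPTssG := by
  have h := prims
  have h1 : PTime fun p : (ℕ × ℕ) × Rules => cloG (cxOf p.1.1 p.1.2 p.2) :=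
    (pt_cloG h).comp (pt_cxOf h (n := fun p : (ℕ × ℕ) × Rules => p.1.1)
      (N := fun p => p.1.2) (R := fun p => p.2) (by fun_prop) (by fun_prop) (by fun_prop))
  have h2 : PTime fun p : (ℕ × ℕ) × Rules => (cloG (cxOf p.1.1 p.1.2 p.2)).any badU := by
    refine PTime.any (f := fun (_ : (ℕ × ℕ) × Rules) x => badU x) h1 ?_
    unfold badU
    fun_prop
  have h3 : PTime fun p : (ℕ × ℕ) × Rules => (cloG (cxOf p.1.1 p.1.2 p.2)).any goodU := by
    refine PTime.any (f := fun (_ : (ℕ × ℕ) × Rules) x => goodU x) h1 ?_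
    unfold goodU
    fun_prop
  exact (h2.and h3).not

/-- The algorithm for terms without variables runs in polynomial time (with the bound). -/
theorem stPTsolveG : StPTsolveG := by
  obtain ⟨h4, h5⟩ := stPTparse
  have hw : PTime fun p : List Tok × ℕ => p.1 := by fun_prop
  have hN : PTime fun p : List Tok × ℕ => p.2 := by fun_prop
  have h6 : PTime fun p : List Tok × ℕ => wellb p.1 := h4.comp hw
  have h7 : PTime fun p : List Tok × ℕ => rulesOf p.1 := h5.comp hw
  have h8 : PTime fun p : List Tok × ℕ => p.1.length + 1 := by fun_prop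
  have h9 : PTime fun p : List Tok × ℕ => orthb (p.1.length + 1) (rulesOf p.1) :=
    PTime.comp (f := fun p : ℕ × Rules => orthb p.1 p.2)
      (g := fun p : List Tok × ℕ => (p.1.length + 1, rulesOf p.1)) stPTorth (h8.pair h7)
  have h10 : PTime fun p : List Tok × ℕ => ssbG (p.1.length + 1) p.2 (rulesOf p.1) :=
    PTime.comp (f := fun p : (ℕ × ℕ) × Rules => ssbG p.1.1 p.1.2 p.2)
      (g := fun p : List Tok × ℕ => ((p.1.length + 1, p.2), rulesOf p.1)) stPTssG
      ((h8.pair hN).pair h7)
  exact h6.and (h9.and h10)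

end Pool.Agent.Lib.MP_ce3b04_lc.Up
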