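import Pool.Agent.Lib.MP_ce3b04_lc.Up.Sem

/-!
# Module SEM: the states describe the terms all whose redexes can be erased, continued
-/

open Relation

namespace Pool.Agent.Lib.MP_ce3b04_lc.Up

open Pool.Agent.Lib.PT Pool.Agent.Lib.MP_0b43f8_lc

namespace Sem

/-! ### Sublists -/

theorem subl_nil (N : ℕ) : subl N [] = [[]] := rfl

theorem subl_cons (N : ℕ) (p : Tm) (P : List Tm) :
    subl N (p :: P) = (subl N P ++ (subl N P).map (p :: ·)).take N := by
  unfold subl
  rw [List.reverse_cons, List.foldl_append]
  rfl

theorem subl_sublist {N : ℕ} {P G : List Tm} (h : G ∈ subl N P) : G.Sublist P := by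
  induction P generalizing G with
  | nil =>
    rw [subl_nil, List.mem_singleton] at h
    rw [h]
  | cons p P ih =>
    rw [subl_cons] at h
    have h1 := List.mem_of_mem_take h
    rw [List.mem_append, List.mem_map] at h1
    rcases h1 with h1 | ⟨G', h1, rfl⟩
    · exact (ih h1).cons p
    · exact (ih h1).cons_cons p

theorem length_subl_le (N : ℕ) (P : List Tm) : (subl N P).length ≤ 2 ^ P.length := by
  induction P with
  | nil => simp [subl_nil]
  | cons p P ih =>
    rw [subl_cons, List.length_take, List.length_append, List.length_map, List.length_cons,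
      pow_succ]
    omega

theorem mem_subl {N : ℕ} {P G : List Tm} (hN : 2 ^ P.length ≤ N) (h : G.Sublist P) :
    G ∈ subl N P := by
  induction P generalizing G with
  | nil =>
    rw [subl_nil, List.mem_singleton]
    exact List.sublist_nil.1 h
  | cons p P ih =>
    have h1 := length_subl_le N P
    rw [List.length_cons, pow_succ] at hN
    have h2 : 2 ^ P.length ≤ N := by omega
    rw [subl_cons, List.take_of_length_le (by
      rw [List.length_append, List.length_map]; omega), List.mem_append, List.mem_map]
    rcases List.sublist_cons_iff.1 h with h3 | ⟨G', hG', h3⟩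
    · exact Or.inl (ih h2 h3)
    · exact Or.inr ⟨G', ih h2 h3, hG'.symm⟩

/-! ### Symbols -/

theorem syms_fill (C : Cx) (x : Tm) : x.syms ⊆ (C.fill x).syms := by
  induction C with
  | hole => exact fun s h => h
  | arg f k a i C ih =>
    intro s hs
    refine Or.inr ⟨i, ?_⟩
    rw [Function.update_self]
    exact ih hs

theorem symsL_sub {n : ℕ} {R : Rules} {s : ℕ × ℕ} (h : s ∈ symsL n R) : s ∈ R.Sig := by
  unfold symsL at h
  rw [List.mem_map] at h
  obtain ⟨x, hx, rfl⟩ := h
  rw [List.mem_filter] at hx
  obtain ⟨hx, ha⟩ := hx
  obtain ⟨d, -, hd⟩ := mem_subs.1 hx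
  obtain ⟨t, ht', C, rfl⟩ := level_sub d x hd
  rw [List.mem_flatMap] at ht'
  obtain ⟨r, hr, ht'⟩ := ht'
  have h1 : (name x, (args x).length) ∈ (C.fill x).syms := by
    refine syms_fill C x ?_
    cases x with
    | var n => simp [isApp] at ha
    | bul => simp [isApp] at ha
    | app f k a =>
      left
      simp only [name, args, List.length_ofFn]
  refine ⟨r, hr, ?_⟩
  simp only [List.mem_cons, List.not_mem_nil, or_false] at ht'
  rcases ht' with h2 | h2
  · exact Or.inl (by rw [← h2]; exact h1)
  · exact Or.inr (by rw [← h2]; exact h1)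

theorem exists_sym {n : ℕ} {L : List Tm} (hL : ∀ t ∈ L, ht t < n) {s : ℕ × ℕ} (t : Tm)
    (ht' : t ∈ subs n L) (hs : s ∈ t.syms) :
    ∃ x ∈ subs n L, isApp x = true ∧ (name x, (args x).length) = s := by
  induction t with
  | var n => exact hs.elim
  | bul => exact hs.elim
  | app f k a ih =>
    rcases hs with rfl | ⟨i, hs⟩
    · exact ⟨_, ht', rfl, by simp only [name, args, List.length_ofFn]⟩
    · exact ih i (subs_closed hL ht' (mem_args i)) hs

theorem mem_symsL {n : ℕ} {R : Rules} (hn : HtLT n R) {s : ℕ × ℕ} (h : s ∈ R.Sig) :
    s ∈ symsL n R := by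
  obtain ⟨r, hr, h⟩ := h
  have h0 : ∀ t ∈ R.flatMap fun r => [r.1, r.2], ht t < n := by
    intro t ht'
    rw [List.mem_flatMap] at ht'
    obtain ⟨r, hr, ht'⟩ := ht'
    simp only [List.mem_cons, List.not_mem_nil, or_false] at ht'
    rcases ht' with rfl | rfl
    · exact (hn r hr).1
    · exact (hn r hr).2
  have h1 : ∃ t ∈ subs n (R.flatMap fun r => [r.1, r.2]), s ∈ t.syms := by
    rcases h with h | h
    · refine ⟨r.1, subs_self (by have := (hn r hr).1; omega) ?_, h⟩
      exact List.mem_flatMap.2 ⟨r, hr, by simp⟩
    · refine ⟨r.2, subs_self (by have := (hn r hr).1; omega) ?_, h⟩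
      exact List.mem_flatMap.2 ⟨r, hr, by simp⟩
  obtain ⟨t, ht', h⟩ := h1
  obtain ⟨x, hx, h2, h3⟩ := exists_sym h0 t ht' h
  unfold symsL
  exact List.mem_map.2 ⟨x, List.mem_filter.2 ⟨hx, h2⟩, h3⟩

section

variable {R : Rules} {P : List Tm} (hP : PatOK R P) (hT : R.IsTRS) (hL : R.LeftLinear)
  (hNO : R.NonOverlapping)

/-! ### Variables and redexes -/

include hP hT

theorem mS_var (n : ℕ) : mS P (.var n) = P.filter isVar := by
  classical
  unfold mS
  refine List.filter_congr fun p hp => ?_
  cases p with
  | var m =>
    simp only [isVar, decide_eq_true_eq]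
    exact inst_var _ m
  | bul => exact absurd (hP.bulFree hT hp) (fun h => h)
  | app g l b =>
    simp only [isVar, decide_eq_false_iff_not]
    rintro ⟨σ, h⟩
    simp [Tm.subst] at h

theorem qS_var (n : ℕ) : qS R P (.var n) = P.filter isVar := by
  classical
  unfold qS
  refine List.filter_congr fun p hp => ?_
  cases p with
  | var m =>
    simp only [isVar, decide_eq_true_eq]
    exact reach_var _ m
  | bul => exact absurd (hP.bulFree hT hp) (fun h => h)
  | app g l b =>
    simp only [isVar, decide_eq_false_iff_not]
    rintro ⟨σ, h⟩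
    have := steps_var hT h
    simp [Tm.subst] at this

include hNO

theorem mS_redex {t : Tm} (ht' : R.IsRedex t) : mS P t = P.filter isVar := by
  classical
  unfold mS
  refine List.filter_congr fun p hp => ?_
  cases hv : isVar p with
  | true =>
    rw [decide_eq_true_eq]
    cases p with
    | var m => exact inst_var _ m
    | bul => simp [isVar] at hv
    | app g l b => simp [isVar] at hv
  | false =>
    rw [decide_eq_false_iff_not]
    rintro ⟨σ, h⟩
    obtain ⟨r, hr, τ, h'⟩ := ht'
    exact hP.noOv hNO hp hv hr σ τ (h.symm.trans h')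

omit hT hNO in
theorem qS_redex {t : Tm} (ht' : R.IsRedex t) : qS R P t = P := by
  classical
  unfold qS
  rw [List.filter_eq_self]
  intro p hp
  rw [decide_eq_true_eq]
  exact (flex_of_redex ht').reach (hP.over hp)

end

theorem gset_sublist (LA P : List Tm) (s : ℕ × ℕ) (G : List Tm) (X : List (List Tm)) (i : ℕ) :
    (gset LA P s G X i).Sublist P := by
  unfold gset
  cases G.any isVar
  · exact List.filter_sublist
  · exact List.Sublist.refl _

/-! ### Completeness -/

theorem complete {n N : ℕ} {R : Rules} (hO : R.Orthogonal) (hn : HtLT n R)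
    (hN : 2 ^ (pats n R).length ≤ N) (t : Tm) : R.Over t → t.BulFree →
    ∀ G, G.Sublist (pats n R) → Free R G t →
    ∃ h, GenU (cxOf n N R) (none, G, [(mS (pats n R) t, qS R (pats n R) t, [])], h) ∧
      (¬ R.IsNF t → h = true) := by
  obtain ⟨hT, hL, hNO⟩ := hO
  have hP := patOK hn
  induction t with
  | bul => exact fun _ h => h.elim
  | var m =>
    intro _ _ G hG _
    refine ⟨false, Gen.init _ ?_, fun h => absurd (isNF_var hT m) h⟩
    rw [mS_var hP hT, qS_var hP hT]
    unfold initU
    refine List.mem_append_left _ (List.mem_map.2 ⟨G, mem_subl hN hG, rfl⟩)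
  | app f k a ih =>
    intro ho hb G hG hF
    have hGP : ∀ p ∈ G, p ∈ pats n R := fun p hp => hG.subset hp
    by_cases hr : R.IsRedex (.app f k a)
    · refine ⟨true, Gen.init _ ?_, fun _ => rfl⟩
      have hv := free_hole hT hF hr (fun p hp h => by
        subst h
        exact hP.bulFree hT (hGP _ hp))
      rw [mS_redex hP hT hNO hr, qS_redex hP hr]
      unfold initU
      refine List.mem_append_right _ (List.mem_append_left _ ?_)
      have hne : (cxOf n N R).1.isEmpty = false := by
        obtain ⟨r, hr, -⟩ := hr
        unfold cxOf lhss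
        cases R with
        | nil => exact absurd hr List.not_mem_nil
        | cons r' R => rfl
      rw [hne, cond_false]
      exact List.mem_map.2 ⟨G, List.mem_filter.2 ⟨mem_subl hN hG, hv⟩, rfl⟩
    · have hF' := (free_app hP hT hL hGP hr).1 hF
      have h1 := fun i => ih i (Over.arg ho i) (hb i) _
        (gset_sublist (lhss R) (pats n R) (f, k) G (qX R (pats n R) a) i.1) (hF' i)
      choose h h2 h3 using h1
      let tri : Fin k → Tr3 := fun i => (mS (pats n R) (a i), qS R (pats n R) (a i),
        gset (lhss R) (pats n R) (f, k) G (qX R (pats n R) a) i.1)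
      have part : ∀ j ≤ k, ∃ h', GenU (cxOf n N R) (some (f, k), G, (List.ofFn tri).take j, h') ∧
          ∀ i : Fin k, i.1 < j → ¬ R.IsNF (a i) → h' = true := by
        intro j
        induction j with
        | zero =>
          intro _
          refine ⟨false, Gen.init _ ?_, fun i hi => absurd hi (Nat.not_lt_zero _)⟩
          unfold initU
          refine List.mem_append_right _ (List.mem_append_right _ (List.mem_flatMap.2 ⟨(f, k),
            mem_symsL hn (over_app.1 ho).1, List.mem_map.2 ⟨G, mem_subl hN hG, ?_⟩⟩))
          rw [List.take_zero]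
        | succ j ih =>
          intro hj
          obtain ⟨h', h4, h5⟩ := ih (by omega)
          refine ⟨h' || h ⟨j, hj⟩, Gen.bin _ _ _ h4 (h2 ⟨j, hj⟩) ?_, ?_⟩
          · have hlen : ((List.ofFn tri).take j).length < k := by
              rw [List.length_take, List.length_ofFn]
              omega
            have h6 : (List.ofFn tri).take (j + 1) = (List.ofFn tri).take j ++ [tri ⟨j, hj⟩] := by
              rw [List.take_succ_eq_append_getElem (by simpa using hj), List.getElem_ofFn]
            simp only [binU, Option.isSome_none, Bool.not_false, Bool.true_and,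
              decide_eq_true hlen, cond_true, List.headD_cons, List.mem_singleton, h6]
            rfl
          · intro i hi hNF
            rw [Bool.or_eq_true]
            rcases Nat.lt_succ_iff_lt_or_eq.1 hi with hi | hi
            · exact Or.inl (h5 i hi hNF)
            · right
              obtain rfl : i = ⟨j, hj⟩ := Fin.ext hi
              exact h3 _ hNF
      obtain ⟨h', h4, h5⟩ := part k le_rfl
      rw [List.take_of_length_le (by simp)] at h4
      refine ⟨h', Gen.un _ _ h4 ?_, ?_⟩
      · have e1 : (List.ofFn tri).map (fun y => y.1) = mX (pats n R) a := by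
          rw [List.map_ofFn]; rfl
        have e2 : (List.ofFn tri).map (fun y => y.2.1) = qX R (pats n R) a := by
          rw [List.map_ofFn]; rfl
        have e3 : redexb (lhss R) (f, k) (mX (pats n R) a) = false := by
          cases h6 : redexb (lhss R) (f, k) (mX (pats n R) a) with
          | false => rfl
          | true => exact absurd ((redexb_m hP hT hL).1 h6) hr
        have e4 : ((List.range k).all fun i => decide (((List.ofFn tri).getD i ([], [], [])).2.2 =
            gset (lhss R) (pats n R) (f, k) G (qX R (pats n R) a) i)) = true := by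
          rw [List.all_eq_true]
          intro i hi
          rw [List.mem_range] at hi
          rw [decide_eq_true_eq, getD_ofFn _ _ hi]
        simp only [unU, cxOf, e1, e2, e3, e4, List.length_ofFn, decide_true, Bool.not_false,
          Bool.true_and, cond_true, mset_eq hP hT hL, qset_eq hP hT hL, List.mem_singleton]
      · intro hNF
        rw [isNF_app_iff] at hNF
        push Not at hNF
        obtain ⟨i, hi⟩ := hNF hr
        exact h5 i i.2 hi

/-! ### Soundness -/

/-- The meaning of a state. -/
def Snd (R : Rules) (P : List Tm) : St → Prop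
  | (none, G, L, h) => G.Sublist P ∧ ∃ t, R.Over t ∧ t.BulFree ∧
      L = [(mS P t, qS R P t, [])] ∧ Free R G t ∧ (h = true → ¬ R.IsNF t)
  | (some s, G, L, h) => G.Sublist P ∧ s ∈ R.Sig ∧ ∃ ts : List Tm,
      List.Forall₂ (fun (y : Tr3) t => y.1 = mS P t ∧ y.2.1 = qS R P t ∧ Free R y.2.2 t ∧
        R.Over t ∧ t.BulFree) L ts ∧ (h = true → ∃ t ∈ ts, ¬ R.IsNF t)

theorem sound {n N : ℕ} {R : Rules} (hO : R.Orthogonal) (hn : HtLT n R) {x : St}
    (hx : GenU (cxOf n N R) x) : Snd R (pats n R) x := by
  obtain ⟨hT, hL, hNO⟩ := hO
  have hP := patOK hn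
  induction hx with
  | init x hx =>
    unfold initU at hx
    rw [List.mem_append, List.mem_append] at hx
    rcases hx with hx | hx | hx
    · obtain ⟨G, hG, rfl⟩ := List.mem_map.1 hx
      refine ⟨subl_sublist hG, .var 0, over_var 0, trivial, ?_, ?_, fun h => by simp at h⟩
      · rw [mS_var hP hT, qS_var hP hT]; rfl
      · intro C Δ h1 h2
        exact absurd h2 (isNF_var hT 0 C Δ h1)
    · cases hR : R with
      | nil =>
        exfalso
        subst hR
        simp [cxOf, lhss] at hx
      | cons r R' =>
        rw [← hR]
        have hne : (cxOf n N R).1.isEmpty = false := by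
          unfold cxOf lhss
          rw [hR]
          rfl
        rw [hne, cond_false] at hx
        obtain ⟨G, hG, rfl⟩ := List.mem_map.1 hx
        rw [List.mem_filter] at hG
        have hr : r ∈ R := by rw [hR]; exact List.mem_cons_self
        have hred : R.IsRedex r.1 := ⟨r, hr, Tm.var, (subst_id _).symm⟩
        refine ⟨subl_sublist hG.1, r.1, fun s hs => ⟨r, hr, Or.inl hs⟩, (hT r hr).1, ?_,
          free_of_var hG.2 _, fun _ h => h .hole _ rfl hred⟩
        rw [mS_redex hP hT hNO hred, qS_redex hP hred]
        rfl
    · obtain ⟨s, hs, hx⟩ := List.mem_flatMap.1 hx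
      obtain ⟨G, hG, rfl⟩ := List.mem_map.1 hx
      exact ⟨subl_sublist hG, symsL_sub hs, [], List.Forall₂.nil, fun h => by simp at h⟩
  | un x y hx hy ih =>
    obtain ⟨o, G, L, h⟩ := x
    cases o with
    | none => simp [unU] at hy
    | some s =>
      obtain ⟨f, k⟩ := s
      simp only [unU] at hy
      cases hc : (decide (L.length = k) && (!(redexb (cxOf n N R).1 (f, k) (L.map fun y => y.1)) &&
          (List.range k).all fun i => decide ((L.getD i ([], [], [])).2.2 =
            gset (cxOf n N R).1 (cxOf n N R).2.1 (f, k) G (L.map fun y => y.2.1) i))) with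
      | false => rw [hc] at hy; simp at hy
      | true =>
        rw [hc, cond_true, List.mem_singleton] at hy
        rw [Bool.and_eq_true, Bool.and_eq_true, decide_eq_true_eq, Bool.not_eq_true',
          List.all_eq_true] at hc
        obtain ⟨hc1, hc2, hc3⟩ := hc
        obtain ⟨hG, hs, ts, hts, hh⟩ := ih
        have hlen : ts.length = k := by rw [← hts.length_eq, hc1]
        subst hlen
        let a : Fin ts.length → Tm := ts.get
        have hget : ∀ i : Fin ts.length, (L.getD i.1 ([], [], [])).1 = mS (pats n R) (a i) ∧
            (L.getD i.1 ([], [], [])).2.1 = qS R (pats n R) (a i) ∧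
            Free R (L.getD i.1 ([], [], [])).2.2 (a i) ∧ R.Over (a i) ∧ (a i).BulFree := by
          intro i
          have h1 : i.1 < L.length := by rw [hc1]; exact i.2
          have h2 := List.forall₂_iff_get.1 hts
          have h3 := h2.2 i.1 h1 i.2
          rw [List.getD_eq_getElem _ _ h1]
          exact h3
        have e1 : L.map (fun y => y.1) = mX (pats n R) a := by
          refine List.ext_getElem (by simp [hc1]) fun i h1 h2 => ?_
          rw [List.getElem_map, List.getElem_ofFn]
          have h3 : i < L.length := by simpa using h1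
          have := (hget ⟨i, by rw [← hc1]; exact h3⟩).1
          rw [List.getD_eq_getElem _ _ h3] at this
          exact this
        have e2 : L.map (fun y => y.2.1) = qX R (pats n R) a := by
          refine List.ext_getElem (by simp [hc1]) fun i h1 h2 => ?_
          rw [List.getElem_map, List.getElem_ofFn]
          have h3 : i < L.length := by simpa using h1
          have := (hget ⟨i, by rw [← hc1]; exact h3⟩).2.1
          rw [List.getD_eq_getElem _ _ h3] at this
          exact this
        rw [e1, e2] at hy
        rw [e1] at hc2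
        rw [e2] at hc3
        have hr : ¬ R.IsRedex (.app f ts.length a) := by
          intro h1
          have h2 := (redexb_m hP hT hL).2 h1
          have h3 : redexb (lhss R) (f, ts.length) (mX (pats n R) a) = false := hc2
          rw [h2] at h3
          exact absurd h3 (by simp)
        rw [hy]
        refine ⟨hG, .app f ts.length a, ?_, ?_, ?_, ?_, ?_⟩
        · exact over_app.2 ⟨hs, fun i => (hget i).2.2.2.1⟩
        · exact fun i => (hget i).2.2.2.2
        · have e3 := mset_eq (a := a) (f := f) hP hT hL
          have e4 := qset_eq (a := a) (f := f) hP hT hL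
          simp only [cxOf] at e3 e4 ⊢
          rw [e3, e4]
        · refine (free_app hP hT hL (fun p hp => hG.subset hp) hr).2 fun i => ?_
          have h1 := hc3 i.1 (List.mem_range.2 i.2)
          rw [decide_eq_true_eq] at h1
          have h2 := (hget i).2.2.1
          rw [h1] at h2
          exact h2
        · intro h1 h2
          obtain ⟨t, ht', h3⟩ := hh h1
          obtain ⟨i, hi, rfl⟩ := List.getElem_of_mem ht'
          exact h3 ((isNF_app_iff.1 h2).2 ⟨i, hi⟩)
  | bin x y z hx hy hz ih1 ih2 =>
    obtain ⟨o, G, L, h⟩ := x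
    obtain ⟨o', G', L', h'⟩ := y
    cases o with
    | none => simp [binU] at hz
    | some s =>
      cases o' with
      | some s' => simp [binU] at hz
      | none =>
        simp only [binU, Option.isSome_none, Bool.not_false, Bool.true_and] at hz
        cases hc : decide (L.length < s.2) with
        | false => rw [hc] at hz; simp at hz
        | true =>
          rw [hc, cond_true, List.mem_singleton] at hz
          obtain ⟨hG, hs, ts, hts, hh⟩ := ih1
          obtain ⟨hG', t, ho, hb, rfl, hF, hh'⟩ := ih2
          rw [hz]
          refine ⟨hG, hs, ts ++ [t], ?_, ?_⟩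
          · refine List.rel_append hts (List.Forall₂.cons ?_ List.Forall₂.nil)
            exact ⟨rfl, rfl, hF, ho, hb⟩
          · intro h1
            rw [Bool.or_eq_true] at h1
            rcases h1 with h1 | h1
            · obtain ⟨u, hu, hu'⟩ := hh h1
              exact ⟨u, List.mem_append_left _ hu, hu'⟩
            · exact ⟨t, by simp, hh' h1⟩

end Sem

open Sem in
/-- SEM -/
theorem stSem : StSem := by
  intro n N R hO hn hN
  constructor
  · rintro ⟨⟨o, G, L, h⟩, hx, hb⟩ hSS
    have h1 := sound hO hn hx
    cases o with
    | some s => simp [badU] at hb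
    | none =>
      simp only [badU, Option.isSome_none, Bool.not_false, Bool.true_and, Bool.and_eq_true,
        List.isEmpty_iff] at hb
      obtain ⟨rfl, rfl⟩ := hb
      obtain ⟨-, t, ho, hbf, -, hF, hh⟩ := h1
      obtain ⟨C, Δ, rfl, hr, hs⟩ := hSS t ho hbf (hh rfl)
      rw [stronglyNeeded_iff hO.1 hbf] at hs
      rcases hF C Δ rfl hr with h2 | ⟨p, hp, -⟩
      · exact h2 hs
      · exact absurd hp List.not_mem_nil
  · intro hSS
    unfold Rules.StronglySequential at hSS
    push Not at hSS
    obtain ⟨t, ho, hb, hNF, h⟩ := hSS
    have hF : Free R [] t := by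
      intro C Δ h1 h2
      left
      intro hs
      subst h1
      exact h C Δ rfl h2 ((stronglyNeeded_iff hO.1 hb).2 hs)
    obtain ⟨h', h1, h2⟩ := complete hO hn hN t ho hb [] (List.nil_sublist _) hF
    refine ⟨_, h1, ?_⟩
    simp [badU, h2 hNF]

end Pool.Agent.Lib.MP_ce3b04_lc.Up
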