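import Pool.Agent.Lib.MP_ce3b04_lc.Up.CoreG
import Pool.Agent.Lib.MP_ce3b04_lc.Up.Sem2

/-!
# The states describe the terms without variables all whose redexes can be erased
-/

open Relation

namespace Pool.Agent.Lib.MP_ce3b04_lc.Up

open Pool.Agent.Lib.PT Pool.Agent.Lib.MP_0b43f8_lc

namespace Sem

/-! ### Substitution of terms without variables -/

theorem fill_ground {C : Cx} {t u : Tm} (h : (C.fill t).Ground) (hu : u.Ground) :
    (C.fill u).Ground := by
  induction C with
  | hole => exact hu
  | arg f k a i C ih =>
    simp only [Cx.fill, Tm.Ground] at h ⊢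
    intro j
    by_cases hj : j = i
    · subst hj
      have := h j
      rw [Function.update_self] at this ⊢
      exact ih this
    · have := h j
      rwa [Function.update_of_ne hj] at this ⊢

theorem subst_ground {t : Tm} (h : t.Ground) (τ : ℕ → Tm) : t.subst τ = t := by
  induction t with
  | var n => exact h.elim
  | bul => rfl
  | app f k a ih =>
    simp only [Tm.subst]
    congr 1
    funext i
    exact ih i (h i)

theorem ground_subst (t : Tm) {τ : ℕ → Tm} (h : ∀ n, (τ n).Ground) : (t.subst τ).Ground := by
  induction t with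
  | var n => exact h n
  | bul => trivial
  | app f k a ih => exact fun i => ih i

theorem bulFree_subst {t : Tm} (ht : t.BulFree) {τ : ℕ → Tm} (h : ∀ n, (τ n).BulFree) :
    (t.subst τ).BulFree := by
  induction t with
  | var n => exact h n
  | bul => exact ht.elim
  | app f k a ih => exact fun i => ih i (ht i)

theorem over_subst {R : Rules} {t : Tm} (ht : R.Over t) {τ : ℕ → Tm} (h : ∀ n, R.Over (τ n)) :
    R.Over (t.subst τ) := by
  induction t with
  | var n => exact h n
  | bul => exact ht
  | app f k a ih =>
    rw [over_app] at ht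
    exact over_app.2 ⟨ht.1, fun i => ih i (ht.2 i)⟩

theorem subst_subst (t : Tm) (σ τ : ℕ → Tm) :
    (t.subst σ).subst τ = t.subst fun n => (σ n).subst τ := by
  induction t with
  | var n => rfl
  | bul => rfl
  | app f k a ih =>
    simp only [Tm.subst]
    congr 1
    funext i
    exact ih i

/-- Substitution in a context. -/
def cxSubst (τ : ℕ → Tm) : Cx → Cx
  | .hole => .hole
  | .arg f k a i C => .arg f k (fun j => (a j).subst τ) i (cxSubst τ C)

theorem fill_subst (C : Cx) (t : Tm) (τ : ℕ → Tm) :
    (C.fill t).subst τ = (cxSubst τ C).fill (t.subst τ) := by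
  induction C with
  | hole => rfl
  | arg f k a i C ih =>
    simp only [Cx.fill, cxSubst, Tm.subst]
    congr 1
    funext j
    by_cases hj : j = i
    · subst hj
      rw [Function.update_self, Function.update_self, ih]
    · rw [Function.update_of_ne hj, Function.update_of_ne hj]

section

variable {R : Rules}

theorem step_subst {t s : Tm} (h : R.Step t s) {τ : ℕ → Tm} (hτ : ∀ n, R.Over (τ n)) :
    R.Step (t.subst τ) (s.subst τ) := by
  obtain ⟨C, Δ, u, ⟨r, hr, σ, rfl⟩, h2, rfl, rfl⟩ := h
  exact ⟨cxSubst τ C, _, u.subst τ, ⟨r, hr, fun n => (σ n).subst τ, subst_subst _ _ _⟩,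
    over_subst h2 hτ, fill_subst _ _ _, fill_subst _ _ _⟩

theorem gsteps_subst {t s : Tm} (h : ReflTransGen R.Step t s) {τ : ℕ → Tm}
    (hτ : ∀ n, (τ n).Ground) (ho : ∀ n, R.Over (τ n)) :
    ReflTransGen R.GStep (t.subst τ) (s.subst τ) := by
  induction h with
  | refl => exact .refl
  | tail _ h2 ih => exact ih.tail ⟨step_subst h2 ho, ground_subst _ hτ, ground_subst _ hτ⟩

theorem steps_of_gsteps {t s : Tm} (h : ReflTransGen R.GStep t s) : ReflTransGen R.Step t s := by
  induction h with
  | refl => exact .refl
  | tail _ h2 ih => exact ih.tail h2.1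

/-- There is a normal form without variables. -/
def ExNF (R : Rules) : Prop := ∃ n₀ : Tm, R.Over n₀ ∧ n₀.BulFree ∧ n₀.Ground ∧ R.IsNF n₀

/-- Every ground term without `•` can be reduced to a ground normal form without `•`, if there is
such a normal form at all. -/
theorem exists_nfG {n₀ : Tm} (h0 : R.Over n₀) (h1 : n₀.BulFree) (h2 : n₀.Ground) (h3 : R.IsNF n₀)
    (t : Tm) (ht : t.BulFree) (hg : t.Ground) :
    ∃ s, ReflTransGen R.Step t s ∧ R.IsNF s ∧ s.BulFree ∧ s.Ground := by
  induction t with
  | var n => exact hg.elim
  | bul => exact ht.elim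
  | app f k a ih =>
    choose b hb1 hb2 hb3 hb4 using fun i => ih i (ht i) (hg i)
    have h4 := steps_args (f := f) hb1
    by_cases hr : R.IsRedex (.app f k b)
    · exact ⟨n₀, h4.tail (step_of_redex hr h0), h3, h1, h2⟩
    · exact ⟨_, h4, isNF_app_iff.2 ⟨hr, hb2⟩, hb3, hb4⟩

theorem stronglyNeededG_iff (hT : R.IsTRS) (hE : ExNF R) {C : Cx} {Δ : Tm}
    (hb : (C.fill Δ).BulFree) (hg : (C.fill Δ).Ground) :
    R.StronglyNeededG (C.fill .bul) ↔ Safe R C := by
  constructor
  · intro h
    by_contra hs
    obtain ⟨n₀, h0, h1, h2, h3⟩ := hE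
    obtain ⟨s, h4, h5⟩ := exists_bulFree_of_not_safe hb hs
    have hτ : ∀ n : ℕ, ((fun _ => n₀) n : Tm).Ground := fun _ => h2
    have h6 := gsteps_subst h4 hτ (fun _ => h0)
    rw [subst_ground (fill_ground (u := .bul) hg trivial)] at h6
    obtain ⟨u, h7, h8, h9, h10⟩ := exists_nfG h0 h1 h2 h3 (s.subst fun _ => n₀)
      (bulFree_subst h5 fun _ => h1) (ground_subst _ hτ)
    have h11 := gsteps_subst h7 hτ (fun _ => h0)
    rw [subst_ground h10, subst_ground (ground_subst _ hτ)] at h11
    exact h u (h6.trans h11) h8 h9
  · intro h s h1 _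
    exact h.not_bulFree hT (steps_of_gsteps h1)

theorem step_over {t s : Tm} (h : R.Step t s) (ht : R.Over t) : R.Over s := by
  obtain ⟨C, Δ, u, -, h2, rfl, rfl⟩ := h
  induction C with
  | hole => exact h2
  | arg f k a i C ih =>
    simp only [Cx.fill] at ht ⊢
    rw [over_app] at ht ⊢
    refine ⟨ht.1, fun j => ?_⟩
    by_cases hj : j = i
    · subst hj
      have := ht.2 j
      rw [Function.update_self] at this ⊢
      exact ih this
    · have := ht.2 j
      rwa [Function.update_of_ne hj] at this ⊢

theorem gsteps_over {t s : Tm} (h : ReflTransGen R.GStep t s) (ht : R.Over t) (hg : t.Ground) :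
    R.Over s ∧ s.Ground := by
  induction h with
  | refl => exact ⟨ht, hg⟩
  | tail _ h2 ih => exact ⟨step_over h2.1 ih.1, h2.2.2⟩

theorem over_fill {C : Cx} {t u : Tm} (h : R.Over (C.fill t)) (hu : R.Over u) :
    R.Over (C.fill u) := by
  induction C with
  | hole => exact hu
  | arg f k a i C ih =>
    simp only [Cx.fill] at h ⊢
    rw [over_app] at h ⊢
    refine ⟨h.1, fun j => ?_⟩
    by_cases hj : j = i
    · subst hj
      have := h.2 j
      rw [Function.update_self] at this ⊢
      exact ih this
    · have := h.2 j
      rwa [Function.update_of_ne hj] at this ⊢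

/-- If there is no normal form without variables, then everything is strongly needed. -/
theorem stronglySequentialG_of_not (hE : ¬ ExNF R) : R.StronglySequentialG := by
  intro t ho hb hg hNF
  unfold Rules.IsNF at hNF
  push Not at hNF
  obtain ⟨C, Δ, rfl, hr⟩ := hNF
  refine ⟨C, Δ, rfl, hr, fun s h1 h2 h3 => hE ?_⟩
  obtain ⟨h4, h5⟩ := gsteps_over h1 (over_fill ho over_bul) (fill_ground (u := .bul) hg trivial)
  exact ⟨s, h4, h3, h5, h2⟩

end

/-! ### Completeness -/

theorem completeG {n N : ℕ} {R : Rules} (hO : R.Orthogonal) (hn : HtLT n R)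
    (hN : 2 ^ (pats n R).length ≤ N) (t : Tm) : R.Over t → t.BulFree → t.Ground →
    ∀ G, G.Sublist (pats n R) → Free R G t →
    ∃ h, GenG (cxOf n N R) (none, G, [(mS (pats n R) t, qS R (pats n R) t, [])], h) ∧
      (h = true ↔ ¬ R.IsNF t) := by
  obtain ⟨hT, hL, hNO⟩ := hO
  have hP := patOK hn
  induction t with
  | bul => exact fun _ h => h.elim
  | var m => exact fun _ _ h => h.elim
  | app f k a ih =>
    intro ho hb hg G hG hF
    have hGP : ∀ p ∈ G, p ∈ pats n R := fun p hp => hG.subset hp
    by_cases hr : R.IsRedex (.app f k a)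
    · refine ⟨true, Gen.init _ ?_, ⟨fun _ h => h .hole _ rfl hr, fun _ => rfl⟩⟩
      have hv := free_hole hT hF hr (fun p hp h => by
        subst h
        exact hP.bulFree hT (hGP _ hp))
      rw [mS_redex hP hT hNO hr, qS_redex hP hr]
      unfold initG
      refine List.mem_append_left _ ?_
      have hne : (cxOf n N R).1.isEmpty = false := by
        obtain ⟨r, hr, -⟩ := hr
        unfold cxOf lhss
        cases R with
        | nil => exact absurd hr List.not_mem_nil
        | cons r' R => rfl
      rw [hne, cond_false]
      exact List.mem_map.2 ⟨G, List.mem_filter.2 ⟨mem_subl hN hG, hv⟩, rfl⟩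
    · have hF' := (free_app hP hT hL hGP hr).1 hF
      have h1 := fun i => ih i (Over.arg ho i) (hb i) (hg i) _
        (gset_sublist (lhss R) (pats n R) (f, k) G (qX R (pats n R) a) i.1) (hF' i)
      choose h h2 h3 using h1
      let tri : Fin k → Tr3 := fun i => (mS (pats n R) (a i), qS R (pats n R) (a i),
        gset (lhss R) (pats n R) (f, k) G (qX R (pats n R) a) i.1)
      have part : ∀ j ≤ k, ∃ h', GenG (cxOf n N R) (some (f, k), G, (List.ofFn tri).take j, h') ∧
          (h' = true ↔ ∃ i : Fin k, i.1 < j ∧ ¬ R.IsNF (a i)) := by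
        intro j
        induction j with
        | zero =>
          intro _
          refine ⟨false, Gen.init _ ?_, ⟨fun h => by simp at h,
            fun ⟨i, hi, _⟩ => absurd hi (Nat.not_lt_zero _)⟩⟩
          unfold initG
          refine List.mem_append_right _ (List.mem_flatMap.2 ⟨(f, k),
            mem_symsL hn (over_app.1 ho).1, List.mem_map.2 ⟨G, mem_subl hN hG, ?_⟩⟩)
          rw [List.take_zero]
        | succ j ih =>
          intro hj
          obtain ⟨h', h4, h5⟩ := ih (by omega)
          refine ⟨h' || h ⟨j, hj⟩, Gen.bin _ _ _ h4 (h2 ⟨j, hj⟩) ?_, ?_⟩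
          · have hlen : ((List.ofFn tri).take j).length < k := by
              rw [List.length_take, List.length_ofFn]
              omega
            have h6 : (List.ofFn tri).take (j + 1) = (List.ofFn tri).take j ++ [tri ⟨j, hj⟩] := by
              rw [List.take_succ_eq_append_getElem (by simpa using hj), List.getElem_ofFn]
            simp only [binU, Option.isSome_none, Bool.not_false, Bool.true_and,
              decide_eq_true hlen, cond_true, List.headD_cons, List.mem_singleton, h6]
            rfl
          · rw [Bool.or_eq_true, h5, h3]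
            constructor
            · rintro (⟨i, hi, h6⟩ | h6)
              · exact ⟨i, by omega, h6⟩
              · exact ⟨⟨j, hj⟩, Nat.lt_succ_self j, h6⟩
            · rintro ⟨i, hi, h6⟩
              rcases Nat.lt_succ_iff_lt_or_eq.1 hi with hi | hi
              · exact Or.inl ⟨i, hi, h6⟩
              · right
                obtain rfl : i = ⟨j, hj⟩ := Fin.ext hi
                exact h6
      obtain ⟨h', h4, h5⟩ := part k le_rfl
      rw [List.take_of_length_le (by simp)] at h4
      refine ⟨h', Gen.un _ _ h4 ?_, ?_⟩
      · have e1 : (List.ofFn tri).map (fun y => y.1) = mX (pats n R) a := by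
          rw [List.map_ofFn]; rfl
        have e2 : (List.ofFn tri).map (fun y => y.2.1) = qX R (pats n R) a := by
          rw [List.map_ofFn]; rfl
        have e3 : redexb (lhss R) (f, k) (mX (pats n R) a) = false := by
          cases h6 : redexb (lhss R) (f, k) (mX (pats n R) a) with
          | false => rfl
          | true => exact absurd ((redexb_m hP hT hL).1 h6) hr
        have e4 : ((List.range k).all fun i => decide (((List.ofFn tri).getD i ([], [], [])).2.2 =
            gset (lhss R) (pats n R) (f, k) G (qX R (pats n R) a) i)) = true := by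
          rw [List.all_eq_true]
          intro i hi
          rw [List.mem_range] at hi
          rw [decide_eq_true_eq, getD_ofFn _ _ hi]
        simp only [unU, cxOf, e1, e2, e3, e4, List.length_ofFn, decide_true, Bool.not_false,
          Bool.true_and, cond_true, mset_eq hP hT hL, qset_eq hP hT hL, List.mem_singleton]
      · rw [h5, isNF_app_iff]
        constructor
        · rintro ⟨i, -, hi⟩ h6
          exact hi (h6.2 i)
        · intro h6
          push Not at h6
          obtain ⟨i, hi⟩ := h6 hr
          exact ⟨i, i.2, hi⟩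

/-! ### Soundness -/

/-- The meaning of a state. -/
def SndG (R : Rules) (P : List Tm) : St → Prop
  | (none, G, L, h) => G.Sublist P ∧ ∃ t, R.Over t ∧ t.BulFree ∧ t.Ground ∧
      L = [(mS P t, qS R P t, [])] ∧ Free R G t ∧ (h = true ↔ ¬ R.IsNF t)
  | (some s, G, L, h) => G.Sublist P ∧ s ∈ R.Sig ∧ ∃ ts : List Tm,
      List.Forall₂ (fun (y : Tr3) t => y.1 = mS P t ∧ y.2.1 = qS R P t ∧ Free R y.2.2 t ∧
        R.Over t ∧ t.BulFree ∧ t.Ground) L ts ∧ (h = true ↔ ∃ t ∈ ts, ¬ R.IsNF t)

theorem soundG {n N : ℕ} {R : Rules} (hO : R.Orthogonal) (hn : HtLT n R) {x : St}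
    (hx : GenG (cxOf n N R) x) (hE : x.2.2.2 = true → ExNF R) : SndG R (pats n R) x := by
  obtain ⟨hT, hL, hNO⟩ := hO
  have hP := patOK hn
  induction hx with
  | init x hx =>
    unfold initG at hx
    rw [List.mem_append] at hx
    rcases hx with hx | hx
    · cases hR : R with
      | nil =>
        exfalso
        subst hR
        simp [cxOf, lhss] at hx
      | cons r R' =>
        rw [← hR]
        have hne : (cxOf n N R).1.isEmpty = false := by
          unfold cxOf lhss
          rw [hR]
          rfl
        rw [hne, cond_false] at hx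
        obtain ⟨G, hG, rfl⟩ := List.mem_map.1 hx
        rw [List.mem_filter] at hG
        obtain ⟨n₀, h0, h1, h2, h3⟩ := hE rfl
        have hr : r ∈ R := by rw [hR]; exact List.mem_cons_self
        have hred : R.IsRedex (r.1.subst fun _ => n₀) := ⟨r, hr, _, rfl⟩
        refine ⟨subl_sublist hG.1, r.1.subst fun _ => n₀,
          over_subst (fun s hs => ⟨r, hr, Or.inl hs⟩) fun _ => h0,
          bulFree_subst (hT r hr).1 fun _ => h1, ground_subst _ fun _ => h2, ?_,
          free_of_var hG.2 _, fun _ h => h .hole _ rfl hred, fun _ => rfl⟩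
        rw [mS_redex hP hT hNO hred, qS_redex hP hred]
        rfl
    · obtain ⟨s, hs, hx⟩ := List.mem_flatMap.1 hx
      obtain ⟨G, hG, rfl⟩ := List.mem_map.1 hx
      exact ⟨subl_sublist hG, symsL_sub hs, [], List.Forall₂.nil, by simp⟩
  | un x y hx hy ih =>
    obtain ⟨o, G, L, h⟩ := x
    cases o with
    | none => simp [unU] at hy
    | some s =>
      obtain ⟨f, k⟩ := s
      simp only [unU] at hy
      cases hc : (decide (L.length = k) && (!(redexb (cxOf n N R).1 (f, k) (L.map fun y => y.1)) &&
          (List.range k).all fun i => decide ((L.getD i ([], [], [])).2.2 =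
            gset (cxOf n N R).1 (cxOf n N R).2.1 (f, k) G (L.map fun y => y.2.1) i))) with
      | false => rw [hc] at hy; simp at hy
      | true =>
        rw [hc, cond_true, List.mem_singleton] at hy
        rw [Bool.and_eq_true, Bool.and_eq_true, decide_eq_true_eq, Bool.not_eq_true',
          List.all_eq_true] at hc
        obtain ⟨hc1, hc2, hc3⟩ := hc
        obtain ⟨hG, hs, ts, hts, hh⟩ := ih (by rw [hy] at hE; exact hE)
        have hlen : ts.length = k := by rw [← hts.length_eq, hc1]
        subst hlen
        let a : Fin ts.length → Tm := ts.get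
        have hget : ∀ i : Fin ts.length, (L.getD i.1 ([], [], [])).1 = mS (pats n R) (a i) ∧
            (L.getD i.1 ([], [], [])).2.1 = qS R (pats n R) (a i) ∧
            Free R (L.getD i.1 ([], [], [])).2.2 (a i) ∧ R.Over (a i) ∧ (a i).BulFree ∧
            (a i).Ground := by
          intro i
          have h1 : i.1 < L.length := by rw [hc1]; exact i.2
          have h2 := List.forall₂_iff_get.1 hts
          have h3 := h2.2 i.1 h1 i.2
          rw [List.getD_eq_getElem _ _ h1]
          exact h3
        have e1 : L.map (fun y => y.1) = mX (pats n R) a := by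
          refine List.ext_getElem (by simp [hc1]) fun i h1 h2 => ?_
          rw [List.getElem_map, List.getElem_ofFn]
          have h3 : i < L.length := by simpa using h1
          have := (hget ⟨i, by rw [← hc1]; exact h3⟩).1
          rw [List.getD_eq_getElem _ _ h3] at this
          exact this
        have e2 : L.map (fun y => y.2.1) = qX R (pats n R) a := by
          refine List.ext_getElem (by simp [hc1]) fun i h1 h2 => ?_
          rw [List.getElem_map, List.getElem_ofFn]
          have h3 : i < L.length := by simpa using h1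
          have := (hget ⟨i, by rw [← hc1]; exact h3⟩).2.1
          rw [List.getD_eq_getElem _ _ h3] at this
          exact this
        rw [e1, e2] at hy
        rw [e1] at hc2
        rw [e2] at hc3
        have hr : ¬ R.IsRedex (.app f ts.length a) := by
          intro h1
          have h2 := (redexb_m hP hT hL).2 h1
          have h3 : redexb (lhss R) (f, ts.length) (mX (pats n R) a) = false := hc2
          rw [h2] at h3
          exact absurd h3 (by simp)
        rw [hy]
        refine ⟨hG, .app f ts.length a, ?_, ?_, ?_, ?_, ?_, ?_⟩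
        · exact over_app.2 ⟨hs, fun i => (hget i).2.2.2.1⟩
        · exact fun i => (hget i).2.2.2.2.1
        · exact fun i => (hget i).2.2.2.2.2
        · have e3 := mset_eq (a := a) (f := f) hP hT hL
          have e4 := qset_eq (a := a) (f := f) hP hT hL
          simp only [cxOf] at e3 e4 ⊢
          rw [e3, e4]
        · refine (free_app hP hT hL (fun p hp => hG.subset hp) hr).2 fun i => ?_
          have h1 := hc3 i.1 (List.mem_range.2 i.2)
          rw [decide_eq_true_eq] at h1
          have h2 := (hget i).2.2.1
          rw [h1] at h2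
          exact h2
        · show h = true ↔ _
          rw [hh, isNF_app_iff]
          constructor
          · rintro ⟨t, ht', h3⟩ h2
            obtain ⟨i, hi, rfl⟩ := List.getElem_of_mem ht'
            exact h3 (h2.2 ⟨i, hi⟩)
          · intro h2
            push Not at h2
            obtain ⟨i, hi⟩ := h2 hr
            exact ⟨a i, List.getElem_mem i.2, hi⟩
  | bin x y z hx hy hz ih1 ih2 =>
    obtain ⟨o, G, L, h⟩ := x
    obtain ⟨o', G', L', h'⟩ := y
    cases o with
    | none => simp [binU] at hz
    | some s =>
      cases o' with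
      | some s' => simp [binU] at hz
      | none =>
        simp only [binU, Option.isSome_none, Bool.not_false, Bool.true_and] at hz
        cases hc : decide (L.length < s.2) with
        | false => rw [hc] at hz; simp at hz
        | true =>
          rw [hc, cond_true, List.mem_singleton] at hz
          rw [hz] at hE
          obtain ⟨hG, hs, ts, hts, hh⟩ := ih1 fun h1 => hE (by
            show (h || h') = true
            rw [show h = true from h1]; rfl)
          obtain ⟨hG', t, ho, hb, hg, rfl, hF, hh'⟩ := ih2 fun h1 => hE (by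
            show (h || h') = true
            rw [show h' = true from h1, Bool.or_true])
          rw [hz]
          refine ⟨hG, hs, ts ++ [t], ?_, ?_⟩
          · refine List.rel_append hts (List.Forall₂.cons ?_ List.Forall₂.nil)
            exact ⟨rfl, rfl, hF, ho, hb, hg⟩
          · rw [Bool.or_eq_true, hh, hh']
            constructor
            · rintro (⟨u, hu, hu'⟩ | h1)
              · exact ⟨u, List.mem_append_left _ hu, hu'⟩
              · exact ⟨t, by simp, h1⟩
            · rintro ⟨u, hu, hu'⟩
              rw [List.mem_append, List.mem_singleton] at hu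
              rcases hu with hu | rfl
              · exact Or.inl ⟨u, hu, hu'⟩
              · exact Or.inr hu'

theorem exNF_iff {n N : ℕ} {R : Rules} (hO : R.Orthogonal) (hn : HtLT n R)
    (hN : 2 ^ (pats n R).length ≤ N) :
    (∃ x, GenG (cxOf n N R) x ∧ goodU x = true) ↔ ExNF R := by
  constructor
  · rintro ⟨⟨o, G, L, h⟩, hx, hb⟩
    cases o with
    | some s => simp [goodU] at hb
    | none =>
      simp only [goodU, Option.isSome_none, Bool.not_false, Bool.true_and, Bool.and_eq_true,
        List.isEmpty_iff, Bool.not_eq_true'] at hb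
      obtain ⟨rfl, rfl⟩ := hb
      obtain ⟨-, t, ho, hbf, hg, -, hF, hh⟩ := soundG hO hn hx (by simp)
      refine ⟨t, ho, hbf, hg, ?_⟩
      by_contra h1
      exact absurd (hh.2 h1) (by simp)
  · rintro ⟨t, ho, hb, hg, hNF⟩
    have hF : Free R [] t := fun C Δ h1 h2 => absurd h2 (hNF C Δ h1)
    obtain ⟨h', h1, h2⟩ := completeG hO hn hN t ho hb hg [] (List.nil_sublist _) hF
    refine ⟨_, h1, ?_⟩
    have h3 : h' = false := by
      cases h' with
      | false => rfl
      | true => exact absurd hNF (h2.1 rfl)
    simp [goodU, h3]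

end Sem

open Sem in
/-- SEMG -/
theorem stSemG : StSemG := by
  intro n N R hO hn hN
  rw [exNF_iff hO hn hN]
  constructor
  · rintro ⟨⟨⟨o, G, L, h⟩, hx, hb⟩, hE⟩ hSS
    have h1 := soundG hO hn hx fun _ => hE
    cases o with
    | some s => simp [badU] at hb
    | none =>
      simp only [badU, Option.isSome_none, Bool.not_false, Bool.true_and, Bool.and_eq_true,
        List.isEmpty_iff] at hb
      obtain ⟨rfl, rfl⟩ := hb
      obtain ⟨-, t, ho, hbf, hg, -, hF, hh⟩ := h1
      obtain ⟨C, Δ, rfl, hr, hs⟩ := hSS t ho hbf hg (hh.1 rfl)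
      rw [stronglyNeededG_iff hO.1 hE hbf hg] at hs
      rcases hF C Δ rfl hr with h2 | ⟨p, hp, -⟩
      · exact h2 hs
      · exact absurd hp List.not_mem_nil
  · intro hSS
    have hE : ExNF R := by
      by_contra h
      exact hSS (stronglySequentialG_of_not h)
    refine ⟨?_, hE⟩
    unfold Rules.StronglySequentialG at hSS
    push Not at hSS
    obtain ⟨t, ho, hb, hg, hNF, h⟩ := hSS
    have hF : Free R [] t := by
      intro C Δ h1 h2
      left
      intro hs
      subst h1
      exact h C Δ rfl h2 ((stronglyNeededG_iff hO.1 hE hb hg).2 hs)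
    obtain ⟨h', h1, h2⟩ := completeG hO hn hN t ho hb hg [] (List.nil_sublist _) hF
    refine ⟨_, h1, ?_⟩
    simp [badU, h2.2 hNF]

end Pool.Agent.Lib.MP_ce3b04_lc.Up
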