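import Pool.Agent.Lib.MP_ce3b04_lc.Up.CoreG
import Pool.Agent.Lib.MP_ce3b04_lc.Up.Solve
import Pool.Agent.Lib.MP_ce3b04_lc.Up.Parse
import Pool.Agent.Lib.MP_ce3b04_lc.Up.Orth
import Pool.Agent.Lib.MP_ce3b04_lc.Up.Count

/-!
# Terms without variables: the algorithm is correct and fast
-/

namespace Pool.Agent.Lib.MP_ce3b04_lc.Up

open Pool.Agent.Lib.PT Pool.Agent.Lib.MP_0b43f8_lc Turing

noncomputable section

namespace GSolve

theorem gen_mono {c : Cx4} {x : St} (h : GenG c x) : GenU c x := by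
  induction h with
  | init s h => exact Gen.init s (List.mem_append_right _ h)
  | un s t _ h ih => exact Gen.un s t ih h
  | bin s t r _ _ h ihs iht => exact Gen.bin s t r ihs iht h

theorem ssbG_iff (hS : StSemG) {n N : ℕ} {R : Rules} (hR : R.Orthogonal)
    (hH : HtLT n R) (hn : n = R.code.length + 1) (hN : 2 ^ (n + 2) ^ 3 ≤ N) :
    ssbG n N R = true ↔ R.StronglySequentialG := by
  obtain ⟨h1, L, h2, h3⟩ := stCountU n N R hn hN
  have h4 := hS n N R hR hH h1
  have h5 := stClos St (initG (cxOf n N R)) (unU (cxOf n N R)) (binU (cxOf n N R)) N L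
    (fun x hx => h3 x (gen_mono hx)) h2
  unfold ssbG
  rw [Bool.not_eq_true', Bool.eq_false_iff, ne_eq, Bool.and_eq_true, List.any_eq_true,
    List.any_eq_true]
  constructor
  · intro h
    by_contra h6
    obtain ⟨⟨x, h7, h8⟩, ⟨y, h9, h10⟩⟩ := h4.2 h6
    exact h ⟨⟨x, (h5 x).2 h7, h8⟩, ⟨y, (h5 y).2 h9, h10⟩⟩
  · rintro h ⟨⟨x, h7, h8⟩, ⟨y, h9, h10⟩⟩
    exact h4.1 ⟨⟨x, (h5 x).1 h7, h8⟩, ⟨y, (h5 y).1 h9, h10⟩⟩ h

end GSolve

open GSolve

/-- The algorithm for terms without variables is correct. -/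
theorem stSolveG (hS : StSemG) : StSolveG := by
  have key : ∀ (R : Rules) (N : ℕ), 2 ^ (R.code.length + 3) ^ 3 ≤ N →
      ((orthb (R.code.length + 1) R && ssbG (R.code.length + 1) N R) = true ↔
        R.Orthogonal ∧ R.StronglySequentialG) := by
    intro R N hN
    rw [Bool.and_eq_true, stOrth _ R (stHt R)]
    constructor
    · rintro ⟨h1, h2⟩
      exact ⟨h1, (ssbG_iff hS h1 (stHt R) rfl hN).1 h2⟩
    · rintro ⟨h1, h2⟩
      exact ⟨h1, (ssbG_iff hS h1 (stHt R) rfl hN).2 h2⟩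
  intro w N hN
  unfold solveG
  rw [Bool.and_eq_true]
  constructor
  · rintro ⟨h1, h2⟩
    have h3 := stParse.1 w h1
    rw [← h3] at hN
    have h4 := (key (rulesOf w) N hN).1
    rw [h3] at h4
    obtain ⟨h5, h6⟩ := h4 h2
    exact ⟨rulesOf w, h5, h6, h3.symm⟩
  · rintro ⟨R, h1, h2, rfl⟩
    obtain ⟨h3, h4⟩ := stParse.2 R
    rw [h4]
    exact ⟨h3, (key R N hN).2 ⟨h1, h2⟩⟩

namespace GSolve

/-- The algorithm. -/
def algG (w : List Tok) : Bool := solveG w (2 ^ expoU w)

theorem tb_algG (h : StPTsolveG) : TB gW fun w => [algG w] := by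
  have hsz : ∀ w, sz w ≤ gW w := fun w => by unfold gW; omega
  have h1 : TB gW fun w => (2 ^ expoU w, w) :=
    TB.pow (e := expoU) (b := fun _ => 2) (s := fun w : List Tok => w) ptime_expoU
      (PTime.const 2) (by fun_prop) hsz (fun w => by omega) (fun w => by unfold gW; omega)
  have hq1 : PTime fun q : ℕ × List Tok => q.1 := by fun_prop
  have hq2 : PTime fun q : ℕ × List Tok => q.2 := by fun_prop
  have h2 : PTime fun q : ℕ × List Tok => [solveG q.2 q.1] := by
    have h3 : PTime fun q : ℕ × List Tok => solveG q.2 q.1 :=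
      PTime.comp (f := fun p : List Tok × ℕ => solveG p.1 p.2)
        (g := fun q : ℕ × List Tok => (q.2, q.1)) h (hq2.pair hq1)
    exact PTime.cons h3 (PTime.const [])
  have h5 := TB.comp h2 h1 hsz
  simp only at h5
  unfold algG
  exact h5

end GSolve

/-- Strong sequentiality for terms without variables is in EXPTIME. -/
theorem stInEXPG (hS : StSemG) (hp : StPTsolveG) : StInEXPG := by
  classical
  obtain ⟨M, p, hM⟩ := tb_tm tr_bool_injective (f := fun w => [algG w]) (g := gW)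
    (fun w => by unfold gW; omega) (tb_algG hp)
  obtain ⟨d, hd⟩ := poly_le_pow p
  have h1 : ∀ w : List Tok, Outputs M w [algG w] (p.eval (bW w.length)) := fun w =>
    (hM w).mono (eval_mono p (gW_le w))
  refine ⟨algG, ⟨⟨M.tm, M.inputAlphabet, M.outputAlphabet⟩, fun n => p.eval (bW n),
    fun w => (h1 w).some⟩, ((Polynomial.X + 3) ^ 3 + 4) * Polynomial.C d, fun w => ?_,
    fun n => ?_⟩
  · exact stSolveG hS w _ le_rfl
  · have h2 : 2 ≤ bW n := by unfold bW; omega
    refine (hd _ h2).trans ?_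
    refine (Nat.pow_le_pow_left (bW_le n) d).trans ?_
    rw [← pow_mul]
    refine Nat.pow_le_pow_right (by omega) (le_of_eq ?_)
    simp

end

end Pool.Agent.Lib.MP_ce3b04_lc.Up
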