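import Pool.Agent.Lib.MP_ce3b04_lc.Up.PTA
import Pool.Agent.Lib.MP_ce3b04_lc.Up.PTparse
import Pool.Agent.Lib.MP_ce3b04_lc.Up.Orth
import Pool.Agent.Lib.MP_ce3b04_lc.Up.Parse
import Pool.Agent.Lib.MP_ce3b04_lc.Hier.Core
import Pool.Agent.Lib.MP_0b43f8_lc.TM

/-!
# The orthogonal rewriting systems are recognized in polynomial time
-/

namespace Pool.Agent.Lib.MP_ce3b04_lc.Up

open Pool.Agent.Lib.PT Pool.Agent.Lib.MP_0b43f8_lc Turing

/-- The test. -/
noncomputable def instb (w : List Tok) : Bool := wellb w && orthb (w.length + 1) (rulesOf w)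

theorem instb_iff (w : List Tok) : instb w = true ↔ ∃ R : Rules, R.Orthogonal ∧ w = R.code := by
  unfold instb
  rw [Bool.and_eq_true]
  constructor
  · rintro ⟨h1, h2⟩
    have h3 := stParse.1 w h1
    have h4 := stOrth (w.length + 1) (rulesOf w) (by
      have := stHt (rulesOf w)
      rwa [h3] at this)
    exact ⟨rulesOf w, h4.1 h2, h3.symm⟩
  · rintro ⟨R, hR, rfl⟩
    obtain ⟨h3, h4⟩ := stParse.2 R
    refine ⟨h3, ?_⟩
    rw [h4]
    exact (stOrth _ R (stHt R)).2 hR

theorem ptime_instb : PTime instb := by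
  obtain ⟨h4, h5⟩ := stPTparse
  have h8 : PTime fun w : List Tok => w.length + 1 := by fun_prop
  have h9 : PTime fun w : List Tok => orthb (w.length + 1) (rulesOf w) :=
    PTime.comp (f := fun p : ℕ × Rules => orthb p.1 p.2)
      (g := fun w : List Tok => (w.length + 1, rulesOf w)) stPTorth (h8.pair h5)
  exact h4.and h9

theorem inP_orth : Hier.InP {w : List Tok | ∃ R : Rules, R.Orthogonal ∧ w = R.code} :=
  ⟨instb, ptime_tm' tr_bool_injective (F := fun w => [instb w])
    (PTime.cons ptime_instb (PTime.const [])) fun _ => rfl, instb_iff⟩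

end Pool.Agent.Lib.MP_ce3b04_lc.Up
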