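import Pool.Agent.Lib.MP_ce3b04_lc.Up.Core

/-!
# The closure of the states in polynomial time
-/

namespace Pool.Agent.Lib.MP_ce3b04_lc.Up

open Pool.Agent.Lib.PT Pool.Agent.Lib.MP_0b43f8_lc

/-- The operations on terms which are used. -/
structure Prims : Prop where
  inj : EncInj Tm
  pVar : PTime isVar
  pApp : PTime isApp
  pName : PTime name
  pArgs : PTime args
  pSubs : PTime fun p : ℕ × List Tm => subs p.1 p.2

namespace PTBaux

variable {α : Type} [Enc α]

theorem pt_hasSym (h : Prims) {s : α → ℕ × ℕ} {t : α → Tm} (hs : PTime s) (ht : PTime t) :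
    PTime fun a => hasSym (s a) (t a) := by
  unfold hasSym
  exact (h.pApp.comp ht).and (((h.pName.comp ht).natEq hs.fst').and
    ((h.pArgs.comp ht).length.natEq hs.snd'))

theorem pt_argsIn (h : Prims) {l : α → List Tm} {X : α → List (List Tm)} {i : α → ℕ}
    (hl : PTime l) (hX : PTime X) (hi : PTime i) : PTime fun a => argsIn (l a) (X a) (i a) := by
  have := h.inj
  unfold argsIn
  refine PTime.all hl.length.range ?_
  have h1 : PTime fun z : α × ℕ => decide (z.2 = i z.1) :=
    PTime.natEq PTime.snd (hi.comp PTime.fst)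
  have h2 : PTime fun z : α × ℕ => decide ((l z.1).getD z.2 .bul ∈ (X z.1).getD z.2 []) :=
    PTime.mem (PTime.getD (hX.comp PTime.fst) PTime.snd (PTime.const []))
      (PTime.getD (hl.comp PTime.fst) PTime.snd (PTime.const Tm.bul))
  exact h1.or h2

theorem pt_mset (h : Prims) {P : α → List Tm} {s : α → ℕ × ℕ} {X : α → List (List Tm)}
    (hP : PTime P) (hs : PTime s) (hX : PTime X) : PTime fun a => mset (P a) (s a) (X a) := by
  unfold mset
  refine PTime.filter hP ?_
  exact (h.pVar.comp PTime.snd).or ((pt_hasSym h (hs.comp PTime.fst) PTime.snd).and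
    (pt_argsIn h (h.pArgs.comp PTime.snd) (hX.comp PTime.fst) (hs.comp PTime.fst).snd'))

theorem pt_redexb (h : Prims) {LA : α → List Tm} {s : α → ℕ × ℕ} {X : α → List (List Tm)}
    (hL : PTime LA) (hs : PTime s) (hX : PTime X) :
    PTime fun a => redexb (LA a) (s a) (X a) := by
  unfold redexb
  refine PTime.any hL ?_
  exact (pt_hasSym h (hs.comp PTime.fst) PTime.snd).and
    (pt_argsIn h (h.pArgs.comp PTime.snd) (hX.comp PTime.fst) (hs.comp PTime.fst).snd')

theorem pt_qset (h : Prims) {LA P : α → List Tm} {s : α → ℕ × ℕ} {X : α → List (List Tm)}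
    (hL : PTime LA) (hP : PTime P) (hs : PTime s) (hX : PTime X) :
    PTime fun a => qset (LA a) (P a) (s a) (X a) := by
  unfold qset
  exact PTime.cond (pt_redexb h hL hs hX) hP (pt_mset h hP hs hX)

theorem pt_gset (h : Prims) {LA P G : α → List Tm} {s : α → ℕ × ℕ} {X : α → List (List Tm)}
    {i : α → ℕ} (hL : PTime LA) (hP : PTime P) (hs : PTime s) (hG : PTime G) (hX : PTime X)
    (hi : PTime i) : PTime fun a => gset (LA a) (P a) (s a) (G a) (X a) (i a) := by
  have := h.inj
  unfold gset
  refine PTime.cond (PTime.any hG (h.pVar.comp PTime.snd)) hP (PTime.filter hP ?_)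
  refine PTime.any (l := fun z : α × Tm => LA z.1 ++ G z.1)
    (f := fun (z : α × Tm) r => hasSym (s z.1) r && (decide ((args r).getD (i z.1) .bul = z.2) &&
      argsIn (args r) (X z.1) (i z.1))) ((hL.comp PTime.fst).append (hG.comp PTime.fst)) ?_
  have e : PTime fun w : (α × Tm) × Tm => w.1.1 := by fun_prop
  have h1 : PTime fun w : (α × Tm) × Tm => decide ((args w.2).getD (i w.1.1) .bul = w.1.2) :=
    PTime.eq (PTime.getD (h.pArgs.comp PTime.snd) (hi.comp e) (PTime.const Tm.bul))
      (by fun_prop)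
  exact (pt_hasSym h (hs.comp e) PTime.snd).and (h1.and
    (pt_argsIn h (h.pArgs.comp PTime.snd) (hX.comp e) (hi.comp e)))

/-! ### Sublists -/

/-- One step of `subl`. -/
def sstep (N : ℕ) (acc : List (List Tm)) (p : Tm) : List (List Tm) :=
  (acc ++ acc.map (p :: ·)).take N

theorem sstep_inv (N : ℕ) (l : List Tm) : (l.foldl (sstep N) [[]]).length ≤ N + 1 ∧
    ∀ x ∈ l.foldl (sstep N) [[]], x.Sublist l.reverse := by
  induction l using List.reverseRecOn with
  | nil => simp
  | append_singleton l p ih =>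
    rw [List.foldl_append]
    simp only [List.foldl_cons, List.foldl_nil]
    constructor
    · unfold sstep
      rw [List.length_take]
      omega
    · intro x hx
      have hx' := List.mem_of_mem_take hx
      rw [List.reverse_append]
      simp only [List.reverse_cons, List.reverse_nil, List.nil_append, List.singleton_append]
      rw [List.mem_append] at hx'
      rcases hx' with hx' | hx'
      · exact (ih.2 x hx').cons p
      · rw [List.mem_map] at hx'
        obtain ⟨y, hy, rfl⟩ := hx'
        exact (ih.2 y hy).cons_cons p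

theorem mem_subl {N : ℕ} {P x : List Tm} (hx : x ∈ subl N P) : x.Sublist P := by
  have := (sstep_inv N P.reverse).2 x hx
  rwa [List.reverse_reverse] at this

theorem sz_sublist {β : Type} [Enc β] {l l' : List β} (h : l.Sublist l') : sz l ≤ sz l' := by
  induction h with
  | slnil => exact le_rfl
  | cons a _ ih => rw [sz_cons]; omega
  | cons_cons a _ ih => rw [sz_cons, sz_cons]; omega

theorem pb_val {n : α → ℕ} (hn : PTime n) : PB n := by
  refine hn.sz_le.mono fun a => ?_
  rw [sz_nat]
  omega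

theorem pt_subl {N : α → ℕ} {P : α → List Tm} (hN : PTime N) (hP : PTime P) :
    PTime fun a => subl (N a) (P a) := by
  have hf : PTime fun p : α × List (List Tm) × Tm => sstep (N p.1) p.2.1 p.2.2 := by
    unfold sstep
    refine PTime.take (hN.comp PTime.fst) (PTime.append (by fun_prop) ?_)
    refine PTime.map (l := fun p : α × List (List Tm) × Tm => p.2.1)
      (f := fun (p : α × List (List Tm) × Tm) x => p.2.2 :: x) (by fun_prop) (by fun_prop)
  have hB : PB fun a => (N a + 1) * (sz (P a) + 1) + 1 :=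
    (((pb_val hN).add (PB.const 1)).mul (hP.sz_le.add (PB.const 1))).add (PB.const 1)
  refine PTime.foldl (l := fun a => (P a).reverse) (s := fun _ => [[]])
    (f := fun a acc p => sstep (N a) acc p) hP.reverse (PTime.const _) hf hB ?_
  intro a l₁ l₂ e
  obtain ⟨h1, h2⟩ := sstep_inv (N a) l₁
  refine (sz_le_of_forall (B := sz (P a)) fun x hx => ?_).trans ?_
  · refine sz_sublist ((h2 x hx).trans ?_)
    have e2 : P a = l₂.reverse ++ l₁.reverse := by
      rw [← List.reverse_append, ← e, List.reverse_reverse]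
    rw [e2]
    exact List.sublist_append_right _ _
  · exact Nat.add_le_add_right (Nat.mul_le_mul_right _ h1) 1

/-! ### The context -/

theorem pt_subs (h : Prims) {n : α → ℕ} {l : α → List Tm} (hn : PTime n) (hl : PTime l) :
    PTime fun a => subs (n a) (l a) :=
  h.pSubs.comp (g := fun a => (n a, l a)) (hn.pair hl)

theorem pt_lhss {R : α → Rules} (hR : PTime R) : PTime fun a => lhss (R a) := by
  unfold lhss
  exact PTime.map (f := fun _ (r : Tm × Tm) => r.1) hR (by fun_prop)

theorem pt_pats (h : Prims) {n : α → ℕ} {R : α → Rules} (hn : PTime n) (hR : PTime R) :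
    PTime fun a => pats (n a) (R a) := by
  unfold pats
  refine pt_subs h hn ?_
  exact PTime.flatMap (f := fun _ (t : Tm) => args t) (pt_lhss hR) (h.pArgs.comp PTime.snd)

theorem pt_symsL (h : Prims) {n : α → ℕ} {R : α → Rules} (hn : PTime n) (hR : PTime R) :
    PTime fun a => symsL (n a) (R a) := by
  unfold symsL
  have h1 : PTime fun a => subs (n a) ((R a).flatMap fun r => [r.1, r.2]) :=
    pt_subs h hn (PTime.flatMap (f := fun _ (r : Tm × Tm) => [r.1, r.2]) hR (by fun_prop))
  have h2 : PTime fun a => (subs (n a) ((R a).flatMap fun r => [r.1, r.2])).filter isApp :=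
    PTime.filter (f := fun _ t => isApp t) h1 (h.pApp.comp PTime.snd)
  exact PTime.map (f := fun _ (t : Tm) => (name t, (args t).length)) h2
    ((h.pName.comp PTime.snd).pair (h.pArgs.comp PTime.snd).length)

theorem pt_cxOf (h : Prims) {n N : α → ℕ} {R : α → Rules} (hn : PTime n) (hN : PTime N)
    (hR : PTime R) : PTime fun a => cxOf (n a) (N a) (R a) := by
  unfold cxOf
  exact (pt_lhss hR).pair ((pt_pats h hn hR).pair ((pt_symsL h hn hR).pair hN))

/-! ### The operations -/

theorem pt_initU (h : Prims) : PTime initU := by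
  unfold initU
  have hP : PTime fun c : Cx4 => c.2.1 := by fun_prop
  have hS : PTime fun c : Cx4 => subl c.2.2.2 c.2.1 := pt_subl (by fun_prop) hP
  have hV : PTime fun c : Cx4 => c.2.1.filter isVar :=
    PTime.filter (f := fun _ t => isVar t) hP (h.pVar.comp PTime.snd)
  refine PTime.append ?_ (PTime.append ?_ ?_)
  · refine PTime.map hS ?_
    have e : PTime fun z : Cx4 × List Tm => z.1.2.1.filter isVar := hV.comp PTime.fst
    fun_prop
  · refine PTime.cond (by fun_prop) (PTime.const []) ?_
    have h1 : PTime fun c : Cx4 => (subl c.2.2.2 c.2.1).filter fun G => G.any isVar := by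
      refine PTime.filter (f := fun _ G => G.any isVar) hS ?_
      exact PTime.any (f := fun _ t => isVar t) PTime.snd (h.pVar.comp PTime.snd)
    refine PTime.map h1 ?_
    have e : PTime fun z : Cx4 × List Tm => z.1.2.1.filter isVar := hV.comp PTime.fst
    fun_prop
  · refine PTime.flatMap (f := fun (c : Cx4) s => (subl c.2.2.2 c.2.1).map fun G =>
      ((some s, G, [], false) : St)) (by fun_prop) ?_
    refine PTime.map (l := fun z : Cx4 × (ℕ × ℕ) => subl z.1.2.2.2 z.1.2.1)
      (f := fun (z : Cx4 × (ℕ × ℕ)) G => ((some z.2, G, [], false) : St))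
      (hS.comp PTime.fst) (by fun_prop)

theorem pt_unU (h : Prims) : PTime fun p : Cx4 × St => unU p.1 p.2 := by
  have := h.inj
  have hm : PTime fun z : (Cx4 × St) × (ℕ × ℕ) => z.1.2.2.2.1.map fun y : Tr3 => y.1 :=
    PTime.map (l := fun z : (Cx4 × St) × (ℕ × ℕ) => z.1.2.2.2.1)
      (f := fun _ (y : Tr3) => y.1) (by fun_prop) (by fun_prop)
  have hq : PTime fun z : (Cx4 × St) × (ℕ × ℕ) => z.1.2.2.2.1.map fun y : Tr3 => y.2.1 :=
    PTime.map (l := fun z : (Cx4 × St) × (ℕ × ℕ) => z.1.2.2.2.1)
      (f := fun _ (y : Tr3) => y.2.1) (by fun_prop) (by fun_prop)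
  have hL : PTime fun z : (Cx4 × St) × (ℕ × ℕ) => z.1.1.1 := by fun_prop
  have hP : PTime fun z : (Cx4 × St) × (ℕ × ℕ) => z.1.1.2.1 := by fun_prop
  have hG : PTime fun z : (Cx4 × St) × (ℕ × ℕ) => z.1.2.2.1 := by fun_prop
  have hs : PTime fun z : (Cx4 × St) × (ℕ × ℕ) => z.2 := by fun_prop
  have h1 : PTime fun z : (Cx4 × St) × (ℕ × ℕ) => decide (z.1.2.2.2.1.length = z.2.2) := by
    fun_prop
  have h2 := (pt_redexb h hL hs hm).not
  have h3 : PTime fun z : (Cx4 × St) × (ℕ × ℕ) => (List.range z.2.2).all fun i =>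
      decide ((z.1.2.2.2.1.getD i (([], [], []) : Tr3)).2.2 =
        gset z.1.1.1 z.1.1.2.1 z.2 z.1.2.2.1 (z.1.2.2.2.1.map fun y : Tr3 => y.2.1) i) := by
    refine PTime.all (l := fun z : (Cx4 × St) × (ℕ × ℕ) => List.range z.2.2)
      (f := fun (z : (Cx4 × St) × (ℕ × ℕ)) i =>
        decide ((z.1.2.2.2.1.getD i (([], [], []) : Tr3)).2.2 =
          gset z.1.1.1 z.1.1.2.1 z.2 z.1.2.2.1 (z.1.2.2.2.1.map fun y : Tr3 => y.2.1) i))
      (by fun_prop) ?_
    refine PTime.eq (by fun_prop) ?_
    exact pt_gset h (hL.comp PTime.fst) (hP.comp PTime.fst) (hs.comp PTime.fst)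
      (hG.comp PTime.fst) (hq.comp PTime.fst) PTime.snd
  have hres : PTime fun z : (Cx4 × St) × (ℕ × ℕ) =>
      ([(none, z.1.2.2.1, [(mset z.1.1.2.1 z.2 (z.1.2.2.2.1.map fun y : Tr3 => y.1),
        qset z.1.1.1 z.1.1.2.1 z.2 (z.1.2.2.2.1.map fun y : Tr3 => y.2.1), [])],
          z.1.2.2.2.2)] : List St) := by
    have e1 := pt_mset h hP hs hm
    have e2 := pt_qset h hL hP hs hq
    fun_prop
  refine PTime.optionCases (o := fun p : Cx4 × St => p.2.1) (f := fun _ => ([] : List St))
    (g := fun z : (Cx4 × St) × (ℕ × ℕ) => bif decide (z.1.2.2.2.1.length = z.2.2) &&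
      (!(redexb z.1.1.1 z.2 (z.1.2.2.2.1.map fun y : Tr3 => y.1)) &&
        (List.range z.2.2).all fun i =>
        decide ((z.1.2.2.2.1.getD i (([], [], []) : Tr3)).2.2 =
          gset z.1.1.1 z.1.1.2.1 z.2 z.1.2.2.1 (z.1.2.2.2.1.map fun y : Tr3 => y.2.1) i)) then
      ([(none, z.1.2.2.1, [(mset z.1.1.2.1 z.2 (z.1.2.2.2.1.map fun y : Tr3 => y.1),
        qset z.1.1.1 z.1.1.2.1 z.2 (z.1.2.2.2.1.map fun y : Tr3 => y.2.1), [])],
          z.1.2.2.2.2)] : List St) else []) (by fun_prop) (PTime.const _)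
    (PTime.cond (h1.and (h2.and h3)) hres (PTime.const [])) ?_ ?_
  · rintro ⟨c, o, x⟩ he
    simp only at he
    subst he
    rfl
  · rintro ⟨c, o, x⟩ s he
    simp only at he
    subst he
    rfl

theorem pt_binU : PTime fun p : Cx4 × St × St => binU p.1 p.2.1 p.2.2 := by
  have hb : PTime fun z : (Cx4 × St × St) × (ℕ × ℕ) =>
      !(z.1.2.2.1.isSome) && decide (z.1.2.1.2.2.1.length < z.2.2) := by fun_prop
  have hres : PTime fun z : (Cx4 × St × St) × (ℕ × ℕ) =>
      ([(some z.2, z.1.2.1.2.1, z.1.2.1.2.2.1 ++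
        [((z.1.2.2.2.2.1.headD (([], [], []) : Tr3)).1,
          (z.1.2.2.2.2.1.headD (([], [], []) : Tr3)).2.1, z.1.2.2.2.1)],
        z.1.2.1.2.2.2 || z.1.2.2.2.2.2)] : List St) := by fun_prop
  refine PTime.optionCases (o := fun p : Cx4 × St × St => p.2.1.1) (f := fun _ => ([] : List St))
    (g := fun z : (Cx4 × St × St) × (ℕ × ℕ) =>
      bif !(z.1.2.2.1.isSome) && decide (z.1.2.1.2.2.1.length < z.2.2) then
      ([(some z.2, z.1.2.1.2.1, z.1.2.1.2.2.1 ++
        [((z.1.2.2.2.2.1.headD (([], [], []) : Tr3)).1,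
          (z.1.2.2.2.2.1.headD (([], [], []) : Tr3)).2.1, z.1.2.2.2.1)],
        z.1.2.1.2.2.2 || z.1.2.2.2.2.2)] : List St) else []) (by fun_prop) (PTime.const _)
    (PTime.cond hb hres (PTime.const [])) ?_ ?_
  · rintro ⟨c, ⟨o, x⟩, y⟩ he
    simp only at he
    subst he
    rfl
  · rintro ⟨c, ⟨o, x⟩, y⟩ s he
    simp only at he
    subst he
    rfl

/-! ### The closure -/

/-- The list of one round. -/
noncomputable def rnd (x : Cx4 × List St) : List St :=
  x.2 ++ (initU x.1 ++ (x.2.flatMap (unU x.1) ++ x.2.flatMap fun s => x.2.flatMap (binU x.1 s)))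

theorem pt_rnd (h : Prims) : PTime rnd := by
  have e1 : PTime fun x : Cx4 × List St => initU x.1 := (pt_initU h).comp PTime.fst
  have e2 : PTime fun x : Cx4 × List St => x.2.flatMap (unU x.1) := by
    refine PTime.flatMap (f := fun (x : Cx4 × List St) s => unU x.1 s) (by fun_prop) ?_
    exact (pt_unU h).comp (g := fun y : (Cx4 × List St) × St => (y.1.1, y.2)) (by fun_prop)
  have e3 : PTime fun x : Cx4 × List St =>
      x.2.flatMap fun s => x.2.flatMap (binU x.1 s) := by
    refine PTime.flatMap (f := fun (x : Cx4 × List St) s => x.2.flatMap (binU x.1 s))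
      (by fun_prop) ?_
    refine PTime.flatMap (l := fun y : (Cx4 × List St) × St => y.1.2)
      (f := fun (y : (Cx4 × List St) × St) t => binU y.1.1 y.2 t) (by fun_prop) ?_
    exact pt_binU.comp (g := fun z : ((Cx4 × List St) × St) × St =>
      (z.1.1.1, z.1.2, z.2)) (by fun_prop)
  exact PTime.append (by fun_prop) (PTime.append e1 (PTime.append e2 e3))

/-- One step. -/
noncomputable def stp (c : Cx4) : List St → List St :=
  stepG (initU c) (unU c) (binU c) c.2.2.2

theorem stp_eq (c : Cx4) (S : List St) : stp c S =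
    bif decide ((rnd (c, S)).dedup.length ≤ c.2.2.2) then (rnd (c, S)).dedup else S := rfl

theorem pt_stp (h : Prims) : PTime fun x : Cx4 × List St => stp x.1 x.2 := by
  have := h.inj
  have e := PTime.dedup (pt_rnd h)
  have e1 : PTime fun x : Cx4 × List St => decide ((rnd x).dedup.length ≤ x.1.2.2.2) := by
    have e2 := e.length
    fun_prop
  exact PTime.cond e1 e (by fun_prop)

/-- The form of the states. -/
def IsU (c : Cx4) (x : St) : Prop :=
  (x.1 = none ∨ ∃ s ∈ c.2.2.1, x.1 = some s) ∧ x.2.1.Sublist c.2.1 ∧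
    (∀ y ∈ x.2.2.1, y.1.Sublist c.2.1 ∧ y.2.1.Sublist c.2.1 ∧ y.2.2.Sublist c.2.1) ∧
    x.2.2.1.length ≤ sz c.2.2.1 + 1

theorem isU_init {c : Cx4} {x : St} (hx : x ∈ initU c) : IsU c x := by
  unfold initU at hx
  rw [List.mem_append, List.mem_append] at hx
  have hV : (c.2.1.filter isVar).Sublist c.2.1 := List.filter_sublist
  rcases hx with hx | hx | hx
  · rw [List.mem_map] at hx
    obtain ⟨G, hG, rfl⟩ := hx
    refine ⟨Or.inl rfl, mem_subl hG, ?_, ?_⟩
    · intro y hy
      simp only [List.mem_singleton] at hy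
      subst hy
      exact ⟨hV, hV, List.nil_sublist _⟩
    · simp
  · cases hb : c.1.isEmpty with
    | true => simp [hb] at hx
    | false =>
      rw [hb, cond_false, List.mem_map] at hx
      obtain ⟨G, hG, rfl⟩ := hx
      refine ⟨Or.inl rfl, mem_subl (List.mem_filter.1 hG).1, ?_, ?_⟩
      · intro y hy
        simp only [List.mem_singleton] at hy
        subst hy
        exact ⟨hV, List.Sublist.refl _, List.nil_sublist _⟩
      · simp
  · rw [List.mem_flatMap] at hx
    obtain ⟨s, hs, hx⟩ := hx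
    rw [List.mem_map] at hx
    obtain ⟨G, hG, rfl⟩ := hx
    exact ⟨Or.inr ⟨s, hs, rfl⟩, mem_subl hG, fun y hy => by simp at hy, by simp⟩

theorem isU_un {c : Cx4} {x z : St} (h : IsU c x) (hz : z ∈ unU c x) : IsU c z := by
  obtain ⟨o, G, L, b⟩ := x
  cases o with
  | none => simp [unU] at hz
  | some s =>
    unfold unU at hz
    simp only at hz
    rw [Bool.cond_eq_ite] at hz
    split_ifs at hz with hc
    · rw [List.mem_singleton] at hz
      subst hz
      refine ⟨Or.inl rfl, h.2.1, ?_, by simp⟩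
      intro y hy
      simp only [List.mem_singleton] at hy
      subst hy
      refine ⟨List.filter_sublist, ?_, List.nil_sublist _⟩
      unfold qset
      rw [Bool.cond_eq_ite]
      split_ifs
      · exact List.Sublist.refl _
      · exact List.filter_sublist
    · simp at hz

theorem isU_bin {c : Cx4} {x y z : St} (h : IsU c x) (h' : IsU c y) (hz : z ∈ binU c x y) :
    IsU c z := by
  obtain ⟨o, G, L, b⟩ := x
  cases o with
  | none => simp [binU] at hz
  | some s =>
    unfold binU at hz
    simp only at hz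
    rw [Bool.cond_eq_ite] at hz
    split_ifs at hz with hc
    · rw [List.mem_singleton] at hz
      subst hz
      have hs : s ∈ c.2.2.1 := by
        rcases h.1 with h1 | ⟨s', hs', h1⟩
        · simp at h1
        · simp only [Option.some.injEq] at h1
          rw [h1]
          exact hs'
      rw [Bool.and_eq_true, decide_eq_true_eq] at hc
      refine ⟨Or.inr ⟨s, hs, rfl⟩, h.2.1, ?_, ?_⟩
      · intro w hw
        simp only [List.mem_append, List.mem_singleton] at hw
        rcases hw with hw | hw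
        · exact h.2.2.1 w hw
        · subst hw
          have hy : (y.2.2.1.headD (([], [], []) : Tr3)).1.Sublist c.2.1 ∧
              (y.2.2.1.headD (([], [], []) : Tr3)).2.1.Sublist c.2.1 := by
            cases hl : y.2.2.1 with
            | nil => exact ⟨List.nil_sublist _, List.nil_sublist _⟩
            | cons w t =>
              have := h'.2.2.1 w (by rw [hl]; exact List.mem_cons_self)
              exact ⟨this.1, this.2.1⟩
          exact ⟨hy.1, hy.2, h'.2.1⟩
      · have h1 : sz s ≤ sz c.2.2.1 := sz_mem_le hs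
        have h2 : sz s = sz s.1 + sz s.2 + 1 := rfl
        have h3 := hc.2
        rw [sz_nat, sz_nat] at h2
        simp only [List.length_append, List.length_singleton]
        omega
    · simp at hz

theorem isU_rnd (c : Cx4) (S : List St) (h : ∀ s ∈ S, IsU c s) : ∀ s ∈ rnd (c, S), IsU c s := by
  intro s hs
  unfold rnd at hs
  rw [List.mem_append, List.mem_append, List.mem_append] at hs
  rcases hs with hs | hs | hs | hs
  · exact h s hs
  · exact isU_init hs
  · rw [List.mem_flatMap] at hs
    obtain ⟨t, ht, hs⟩ := hs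
    exact isU_un (h t ht) hs
  · rw [List.mem_flatMap] at hs
    obtain ⟨t, ht, hs⟩ := hs
    rw [List.mem_flatMap] at hs
    obtain ⟨t', ht', hs⟩ := hs
    exact isU_bin (h t ht) (h t' ht') hs

theorem stp_inv (c : Cx4) (i : ℕ) : ((stp c)^[i] []).length ≤ c.2.2.2 ∧
    ∀ s ∈ (stp c)^[i] [], IsU c s := by
  induction i with
  | zero => exact ⟨Nat.zero_le _, fun s hs => absurd hs List.not_mem_nil⟩
  | succ i ih =>
    rw [Function.iterate_succ_apply', stp_eq]
    set S := (stp c)^[i] [] with hS
    by_cases h : (rnd (c, S)).dedup.length ≤ c.2.2.2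
    · rw [decide_eq_true h, cond_true]
      refine ⟨h, fun s hs => ?_⟩
      rw [List.mem_dedup] at hs
      exact isU_rnd c S ih.2 s hs
    · rw [decide_eq_false h, cond_false]
      exact ih

/-- The bound of the size of a state. -/
def bnd (c : Cx4) : ℕ := (sz c.2.2.1 + 2) + (sz c.2.1 +
  (((sz c.2.2.1 + 1) * (3 * sz c.2.1 + 2 + 1) + 1) + 3 + 1) + 1) + 1

theorem sz_isU {c : Cx4} {x : St} (h : IsU c x) : sz x ≤ bnd c := by
  obtain ⟨o, G, L, b⟩ := x
  obtain ⟨h1, h2, h3, h4⟩ := h
  simp only at h1 h2 h3 h4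
  rw [sz_mk, sz_mk, sz_mk]
  have e1 : sz o ≤ sz c.2.2.1 + 2 := by
    rcases h1 with rfl | ⟨s, hs, rfl⟩
    · have : sz (none : Option (ℕ × ℕ)) = 1 := rfl
      omega
    · have h5 : sz (some s : Option (ℕ × ℕ)) = 1 + sz s + 1 := rfl
      have h6 : sz s ≤ sz c.2.2.1 := sz_mem_le hs
      omega
  have e2 : sz G ≤ sz c.2.1 := sz_sublist h2
  have e3 : sz L ≤ L.length * (3 * sz c.2.1 + 2 + 1) + 1 := by
    refine sz_le_of_forall fun y hy => ?_
    obtain ⟨y1, y2, y3⟩ := y
    obtain ⟨a1, a2, a3⟩ := h3 _ hy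
    have := sz_sublist a1
    have := sz_sublist a2
    have := sz_sublist a3
    simp only at *
    rw [sz_mk, sz_mk]
    omega
  have e4 := Nat.mul_le_mul_right (3 * sz c.2.1 + 2 + 1) h4
  have e5 := sz_bool b
  unfold bnd
  omega

theorem pb_bnd : PB bnd := by
  unfold bnd
  have hS : PB fun c : Cx4 => sz c.2.2.1 :=
    (show PTime fun c : Cx4 => c.2.2.1 by fun_prop).sz_le
  have hP : PB fun c : Cx4 => sz c.2.1 :=
    (show PTime fun c : Cx4 => c.2.1 by fun_prop).sz_le
  exact ((hS.add (PB.const 2)).add ((hP.add (((((hS.add (PB.const 1)).mul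
    ((((PB.const 3).mul hP).add (PB.const 2)).add (PB.const 1))).add (PB.const 1)).add
      (PB.const 3)).add (PB.const 1))).add (PB.const 1))).add (PB.const 1)

/-- The closure. -/
noncomputable def clo (c : Cx4) : List St := closG (initU c) (unU c) (binU c) c.2.2.2

theorem pt_clo (h : Prims) : PTime clo := by
  have hN : PTime fun c : Cx4 => c.2.2.2 := by fun_prop
  have hB : PB fun c : Cx4 => c.2.2.2 * (bnd c + 1) + 1 :=
    ((pb_val hN).mul (pb_bnd.add (PB.const 1))).add (PB.const 1)
  refine PTime.iterate (n := fun c : Cx4 => c.2.2.2) (s := fun _ => ([] : List St))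
    (f := fun c S => stp c S) hN (PTime.const _) (pt_stp h) hB ?_
  intro c i _
  obtain ⟨h5, h6⟩ := stp_inv c i
  refine (sz_le_of_forall (B := bnd c) fun s hs => sz_isU (h6 s hs)).trans ?_
  exact Nat.add_le_add_right (Nat.mul_le_mul_right _ h5) 1

end PTBaux

open PTBaux in
theorem stPTss_of (h : Prims) : StPTss := by
  have h1 : PTime fun p : (ℕ × ℕ) × Rules => clo (cxOf p.1.1 p.1.2 p.2) :=
    (pt_clo h).comp (pt_cxOf h (n := fun p : (ℕ × ℕ) × Rules => p.1.1)
      (N := fun p => p.1.2) (R := fun p => p.2) (by fun_prop) (by fun_prop) (by fun_prop))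
  have h2 : PTime badU := by
    unfold badU
    fun_prop
  exact (PTime.any (f := fun _ x => badU x) h1 (h2.comp PTime.snd)).not

end Pool.Agent.Lib.MP_ce3b04_lc.Up
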