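import Pool.Agent.Lib.MP_ce3b04_lc.Up.Core

/-!
# Arbitrary reduction of untyped terms: general facts
-/

open Relation

namespace Pool.Agent.Lib.MP_ce3b04_lc.Up

section red

variable {R : Rules}

theorem step_of_redex {t : Tm} (h : R.IsRedex t) {u : Tm} (hu : R.Over u) : R.Step t u :=
  ⟨.hole, t, u, h, hu, rfl, rfl⟩

theorem step_arg {f k : ℕ} {a : Fin k → Tm} {i : Fin k} {b : Tm}
    (h : R.Step (a i) b) : R.Step (.app f k a) (.app f k (Function.update a i b)) := by
  obtain ⟨C, Δ, u, h1, h0, h2, h3⟩ := h
  refine ⟨.arg f k a i C, Δ, u, h1, h0, ?_, ?_⟩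
  · simp only [Cx.fill]
    rw [← h2, Function.update_eq_self]
  · simp only [Cx.fill]
    rw [← h3]

theorem step_cases {t s : Tm} (h : R.Step t s) :
    R.IsRedex t ∨ ∃ (f k : ℕ) (a : Fin k → Tm) (i : Fin k) (b : Tm),
      t = .app f k a ∧ R.Step (a i) b ∧ s = .app f k (Function.update a i b) := by
  obtain ⟨C, Δ, u, h1, h0, rfl, rfl⟩ := h
  cases C with
  | hole => exact Or.inl h1
  | arg f k a i C =>
    refine Or.inr ⟨f, k, Function.update a i (C.fill Δ), i, C.fill u, rfl, ?_, ?_⟩
    · rw [Function.update_self]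
      exact ⟨C, Δ, u, h1, h0, rfl, rfl⟩
    · simp [Cx.fill]

/-- `t` can be reduced to a redex. -/
def Flex (R : Rules) (t : Tm) : Prop := ∃ s, ReflTransGen R.Step t s ∧ R.IsRedex s

theorem flex_of_redex {t : Tm} (h : R.IsRedex t) : Flex R t := ⟨t, .refl, h⟩

theorem Flex.any {t : Tm} (h : Flex R t) {u : Tm} (hu : R.Over u) :
    ReflTransGen R.Step t u := by
  obtain ⟨s, h1, h2⟩ := h
  exact h1.tail (step_of_redex h2 hu)

theorem Flex.of_steps {t s : Tm} (h : ReflTransGen R.Step t s) (hs : Flex R s) :
    Flex R t := by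
  obtain ⟨u, h1, h2⟩ := hs
  exact ⟨u, h.trans h1, h2⟩

theorem steps_arg {f k : ℕ} {a : Fin k → Tm} {i : Fin k} {b : Tm}
    (h : ReflTransGen R.Step (a i) b) :
    ReflTransGen R.Step (.app f k a) (.app f k (Function.update a i b)) := by
  induction h with
  | refl => rw [Function.update_eq_self]
  | tail _ h2 ih =>
    refine ih.tail ?_
    rename_i b c _
    have := step_arg (f := f) (a := Function.update a i b) (i := i) (b := c)
      (by rw [Function.update_self]; exact h2)
    rwa [Function.update_idem] at this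

theorem steps_update {f k : ℕ} {a : Fin k → Tm} {i : Fin k} {u w : Tm}
    (h : ReflTransGen R.Step u w) :
    ReflTransGen R.Step (.app f k (Function.update a i u)) (.app f k (Function.update a i w)) := by
  have := steps_arg (f := f) (a := Function.update a i u) (i := i) (b := w)
    (by rw [Function.update_self]; exact h)
  rwa [Function.update_idem] at this

theorem steps_fill (C : Cx) {u w : Tm} (h : ReflTransGen R.Step u w) :
    ReflTransGen R.Step (C.fill u) (C.fill w) := by
  induction C with
  | hole => exact h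
  | arg f k a i C ih => exact steps_update ih

theorem steps_args {f k : ℕ} {a b : Fin k → Tm}
    (h : ∀ i, ReflTransGen R.Step (a i) (b i)) :
    ReflTransGen R.Step (.app f k a) (.app f k b) := by
  have key : ∀ s : Finset (Fin k),
      ReflTransGen R.Step (.app f k a) (.app f k (s.piecewise b a)) := by
    intro s
    induction s using Finset.induction_on with
    | empty => simp only [Finset.piecewise_empty]; exact .refl
    | insert i s hi ih =>
      refine ih.trans ?_
      rw [Finset.piecewise_insert]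
      refine steps_arg ?_
      rw [Finset.piecewise_eq_of_notMem _ _ _ hi]
      exact h i
  have := key Finset.univ
  rwa [Finset.piecewise_univ] at this

theorem app_inj {f k g j : ℕ} {a : Fin k → Tm} {b : Fin j → Tm}
    (h : Tm.app f k a = Tm.app g j b) : f = g ∧ k = j ∧ HEq a b := by
  simpa only [Tm.app.injEq] using h

theorem sim_of_steps {t s : Tm} (h : ReflTransGen R.Step t s) :
    Flex R t ∨ t = s ∨ ∃ (f k : ℕ) (a b : Fin k → Tm),
      t = .app f k a ∧ s = .app f k b ∧ ∀ i, ReflTransGen R.Step (a i) (b i) := by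
  induction h using ReflTransGen.head_induction_on with
  | refl => exact Or.inr (Or.inl rfl)
  | head h1 h2 ih =>
    rename_i t t'
    rcases step_cases h1 with h3 | ⟨f, k, a, i, b, rfl, h3, rfl⟩
    · exact Or.inl (flex_of_redex h3)
    · rcases ih with h4 | h4 | ⟨g, l, a', b', h4, h5, h6⟩
      · exact Or.inl (h4.of_steps (.single h1))
      · subst h4
        refine Or.inr (Or.inr ⟨f, k, a, _, rfl, rfl, ?_⟩)
        intro j
        by_cases hj : j = i
        · subst hj; rw [Function.update_self]; exact .single h3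
        · rw [Function.update_of_ne hj]
      · obtain ⟨rfl, rfl, h4⟩ := app_inj h4
        have h4 := eq_of_heq h4
        subst h4
        refine Or.inr (Or.inr ⟨f, k, a, b', rfl, h5, ?_⟩)
        intro j
        have h7 := h6 j
        by_cases hj : j = i
        · subst hj; rw [Function.update_self] at h7; exact h7.head h3
        · rwa [Function.update_of_ne hj] at h7

theorem flex_app_iff {f k : ℕ} {a : Fin k → Tm} :
    Flex R (.app f k a) ↔
      ∃ a', (∀ i, ReflTransGen R.Step (a i) (a' i)) ∧ R.IsRedex (.app f k a') := by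
  constructor
  · rintro ⟨s, h1, h2⟩
    generalize ht : Tm.app f k a = t at h1
    induction h1 using ReflTransGen.head_induction_on generalizing a with
    | refl => subst ht; exact ⟨a, fun _ => .refl, h2⟩
    | head h3 h4 ih =>
      subst ht
      rcases step_cases h3 with h5 | ⟨g, l, a1, i, b, h5, h6, h7⟩
      · exact ⟨a, fun _ => .refl, h5⟩
      · obtain ⟨rfl, rfl, h5⟩ := app_inj h5
        have h5 := eq_of_heq h5
        subst h5
        obtain ⟨a', h8, h9⟩ := ih h7.symm
        refine ⟨a', ?_, h9⟩
        intro j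
        have h10 := h8 j
        by_cases hj : j = i
        · subst hj; rw [Function.update_self] at h10; exact h10.head h6
        · rwa [Function.update_of_ne hj] at h10
  · rintro ⟨a', h1, h2⟩
    exact ⟨_, steps_args h1, h2⟩

/-- The symbols of a substituted term. -/
theorem syms_arg {f k : ℕ} {a : Fin k → Tm} (i : Fin k) : (a i).syms ⊆ (Tm.app f k a).syms :=
  fun _ hs => Or.inr ⟨i, hs⟩

theorem over_app {f k : ℕ} {a : Fin k → Tm} :
    R.Over (.app f k a) ↔ (f, k) ∈ R.Sig ∧ ∀ i, R.Over (a i) := by
  constructor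
  · intro h
    exact ⟨h (Or.inl rfl), fun i => (syms_arg i).trans h⟩
  · rintro ⟨h1, h2⟩ s (rfl | ⟨i, hs⟩)
    · exact h1
    · exact h2 i hs

theorem over_var (n : ℕ) : R.Over (.var n) := fun _ h => h.elim

theorem over_bul : R.Over .bul := fun _ h => h.elim

theorem Over.arg {f k : ℕ} {a : Fin k → Tm} (h : R.Over (.app f k a)) (i : Fin k) :
    R.Over (a i) := (over_app.1 h).2 i

theorem subst_id (t : Tm) : t.subst Tm.var = t := by
  induction t with
  | var n => rfl
  | bul => rfl
  | app f k a ih => simp only [Tm.subst, ih]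

variable (hT : R.IsTRS)

include hT

theorem not_redex_bul : ¬ R.IsRedex .bul := by
  rintro ⟨r, hr, σ, h⟩
  obtain ⟨h1, -, h2, -⟩ := hT r hr
  cases hl : r.1 with
  | var n => exact h2 n hl
  | bul => rw [hl] at h1; exact h1
  | app f k a => rw [hl] at h; simp [Tm.subst] at h

theorem not_redex_var (n : ℕ) : ¬ R.IsRedex (.var n) := by
  rintro ⟨r, hr, σ, h⟩
  obtain ⟨h1, -, h2, -⟩ := hT r hr
  cases hl : r.1 with
  | var n => exact h2 n hl
  | bul => rw [hl] at h1; exact h1
  | app f k a => rw [hl] at h; simp [Tm.subst] at h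

theorem no_step_bul (s : Tm) : ¬ R.Step .bul s := by
  intro h
  rcases step_cases h with h5 | ⟨f, k, a, i, b', h5, _⟩
  · exact not_redex_bul hT h5
  · cases h5

theorem no_step_var (n : ℕ) (s : Tm) : ¬ R.Step (.var n) s := by
  intro h
  rcases step_cases h with h5 | ⟨f, k, a, i, b', h5, _⟩
  · exact not_redex_var hT n h5
  · cases h5

theorem steps_bul {s : Tm} (h : ReflTransGen R.Step .bul s) : s = .bul := by
  rcases ReflTransGen.cases_head h with h | ⟨c, h, _⟩
  · exact h.symm
  · exact absurd h (no_step_bul hT c)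

theorem steps_var {n : ℕ} {s : Tm} (h : ReflTransGen R.Step (.var n) s) : s = .var n := by
  rcases ReflTransGen.cases_head h with h | ⟨c, h, _⟩
  · exact h.symm
  · exact absurd h (no_step_var hT n c)

theorem not_flex_bul : ¬ Flex R .bul := by
  rintro ⟨s, h1, h2⟩
  rw [steps_bul hT h1] at h2
  exact not_redex_bul hT h2

theorem not_flex_var (n : ℕ) : ¬ Flex R (.var n) := by
  rintro ⟨s, h1, h2⟩
  rw [steps_var hT h1] at h2
  exact not_redex_var hT n h2

theorem isNF_var (n : ℕ) : R.IsNF (.var n) := by
  intro C Δ h hΔ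
  cases C with
  | hole => simp only [Cx.fill] at h; subst h; exact not_redex_var hT n hΔ
  | arg f k a i C => simp [Cx.fill] at h

omit hT in
theorem isNF_app_iff {f k : ℕ} {a : Fin k → Tm} :
    R.IsNF (.app f k a) ↔ ¬ R.IsRedex (.app f k a) ∧ ∀ i, R.IsNF (a i) := by
  constructor
  · intro h
    refine ⟨h .hole _ rfl, ?_⟩
    intro i C Δ h1 h2
    refine h (.arg f k a i C) Δ ?_ h2
    simp only [Cx.fill]
    rw [← h1, Function.update_eq_self]
  · rintro ⟨h1, h2⟩ C Δ h3 h4
    cases C with
    | hole => simp only [Cx.fill] at h3; subst h3; exact h1 h4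
    | arg g l b i C =>
      simp only [Cx.fill] at h3
      obtain ⟨rfl, rfl, h3⟩ := app_inj h3
      have h3 := eq_of_heq h3
      subst h3
      have := h2 i
      rw [Function.update_self] at this
      exact this C Δ rfl h4

/-- A context is safe if no subterm containing the hole, filled with `•`, can be reduced to a
redex. -/
def Safe (R : Rules) : Cx → Prop
  | .hole => True
  | .arg f k a i C => Safe R C ∧ ¬ Flex R (Cx.fill (.arg f k a i C) .bul)

theorem Safe.not_bulFree {C : Cx} (h : Safe R C) {s : Tm}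
    (hs : ReflTransGen R.Step (C.fill .bul) s) : ¬ s.BulFree := by
  induction C generalizing s with
  | hole =>
    rw [steps_bul hT hs]
    exact fun h => h
  | arg f k a i C ih =>
    rcases sim_of_steps hs with h1 | h1 | ⟨g, l, b, b', h1, h2, h3⟩
    · exact absurd h1 h.2
    · rw [← h1]
      simp only [Cx.fill, Tm.BulFree]
      intro h2
      have := h2 i
      rw [Function.update_self] at this
      exact ih h.1 .refl this
    · subst h2
      simp only [Cx.fill] at h1
      obtain ⟨rfl, rfl, h1⟩ := app_inj h1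
      have h1 := eq_of_heq h1
      subst h1
      intro h4
      have h5 := h3 i
      rw [Function.update_self] at h5
      exact ih h.1 h5 (h4 i)

theorem Safe.stronglyNeeded {C : Cx} (h : Safe R C) : R.StronglyNeeded (C.fill .bul) :=
  fun _ hs _ => h.not_bulFree hT hs

omit hT in
theorem fill_bulFree {C : Cx} {t u : Tm} (h : (C.fill t).BulFree)
    (hu : u.BulFree) : (C.fill u).BulFree := by
  induction C with
  | hole => exact hu
  | arg f k a i C ih =>
    simp only [Cx.fill, Tm.BulFree] at h ⊢
    intro j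
    by_cases hj : j = i
    · subst hj
      have := h j
      rw [Function.update_self] at this ⊢
      exact ih this
    · have := h j
      rwa [Function.update_of_ne hj] at this ⊢

omit hT in
theorem bulFree_of_fill {C : Cx} {t : Tm} (h : (C.fill t).BulFree) : t.BulFree := by
  induction C with
  | hole => exact h
  | arg f k a i C ih =>
    simp only [Cx.fill, Tm.BulFree] at h
    have := h i
    rw [Function.update_self] at this
    exact ih this

omit hT in
theorem over_of_fill {C : Cx} {t : Tm} (h : R.Over (C.fill t)) : R.Over t := by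
  induction C with
  | hole => exact h
  | arg f k a i C ih =>
    have := Over.arg h i
    rw [Function.update_self] at this
    exact ih this

/-- The number of occurrences of function symbols. -/
def napp : Tm → ℕ
  | .var _ => 0
  | .bul => 0
  | .app _ _ a => 1 + ∑ i, napp (a i)

omit hT in
theorem napp_fill_lt {C : Cx} {t u : Tm} (h : napp u < napp t) :
    napp (C.fill u) < napp (C.fill t) := by
  induction C with
  | hole => exact h
  | arg f k a i C ih =>
    simp only [Cx.fill, napp]
    have : ∀ v : Tm, ∑ j, napp (Function.update a i v j)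
        = napp v + ∑ j ∈ Finset.univ.erase i, napp (a j) := by
      intro v
      rw [← Finset.add_sum_erase Finset.univ _ (Finset.mem_univ i), Function.update_self]
      congr 1
      refine Finset.sum_congr rfl ?_
      intro j hj
      rw [Function.update_of_ne (Finset.ne_of_mem_erase hj)]
    rw [this, this]
    omega

/-- Every term without `•` can be reduced to a normal form without `•`. -/
theorem exists_nf (t : Tm) (ht : t.BulFree) :
    ∃ s, ReflTransGen R.Step t s ∧ R.IsNF s ∧ s.BulFree := by
  induction hn : napp t using Nat.strong_induction_on generalizing t with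
  | _ n ih =>
    by_cases hNF : R.IsNF t
    · exact ⟨t, .refl, hNF, ht⟩
    · unfold Rules.IsNF at hNF
      push Not at hNF
      obtain ⟨C, Δ, rfl, h⟩ := hNF
      have h1 : napp (Tm.var 0) < napp Δ := by
        cases Δ with
        | var n => exact absurd h (not_redex_var hT n)
        | bul => exact absurd h (not_redex_bul hT)
        | app f k a => simp only [napp]; omega
      have h2 := napp_fill_lt (C := C) h1
      obtain ⟨s, h3, h4, h5⟩ := ih _ (by rw [← hn]; exact h2) (C.fill (.var 0))
        (fill_bulFree ht trivial) rfl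
      exact ⟨s, h3.head ⟨C, Δ, _, h, over_var 0, rfl, rfl⟩, h4, h5⟩

/-- If a term reduces to a term without `•`, then it is not strongly needed. -/
theorem not_stronglyNeeded {t s : Tm} (h : ReflTransGen R.Step t s) (hs : s.BulFree) :
    ¬ R.StronglyNeeded t := by
  obtain ⟨u, h1, h2, h3⟩ := exists_nf hT s hs
  intro h4
  exact h4 u (h.trans h1) h2 h3

omit hT in
theorem exists_bulFree_of_not_safe {C : Cx} {Δ : Tm} (hb : (C.fill Δ).BulFree)
    (h : ¬ Safe R C) : ∃ s, ReflTransGen R.Step (C.fill .bul) s ∧ s.BulFree := by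
  induction C with
  | hole => exact absurd trivial h
  | arg f k a i C ih =>
    by_cases hF : Flex R (Cx.fill (.arg f k a i C) .bul)
    · exact ⟨.var 0, hF.any (over_var 0), trivial⟩
    · have h1 : ¬ Safe R C := fun h1 => h ⟨h1, hF⟩
      have h2 : (C.fill Δ).BulFree := by
        have := hb i
        rwa [Function.update_self] at this
      obtain ⟨s, h3, h4⟩ := ih h2 h1
      refine ⟨.app f k (Function.update a i s), steps_update h3, ?_⟩
      intro j
      by_cases hj : j = i
      · subst hj; rw [Function.update_self]; exact h4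
      · rw [Function.update_of_ne hj]
        have := hb j
        rwa [Function.update_of_ne hj] at this

/-- The strongly needed occurrences. -/
theorem stronglyNeeded_iff {C : Cx} {Δ : Tm} (hb : (C.fill Δ).BulFree) :
    R.StronglyNeeded (C.fill .bul) ↔ Safe R C := by
  constructor
  · intro h
    by_contra hs
    obtain ⟨s, h1, h2⟩ := exists_bulFree_of_not_safe hb hs
    exact not_stronglyNeeded hT h1 h2 h
  · exact fun h => h.stronglyNeeded hT

end red

/-! ### Linear patterns -/

section lin

variable {R : Rules}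

theorem subst_congr {t : Tm} {σ τ : ℕ → Tm} (h : ∀ n ∈ t.vars, σ n = τ n) :
    t.subst σ = t.subst τ := by
  induction t with
  | var n => exact h n (by simp [Tm.vars])
  | bul => rfl
  | app f k a ih =>
    simp only [Tm.subst]
    congr 1
    funext i
    refine ih i fun n hn => h n ?_
    simp only [Tm.vars, Multiset.mem_sum]
    exact ⟨i, Finset.mem_univ i, hn⟩

theorem nodup_arg {f k : ℕ} {b : Fin k → Tm} (h : (Tm.app f k b).vars.Nodup) (i : Fin k) :
    (b i).vars.Nodup := by
  simp only [Tm.vars] at h
  refine Multiset.nodup_of_le ?_ h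
  exact Finset.single_le_sum (f := fun i => (b i).vars) (fun _ _ => Multiset.zero_le _)
    (Finset.mem_univ i)

theorem disj_arg {f k : ℕ} {b : Fin k → Tm} (h : (Tm.app f k b).vars.Nodup) {i j : Fin k}
    {n : ℕ} (hi : n ∈ (b i).vars) (hj : n ∈ (b j).vars) : i = j := by
  by_contra hij
  simp only [Tm.vars] at h
  rw [Multiset.nodup_iff_count_le_one] at h
  have h1 := h n
  rw [Multiset.count_sum'] at h1
  have h2 : ∑ x ∈ ({i, j} : Finset (Fin k)), Multiset.count n (b x).vars ≤
      ∑ x, Multiset.count n (b x).vars :=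
    Finset.sum_le_sum_of_subset (Finset.subset_univ _)
  rw [Finset.sum_pair hij] at h2
  have h3 := Multiset.one_le_count_iff_mem.2 hi
  have h4 := Multiset.one_le_count_iff_mem.2 hj
  omega

/-- A common substitution for the arguments of a linear term. -/
theorem exists_common {f k : ℕ} {b : Fin k → Tm} (h : (Tm.app f k b).vars.Nodup)
    (σ : Fin k → ℕ → Tm) : ∃ τ, ∀ i, (b i).subst τ = (b i).subst (σ i) := by
  classical
  refine ⟨fun n => if h : ∃ i, n ∈ (b i).vars then σ h.choose n else .var 0, fun i => ?_⟩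
  refine subst_congr fun n hn => ?_
  have h1 : ∃ i, n ∈ (b i).vars := ⟨i, hn⟩
  simp only [dif_pos h1]
  rw [disj_arg h h1.choose_spec hn]

/-- Instance of a pattern. -/
def Inst (t p : Tm) : Prop := ∃ σ, t = p.subst σ

/-- An instance of the pattern can be reached. -/
def Reach (R : Rules) (t p : Tm) : Prop := ∃ σ, ReflTransGen R.Step t (p.subst σ)

theorem Inst.reach {t p : Tm} (h : Inst t p) : Reach R t p := by
  obtain ⟨σ, rfl⟩ := h
  exact ⟨σ, .refl⟩

theorem inst_var (t : Tm) (n : ℕ) : Inst t (.var n) := ⟨fun _ => t, rfl⟩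

theorem reach_var (t : Tm) (n : ℕ) : Reach R t (.var n) := (inst_var t n).reach

theorem Flex.reach {t p : Tm} (h : Flex R t) (hp : R.Over p) : Reach R t p :=
  ⟨Tm.var, by rw [subst_id]; exact h.any hp⟩

theorem inst_app {f k : ℕ} {a b : Fin k → Tm} (hb : (Tm.app f k b).vars.Nodup) :
    Inst (.app f k a) (.app f k b) ↔ ∀ i, Inst (a i) (b i) := by
  constructor
  · rintro ⟨σ, h⟩ i
    simp only [Tm.subst] at h
    have h1 := eq_of_heq (app_inj h).2.2
    exact ⟨σ, congrFun h1 i⟩
  · intro h
    choose σ hσ using h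
    obtain ⟨τ, hτ⟩ := exists_common hb σ
    refine ⟨τ, ?_⟩
    simp only [Tm.subst]
    congr 1
    funext i
    rw [hτ i, ← hσ i]

theorem reach_app {f k : ℕ} {a b : Fin k → Tm} (hb : (Tm.app f k b).vars.Nodup)
    (ho : R.Over (.app f k b)) :
    Reach R (.app f k a) (.app f k b) ↔ Flex R (.app f k a) ∨ ∀ i, Reach R (a i) (b i) := by
  constructor
  · rintro ⟨σ, h⟩
    simp only [Tm.subst] at h
    rcases sim_of_steps h with h1 | h1 | ⟨g, l, a', b', h1, h2, h3⟩
    · exact Or.inl h1
    · have h1 := eq_of_heq (app_inj h1).2.2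
      right
      intro i
      exact ⟨σ, by rw [h1]⟩
    · obtain ⟨rfl, rfl, h1⟩ := app_inj h1
      have h1 := eq_of_heq h1
      have h2 := eq_of_heq (app_inj h2).2.2
      subst h1 h2
      right
      intro i
      exact ⟨σ, h3 i⟩
  · rintro (h | h)
    · exact h.reach ho
    · choose σ hσ using h
      obtain ⟨τ, hτ⟩ := exists_common hb σ
      refine ⟨τ, ?_⟩
      simp only [Tm.subst]
      refine steps_args fun i => ?_
      rw [hτ i]
      exact hσ i

theorem reach_app_ne {f k g l : ℕ} {a : Fin k → Tm} {b : Fin l → Tm} (h : (f, k) ≠ (g, l)) :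
    Reach R (.app f k a) (.app g l b) → Flex R (.app f k a) := by
  rintro ⟨σ, hs⟩
  simp only [Tm.subst] at hs
  rcases sim_of_steps hs with h1 | h1 | ⟨g', l', a', b', h1, h2, h3⟩
  · exact h1
  · obtain ⟨rfl, rfl, -⟩ := app_inj h1
    exact absurd rfl h
  · obtain ⟨rfl, rfl, -⟩ := app_inj h1
    obtain ⟨rfl, rfl, -⟩ := app_inj h2
    exact absurd rfl h

theorem inst_app_ne {f k g l : ℕ} {a : Fin k → Tm} {b : Fin l → Tm} (h : (f, k) ≠ (g, l)) :
    ¬ Inst (.app f k a) (.app g l b) := by
  rintro ⟨σ, hs⟩
  simp only [Tm.subst] at hs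
  obtain ⟨rfl, rfl, -⟩ := app_inj hs
  exact absurd rfl h

theorem redex_iff (hT : R.IsTRS) (hL : R.LeftLinear) {f k : ℕ} {a : Fin k → Tm} :
    R.IsRedex (.app f k a) ↔ ∃ r ∈ R, ∃ b : Fin k → Tm, r.1 = .app f k b ∧
      ∀ i, Inst (a i) (b i) := by
  constructor
  · rintro ⟨r, hr, σ, h⟩
    obtain ⟨h1, -, h2, -⟩ := hT r hr
    cases hl : r.1 with
    | var n => exact absurd hl (h2 n)
    | bul => rw [hl] at h1; exact h1.elim
    | app g l b =>
      rw [hl] at h
      obtain ⟨rfl, rfl, h3⟩ := app_inj h
      have h3 := eq_of_heq h3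
      exact ⟨r, hr, b, hl, fun i => ⟨σ, congrFun h3 i⟩⟩
  · rintro ⟨r, hr, b, hb, h⟩
    have h1 := hL r hr
    rw [hb] at h1
    obtain ⟨σ, hσ⟩ := (inst_app h1).2 h
    exact ⟨r, hr, σ, by rw [hb]; exact hσ⟩

theorem flex_iff (hT : R.IsTRS) (hL : R.LeftLinear) {f k : ℕ} {a : Fin k → Tm} :
    Flex R (.app f k a) ↔ ∃ r ∈ R, ∃ b : Fin k → Tm, r.1 = .app f k b ∧
      ∀ i, Reach R (a i) (b i) := by
  rw [flex_app_iff]
  constructor
  · rintro ⟨a', h1, h2⟩
    obtain ⟨r, hr, b, hb, h3⟩ := (redex_iff hT hL).1 h2
    refine ⟨r, hr, b, hb, fun i => ?_⟩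
    obtain ⟨σ, hσ⟩ := h3 i
    exact ⟨σ, by rw [← hσ]; exact h1 i⟩
  · rintro ⟨r, hr, b, hb, h⟩
    have h1 := hL r hr
    rw [hb] at h1
    choose σ hσ using h
    obtain ⟨τ, hτ⟩ := exists_common h1 σ
    refine ⟨fun i => (b i).subst τ, fun i => ?_, r, hr, τ, by rw [hb]; rfl⟩
    show ReflTransGen R.Step (a i) ((b i).subst τ)
    rw [hτ i]
    exact hσ i

end lin

end Pool.Agent.Lib.MP_ce3b04_lc.Up
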