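import Pool.Agent.Lib.MP_ce3b04_lc.Up.Red

/-!
# Module SEM: the states describe the terms all whose redexes can be erased
-/

open Relation

namespace Pool.Agent.Lib.MP_ce3b04_lc.Up

open Pool.Agent.Lib.PT Pool.Agent.Lib.MP_0b43f8_lc

namespace Sem

/-! ### Lists of arguments -/

theorem hasSym_iff {f k : ℕ} {t : Tm} :
    hasSym (f, k) t = true ↔ ∃ b : Fin k → Tm, t = .app f k b := by
  cases t with
  | var n => simp [hasSym, isApp]
  | bul => simp [hasSym, isApp]
  | app g l a =>
    simp only [hasSym, isApp, name, args, List.length_ofFn, Bool.true_and, Bool.and_eq_true,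
      decide_eq_true_eq]
    constructor
    · rintro ⟨rfl, rfl⟩
      exact ⟨a, rfl⟩
    · rintro ⟨b, h⟩
      obtain ⟨rfl, rfl, -⟩ := app_inj h
      exact ⟨rfl, rfl⟩

theorem getD_ofFn {α : Type} {k : ℕ} (a : Fin k → α) (d : α) {j : ℕ} (hj : j < k) :
    (List.ofFn a).getD j d = a ⟨j, hj⟩ := by
  rw [List.getD_eq_getElem _ _ (by simpa using hj), List.getElem_ofFn]

theorem argsIn_iff {k : ℕ} {b : Fin k → Tm} {X : List (List Tm)} {i : ℕ} :
    argsIn (List.ofFn b) X i = true ↔ ∀ j : Fin k, j.1 = i ∨ b j ∈ X.getD j.1 [] := by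
  unfold argsIn
  rw [List.all_eq_true, List.length_ofFn]
  constructor
  · intro h j
    have := h j.1 (List.mem_range.2 j.2)
    rw [Bool.or_eq_true, decide_eq_true_eq, decide_eq_true_eq, getD_ofFn b _ j.2] at this
    exact this
  · intro h j hj
    rw [List.mem_range] at hj
    rw [Bool.or_eq_true, decide_eq_true_eq, decide_eq_true_eq, getD_ofFn b _ hj]
    exact h ⟨j, hj⟩

theorem mem_args {f k : ℕ} {b : Fin k → Tm} (i : Fin k) : b i ∈ args (.app f k b) := by
  unfold args
  rw [List.mem_ofFn]
  exact ⟨i, rfl⟩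

theorem ht_lt {t x : Tm} (h : x ∈ args t) : ht x < ht t := by
  cases t with
  | var n => simp [args] at h
  | bul => simp [args] at h
  | app f k a =>
    simp only [args, List.mem_ofFn] at h
    obtain ⟨i, rfl⟩ := h
    have : ht (a i) ≤ Finset.univ.sup fun i => ht (a i) :=
      Finset.le_sup (f := fun i => ht (a i)) (Finset.mem_univ i)
    simp only [ht]
    omega

theorem ht_level {L : List Tm} {n : ℕ} (h : ∀ t ∈ L, ht t < n) (d : ℕ) :
    ∀ x ∈ nxt^[d] L, ht x + d < n := by
  induction d with
  | zero => exact h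
  | succ d ih =>
    intro x hx
    rw [Function.iterate_succ_apply'] at hx
    unfold nxt at hx
    rw [List.mem_flatMap] at hx
    obtain ⟨y, hy, hx⟩ := hx
    have := ht_lt hx
    have := ih y hy
    omega

theorem mem_subs {n : ℕ} {L : List Tm} {x : Tm} :
    x ∈ subs n L ↔ ∃ d < n, x ∈ nxt^[d] L := by
  unfold subs
  rw [List.mem_flatMap]
  simp only [List.mem_range]

theorem subs_closed {L : List Tm} {n : ℕ} (h : ∀ t ∈ L, ht t < n) {x y : Tm}
    (hx : x ∈ subs n L) (hy : y ∈ args x) : y ∈ subs n L := by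
  obtain ⟨d, -, hx⟩ := mem_subs.1 hx
  have h1 := ht_level h d x hx
  have h2 := ht_lt hy
  refine mem_subs.2 ⟨d + 1, by omega, ?_⟩
  rw [Function.iterate_succ_apply']
  unfold nxt
  exact List.mem_flatMap.2 ⟨x, hx, hy⟩

theorem subs_self {L : List Tm} {n : ℕ} (hn : 0 < n) {x : Tm} (hx : x ∈ L) : x ∈ subs n L :=
  mem_subs.2 ⟨0, hn, hx⟩

theorem level_sub {L : List Tm} (d : ℕ) : ∀ x ∈ nxt^[d] L, ∃ t ∈ L, ∃ C : Cx, t = C.fill x := by
  induction d with
  | zero => exact fun x hx => ⟨x, hx, .hole, rfl⟩
  | succ d ih =>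
    intro x hx
    rw [Function.iterate_succ_apply] at hx
    have key : ∀ y ∈ nxt L, ∃ t ∈ L, ∃ (f k : ℕ) (a : Fin k → Tm) (i : Fin k),
        t = .app f k a ∧ a i = y := by
      intro y hy
      unfold nxt at hy
      rw [List.mem_flatMap] at hy
      obtain ⟨t, ht, hy⟩ := hy
      cases t with
      | var n => simp [args] at hy
      | bul => simp [args] at hy
      | app f k a =>
        simp only [args, List.mem_ofFn] at hy
        obtain ⟨i, rfl⟩ := hy
        exact ⟨_, ht, f, k, a, i, rfl, rfl⟩
    have ih' : ∀ (L : List Tm) (x : Tm), x ∈ nxt^[d] L → ∃ t ∈ L, ∃ C : Cx, t = C.fill x := by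
      clear ih hx x key
      induction d with
      | zero => exact fun L x hx => ⟨x, hx, .hole, rfl⟩
      | succ d ih =>
        intro L x hx
        rw [Function.iterate_succ_apply] at hx
        obtain ⟨y, hy, C, rfl⟩ := ih (nxt L) x hx
        unfold nxt at hy
        rw [List.mem_flatMap] at hy
        obtain ⟨t, ht, hy⟩ := hy
        cases t with
        | var n => simp [args] at hy
        | bul => simp [args] at hy
        | app f k a =>
          simp only [args, List.mem_ofFn] at hy
          obtain ⟨i, hi⟩ := hy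
          refine ⟨_, ht, .arg f k a i C, ?_⟩
          simp only [Cx.fill]
          rw [← hi, Function.update_eq_self]
    obtain ⟨y, hy, C, rfl⟩ := ih' (nxt L) x hx
    obtain ⟨t, ht, f, k, a, i, rfl, hi⟩ := key _ hy
    refine ⟨_, ht, .arg f k a i C, ?_⟩
    simp only [Cx.fill]
    rw [← hi, Function.update_eq_self]

/-! ### The patterns -/

/-- The properties of the list of patterns. -/
structure PatOK (R : Rules) (P : List Tm) : Prop where
  lhs : ∀ r ∈ R, ∀ x ∈ args r.1, x ∈ P
  cl : ∀ p ∈ P, ∀ x ∈ args p, x ∈ P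
  sub : ∀ p ∈ P, ∃ r ∈ R, ∃ C : Cx, C ≠ .hole ∧ r.1 = C.fill p

theorem patOK {n : ℕ} {R : Rules} (hn : HtLT n R) : PatOK R (pats n R) := by
  have h0 : ∀ t ∈ (lhss R).flatMap args, ht t < n := by
    intro t ht'
    rw [List.mem_flatMap] at ht'
    obtain ⟨l, hl, ht'⟩ := ht'
    unfold lhss at hl
    rw [List.mem_map] at hl
    obtain ⟨r, hr, rfl⟩ := hl
    have := ht_lt ht'
    have := (hn r hr).1
    omega
  refine ⟨?_, ?_, ?_⟩
  · intro r hr x hx
    have h1 : x ∈ (lhss R).flatMap args :=
      List.mem_flatMap.2 ⟨r.1, List.mem_map.2 ⟨r, hr, rfl⟩, hx⟩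
    exact subs_self (by have := h0 x h1; omega) h1
  · intro p hp x hx
    exact subs_closed h0 hp hx
  · intro p hp
    obtain ⟨d, -, hd⟩ := mem_subs.1 hp
    obtain ⟨t, ht', C, rfl⟩ := level_sub d p hd
    rw [List.mem_flatMap] at ht'
    obtain ⟨l, hl, ht'⟩ := ht'
    unfold lhss at hl
    rw [List.mem_map] at hl
    obtain ⟨r, hr, rfl⟩ := hl
    refine ⟨r, hr, ?_⟩
    cases hc : r.1 with
    | var n => rw [hc] at ht'; simp [args] at ht'
    | bul => rw [hc] at ht'; simp [args] at ht'
    | app f k a =>
      rw [hc] at ht'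
      simp only [args, List.mem_ofFn] at ht'
      obtain ⟨i, hi⟩ := ht'
      refine ⟨.arg f k a i C, by simp, ?_⟩
      simp only [Cx.fill]
      rw [← hi, Function.update_eq_self]

theorem nodup_of_fill {C : Cx} {p : Tm} (h : (C.fill p).vars.Nodup) : p.vars.Nodup := by
  induction C with
  | hole => exact h
  | arg f k a i C ih =>
    have := nodup_arg h i
    rw [Function.update_self] at this
    exact ih this

section

variable {R : Rules} {P : List Tm}

theorem PatOK.over (h : PatOK R P) {p : Tm} (hp : p ∈ P) : R.Over p := by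
  obtain ⟨r, hr, C, -, hC⟩ := h.sub p hp
  refine over_of_fill (C := C) ?_
  rw [← hC]
  exact fun s hs => ⟨r, hr, Or.inl hs⟩

theorem PatOK.bulFree (h : PatOK R P) (hT : R.IsTRS) {p : Tm} (hp : p ∈ P) : p.BulFree := by
  obtain ⟨r, hr, C, -, hC⟩ := h.sub p hp
  refine bulFree_of_fill (C := C) ?_
  rw [← hC]
  exact (hT r hr).1

theorem PatOK.nodup (h : PatOK R P) (hL : R.LeftLinear) {p : Tm} (hp : p ∈ P) :
    p.vars.Nodup := by
  obtain ⟨r, hr, C, -, hC⟩ := h.sub p hp
  refine nodup_of_fill (C := C) ?_
  rw [← hC]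
  exact hL r hr

theorem PatOK.noOv (h : PatOK R P) (hN : R.NonOverlapping) {p : Tm} (hp : p ∈ P)
    (hv : isVar p = false) {r : Tm × Tm} (hr : r ∈ R) (σ τ : ℕ → Tm) :
    p.subst σ ≠ r.1.subst τ := by
  obtain ⟨r', hr', C, hC, hC'⟩ := h.sub p hp
  refine hN r' hr' r hr C p hC' ?_ (Or.inl hC) σ τ
  rintro n rfl
  simp [isVar] at hv

/-! ### The sets of a term -/

open Classical in
/-- The patterns of which `t` is an instance. -/
noncomputable def mS (P : List Tm) (t : Tm) : List Tm := P.filter fun p => decide (Inst t p)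

open Classical in
/-- The patterns whose instances can be reached. -/
noncomputable def qS (R : Rules) (P : List Tm) (t : Tm) : List Tm :=
  P.filter fun p => decide (Reach R t p)

open Classical in
theorem mem_mS {t p : Tm} : p ∈ mS P t ↔ p ∈ P ∧ Inst t p := by
  unfold mS
  rw [List.mem_filter, decide_eq_true_eq]

open Classical in
theorem mem_qS {t p : Tm} : p ∈ qS R P t ↔ p ∈ P ∧ Reach R t p := by
  unfold qS
  rw [List.mem_filter, decide_eq_true_eq]

/-- The list of the sets `mS` of the arguments. -/
noncomputable abbrev mX (P : List Tm) {k : ℕ} (a : Fin k → Tm) : List (List Tm) :=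
  List.ofFn fun i => mS P (a i)

/-- The list of the sets `qS` of the arguments. -/
noncomputable abbrev qX (R : Rules) (P : List Tm) {k : ℕ} (a : Fin k → Tm) : List (List Tm) :=
  List.ofFn fun i => qS R P (a i)

variable (hP : PatOK R P) (hT : R.IsTRS) (hL : R.LeftLinear)

include hP hT hL

theorem not_bul_mem : Tm.bul ∉ P := fun h => hP.bulFree hT h

theorem redexb_m {f k : ℕ} {a : Fin k → Tm} :
    redexb (lhss R) (f, k) (mX P a) = true ↔ R.IsRedex (.app f k a) := by
  unfold redexb lhss
  rw [List.any_eq_true, redex_iff hT hL]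
  constructor
  · rintro ⟨l, hl, h⟩
    rw [List.mem_map] at hl
    obtain ⟨r, hr, rfl⟩ := hl
    rw [Bool.and_eq_true] at h
    obtain ⟨h1, h2⟩ := h
    obtain ⟨b, hb⟩ := hasSym_iff.1 h1
    refine ⟨r, hr, b, hb, fun i => ?_⟩
    rw [hb] at h2
    have h3 := argsIn_iff.1 h2 i
    rcases h3 with h3 | h3
    · exact absurd h3 (by have := i.2; simp; omega)
    · rw [getD_ofFn _ _ i.2] at h3
      exact (mem_mS.1 h3).2
  · rintro ⟨r, hr, b, hb, h⟩
    refine ⟨r.1, List.mem_map.2 ⟨r, hr, rfl⟩, ?_⟩
    rw [Bool.and_eq_true]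
    refine ⟨hasSym_iff.2 ⟨b, hb⟩, ?_⟩
    rw [hb]
    refine argsIn_iff.2 fun i => Or.inr ?_
    rw [getD_ofFn _ _ i.2]
    refine mem_mS.2 ⟨hP.lhs r hr _ ?_, h i⟩
    rw [hb]
    exact mem_args i

theorem redexb_q {f k : ℕ} {a : Fin k → Tm} :
    redexb (lhss R) (f, k) (qX R P a) = true ↔ Flex R (.app f k a) := by
  unfold redexb lhss
  rw [List.any_eq_true, flex_iff hT hL]
  constructor
  · rintro ⟨l, hl, h⟩
    rw [List.mem_map] at hl
    obtain ⟨r, hr, rfl⟩ := hl
    rw [Bool.and_eq_true] at h
    obtain ⟨h1, h2⟩ := h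
    obtain ⟨b, hb⟩ := hasSym_iff.1 h1
    refine ⟨r, hr, b, hb, fun i => ?_⟩
    rw [hb] at h2
    have h3 := argsIn_iff.1 h2 i
    rcases h3 with h3 | h3
    · exact absurd h3 (by have := i.2; simp; omega)
    · rw [getD_ofFn _ _ i.2] at h3
      exact (mem_qS.1 h3).2
  · rintro ⟨r, hr, b, hb, h⟩
    refine ⟨r.1, List.mem_map.2 ⟨r, hr, rfl⟩, ?_⟩
    rw [Bool.and_eq_true]
    refine ⟨hasSym_iff.2 ⟨b, hb⟩, ?_⟩
    rw [hb]
    refine argsIn_iff.2 fun i => Or.inr ?_
    rw [getD_ofFn _ _ i.2]
    refine mem_qS.2 ⟨hP.lhs r hr _ ?_, h i⟩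
    rw [hb]
    exact mem_args i

open Classical in
theorem mset_eq {f k : ℕ} {a : Fin k → Tm} : mset P (f, k) (mX P a) = mS P (.app f k a) := by
  unfold mset mS
  refine List.filter_congr fun p hp => ?_
  rw [Bool.eq_iff_iff, Bool.or_eq_true, Bool.and_eq_true, decide_eq_true_eq]
  cases p with
  | var n => simp only [isVar, true_or, true_iff]; exact inst_var _ n
  | bul => exact absurd hp (not_bul_mem hP hT hL)
  | app g l b =>
    simp only [isVar, Bool.false_eq_true, false_or]
    constructor
    · rintro ⟨h1, h2⟩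
      obtain ⟨b', hb'⟩ := hasSym_iff.1 h1
      obtain ⟨rfl, rfl, hb'⟩ := app_inj hb'
      obtain rfl := eq_of_heq hb'
      rw [inst_app (hP.nodup hL hp)]
      intro i
      have h3 := argsIn_iff.1 h2 i
      rcases h3 with h3 | h3
      · exact absurd h3 (by have := i.2; simp; omega)
      · rw [getD_ofFn _ _ i.2] at h3
        exact (mem_mS.1 h3).2
    · intro h
      by_cases hfk : (f, k) = (g, l)
      · obtain ⟨rfl, rfl⟩ := Prod.ext_iff.1 hfk
        refine ⟨hasSym_iff.2 ⟨b, rfl⟩, argsIn_iff.2 fun i => Or.inr ?_⟩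
        rw [getD_ofFn _ _ i.2]
        exact mem_mS.2 ⟨hP.cl _ hp _ (mem_args i), (inst_app (hP.nodup hL hp)).1 h i⟩
      · exact absurd h (inst_app_ne hfk)

open Classical in
theorem qset_eq {f k : ℕ} {a : Fin k → Tm} :
    qset (lhss R) P (f, k) (qX R P a) = qS R P (.app f k a) := by
  unfold qset
  cases hr : redexb (lhss R) (f, k) (qX R P a) with
  | true =>
    simp only [cond_true]
    have h := (redexb_q hP hT hL).1 hr
    unfold qS
    rw [List.filter_eq_self.2]
    intro p hp
    rw [decide_eq_true_eq]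
    exact h.reach (hP.over hp)
  | false =>
    simp only [cond_false]
    have h : ¬ Flex R (.app f k a) := fun h => by
      rw [(redexb_q hP hT hL).2 h] at hr
      exact absurd hr (by simp)
    unfold mset qS
    refine List.filter_congr fun p hp => ?_
    rw [Bool.eq_iff_iff, Bool.or_eq_true, Bool.and_eq_true, decide_eq_true_eq]
    cases p with
    | var n => simp only [isVar, true_or, true_iff]; exact reach_var _ n
    | bul => exact absurd hp (not_bul_mem hP hT hL)
    | app g l b =>
      simp only [isVar, Bool.false_eq_true, false_or]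
      constructor
      · rintro ⟨h1, h2⟩
        obtain ⟨b', hb'⟩ := hasSym_iff.1 h1
        obtain ⟨rfl, rfl, hb'⟩ := app_inj hb'
        obtain rfl := eq_of_heq hb'
        rw [reach_app (hP.nodup hL hp) (hP.over hp)]
        right
        intro i
        have h3 := argsIn_iff.1 h2 i
        rcases h3 with h3 | h3
        · exact absurd h3 (by have := i.2; simp; omega)
        · rw [getD_ofFn _ _ i.2] at h3
          exact (mem_qS.1 h3).2
      · intro h'
        by_cases hfk : (f, k) = (g, l)
        · obtain ⟨rfl, rfl⟩ := Prod.ext_iff.1 hfk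
          refine ⟨hasSym_iff.2 ⟨b, rfl⟩, argsIn_iff.2 fun i => Or.inr ?_⟩
          rw [getD_ofFn _ _ i.2]
          rcases (reach_app (hP.nodup hL hp) (hP.over hp)).1 h' with h2 | h2
          · exact absurd h2 h
          · exact mem_qS.2 ⟨hP.cl _ hp _ (mem_args i), h2 i⟩
        · exact absurd (reach_app_ne hfk h') h

/-! ### Erasure -/

omit hP hT hL in
/-- The hole is erased: in the context, or by the surrounding term as soon as an instance of a
pattern in `G` is reached. -/
def Del (R : Rules) (G : List Tm) (C : Cx) : Prop :=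
  ¬ Safe R C ∨ ∃ p ∈ G, Reach R (C.fill .bul) p

omit hP hT hL in
/-- All redexes of `t` are erased. -/
def Free (R : Rules) (G : List Tm) (t : Tm) : Prop :=
  ∀ C Δ, t = Cx.fill C Δ → R.IsRedex Δ → Del R G C

theorem del_arg_iff {G : List Tm} (hG : ∀ p ∈ G, p ∈ P) {f k : ℕ} (a : Fin k → Tm) (i : Fin k)
    (C : Cx) : Del R G (.arg f k a i C) ↔
      Del R (gset (lhss R) P (f, k) G (qX R P a) i.1) C := by
  unfold gset
  cases hv : G.any isVar with
  | true =>
    simp only [cond_true]
    rw [List.any_eq_true] at hv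
    obtain ⟨v, hv1, hv2⟩ := hv
    have h1 : ∀ t, Reach R t v := by
      intro t
      cases v with
      | var n => exact reach_var t n
      | bul => simp [isVar] at hv2
      | app f k a => simp [isVar] at hv2
    exact ⟨fun _ => Or.inr ⟨v, hG v hv1, h1 _⟩, fun _ => Or.inr ⟨v, hv1, h1 _⟩⟩
  | false =>
    simp only [cond_false]
    have hupd : Cx.fill (.arg f k a i C) .bul = .app f k (Function.update a i (C.fill .bul)) := rfl
    -- the patterns in the new set
    have key : ∀ (r : Tm) (b : Fin k → Tm), r ∈ lhss R ++ G → r = .app f k b →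
        (∀ j, Reach R (Function.update a i (C.fill .bul) j) (b j)) →
        (∀ j, b j ∈ P) →
        Del R (P.filter fun p => (lhss R ++ G).any fun r => hasSym (f, k) r &&
          (decide ((args r).getD i.1 .bul = p) && argsIn (args r) (qX R P a) i.1)) C := by
      rintro r b hr rfl hb hbP
      right
      refine ⟨b i, List.mem_filter.2 ⟨hbP i, ?_⟩, ?_⟩
      · rw [List.any_eq_true]
        refine ⟨_, hr, ?_⟩
        rw [Bool.and_eq_true, Bool.and_eq_true, decide_eq_true_eq]
        refine ⟨hasSym_iff.2 ⟨b, rfl⟩, getD_ofFn b _ i.2, argsIn_iff.2 fun j => ?_⟩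
        by_cases hj : j = i
        · exact Or.inl (by rw [hj])
        · right
          rw [getD_ofFn _ _ j.2]
          have := hb j
          rw [Function.update_of_ne hj] at this
          exact mem_qS.2 ⟨hbP j, this⟩
      · have := hb i
        rwa [Function.update_self] at this
    have keyF : Flex R (.app f k (Function.update a i (C.fill .bul))) →
        Del R (P.filter fun p => (lhss R ++ G).any fun r => hasSym (f, k) r &&
          (decide ((args r).getD i.1 .bul = p) && argsIn (args r) (qX R P a) i.1)) C := by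
      intro h
      obtain ⟨r, hr, b, hb, h⟩ := (flex_iff hT hL).1 h
      refine key r.1 b (List.mem_append_left _ (List.mem_map.2 ⟨r, hr, rfl⟩)) hb h fun j => ?_
      refine hP.lhs r hr _ ?_
      rw [hb]
      exact mem_args j
    constructor
    · rintro (h | ⟨p, hp, h⟩)
      · by_cases hs : Safe R C
        · have h1 : Flex R (Cx.fill (.arg f k a i C) .bul) := by
            by_contra h2
            exact h ⟨hs, h2⟩
          exact keyF h1
        · exact Or.inl hs
      · rw [hupd] at h
        cases p with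
        | var n =>
          have : G.any isVar = true := List.any_eq_true.2 ⟨_, hp, rfl⟩
          rw [hv] at this
          exact absurd this (by simp)
        | bul => exact absurd (hG _ hp) (not_bul_mem hP hT hL)
        | app g l b =>
          by_cases hfk : (f, k) = (g, l)
          · obtain ⟨rfl, rfl⟩ := Prod.ext_iff.1 hfk
            rcases (reach_app (hP.nodup hL (hG _ hp)) (hP.over (hG _ hp))).1 h with h1 | h1
            · exact keyF h1
            · exact key _ b (List.mem_append_right _ hp) rfl h1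
                fun j => hP.cl _ (hG _ hp) _ (mem_args j)
          · exact keyF (reach_app_ne hfk h)
    · rintro (h | ⟨p, hp, h⟩)
      · exact Or.inl fun h1 => h h1.1
      · rw [List.mem_filter, List.any_eq_true] at hp
        obtain ⟨hpP, r, hr, h2⟩ := hp
        rw [Bool.and_eq_true, Bool.and_eq_true, decide_eq_true_eq] at h2
        obtain ⟨h3, h4, h5⟩ := h2
        obtain ⟨b, rfl⟩ := hasSym_iff.1 h3
        have h6 : b i = p := by rw [← h4]; exact (getD_ofFn b _ i.2).symm
        have h7 : ∀ j, Reach R (Function.update a i (C.fill .bul) j) (b j) := by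
          intro j
          by_cases hj : j = i
          · subst hj
            rw [Function.update_self, h6]
            exact h
          · rw [Function.update_of_ne hj]
            rcases argsIn_iff.1 h5 j with h8 | h8
            · exact absurd (Fin.ext h8) hj
            · rw [getD_ofFn _ _ j.2] at h8
              exact (mem_qS.1 h8).2
        rcases List.mem_append.1 hr with hr | hr
        · unfold lhss at hr
          rw [List.mem_map] at hr
          obtain ⟨r', hr', h8⟩ := hr
          left
          intro hs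
          refine hs.2 ?_
          rw [hupd]
          exact (flex_iff hT hL).2 ⟨r', hr', b, h8, h7⟩
        · right
          refine ⟨_, hr, ?_⟩
          rw [hupd]
          exact (reach_app (hP.nodup hL (hG _ hr)) (hP.over (hG _ hr))).2 (Or.inr h7)

theorem free_app {G : List Tm} (hG : ∀ p ∈ G, p ∈ P) {f k : ℕ} {a : Fin k → Tm}
    (hr : ¬ R.IsRedex (.app f k a)) : Free R G (.app f k a) ↔
      ∀ i : Fin k, Free R (gset (lhss R) P (f, k) G (qX R P a) i.1) (a i) := by
  constructor
  · intro h i C Δ h1 h2
    refine (del_arg_iff hP hT hL hG a i C).1 (h (.arg f k a i C) Δ ?_ h2)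
    simp only [Cx.fill]
    rw [← h1, Function.update_eq_self]
  · intro h C Δ h1 h2
    cases C with
    | hole =>
      simp only [Cx.fill] at h1
      subst h1
      exact absurd h2 hr
    | arg g l a' i C =>
      simp only [Cx.fill] at h1
      obtain ⟨rfl, rfl, h3⟩ := app_inj h1
      have h3 := eq_of_heq h3
      have h4 : a i = C.fill Δ := by rw [h3, Function.update_self]
      have h5 := (del_arg_iff hP hT hL hG a i C).2 (h i C Δ h4 h2)
      have h6 : ∀ u, Cx.fill (.arg f k a i C) u = Cx.fill (.arg f k a' i C) u := by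
        intro u
        simp only [Cx.fill]
        rw [h3, Function.update_idem]
      rcases h5 with h5 | ⟨p, hp, h5⟩
      · refine Or.inl fun h7 => h5 ⟨h7.1, ?_⟩
        rw [h6]
        exact h7.2
      · refine Or.inr ⟨p, hp, ?_⟩
        rw [← h6]
        exact h5

omit hP hL in
theorem free_hole {G : List Tm} {t : Tm} (h : Free R G t) (hr : R.IsRedex t)
    (hG : ∀ p ∈ G, p ≠ .bul) : G.any isVar = true := by
  rcases h .hole t rfl hr with h1 | ⟨p, hp, σ, h1⟩
  · exact absurd trivial h1
  · rw [List.any_eq_true]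
    refine ⟨p, hp, ?_⟩
    simp only [Cx.fill] at h1
    have h2 := steps_bul hT h1
    cases p with
    | var n => rfl
    | bul => exact absurd rfl (hG _ hp)
    | app f k a => simp [Tm.subst] at h2

omit hP hT hL in
theorem free_of_var {G : List Tm} (h : G.any isVar = true) (t : Tm) : Free R G t := by
  intro C Δ _ _
  rw [List.any_eq_true] at h
  obtain ⟨v, hv1, hv2⟩ := h
  refine Or.inr ⟨v, hv1, ?_⟩
  cases v with
  | var n => exact reach_var _ n
  | bul => simp [isVar] at hv2
  | app f k a => simp [isVar] at hv2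

end

end Sem

end Pool.Agent.Lib.MP_ce3b04_lc.Up
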